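import Pool.Agent.Q253.CP.F4

set_option autoImplicit false

/-! # Project CP: the problem's inequalities for each character -/

namespace Pool.Agent.Q253.CP

open MeasureTheory Filter Topology Set Complex
open Pool.Agent.Q253.HV Pool.Agent.Q253.LQ
open DirichletCharacter (LFunction)

variable {q : ℕ} [NeZero q]

/-- the ordinates in `(T, 2T]` -/
noncomputable def FF (χ : DirichletCharacter ℂ q) (T : ℝ) : Finset ℝ :=
  (Pool.Agent.Q195.CP.NT.fin_zeros χ (2 * T)).toFinset.filter (fun γ => T < γ)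

lemma FF_mem (χ : DirichletCharacter ℂ q) {T : ℝ} (hT : 0 ≤ T) (γ : ℝ) :
    γ ∈ FF χ T ↔ (T < γ ∧ γ ≤ 2 * T) ∧ mc χ γ ≠ 0 := by
  unfold FF
  rw [Finset.mem_filter, Finite.mem_toFinset, mem_ofPred_eq]
  constructor
  · rintro ⟨⟨h1, h2⟩, h3⟩
    exact ⟨⟨h3, (le_abs_self _).trans h1⟩, h2⟩
  · rintro ⟨⟨h1, h2⟩, h3⟩
    exact ⟨⟨abs_le.2 ⟨by linarith, h2⟩, h3⟩, h1⟩

lemma mc_ne (χ : DirichletCharacter ℂ q) (γ : ℝ) : mc χ γ ≠ 0 ↔ LFunction χ (1 / 2 + (γ : ℂ) * I) = 0 :=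
  ordNat_iff χ (half_ne1 γ)

/-- the zeros in the strip -/
def SS (χ : DirichletCharacter ℂ q) (T : ℝ) : Set ℂ :=
  {s : ℂ | 0 < s.re ∧ s.re < 1 ∧ T < s.im ∧ s.im ≤ 2 * T ∧ LFunction χ s = 0}

lemma SS_bij {χ : DirichletCharacter ℂ q} (hχ : GRHc χ) {T : ℝ} (hT : 0 ≤ T) :
    Set.BijOn (fun γ : ℝ => (1 / 2 : ℂ) + (γ : ℂ) * I) (FF χ T : Set ℝ) (SS χ T) := by
  refine ⟨?_, ?_, ?_⟩
  · intro γ hγ
    obtain ⟨⟨h1, h2⟩, h3⟩ := (FF_mem χ hT γ).1 hγ
    refine ⟨by rw [half_re1]; norm_num, by rw [half_re1]; norm_num, by rw [half_im1]; exact h1,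
      by rw [half_im1]; exact h2, (mc_ne χ γ).1 h3⟩
  · intro a _ b _ hab
    have := congrArg Complex.im hab
    simpa [half_im1] using this
  · rintro s ⟨h0, h1, h2, h3, h4⟩
    have h5 := strip_line hχ h0 h1 h4
    have h6 : (1 / 2 : ℂ) + (s.im : ℂ) * I = s := by
      apply Complex.ext
      · rw [half_re1, h5]
      · rw [half_im1]
    refine ⟨s.im, (FF_mem χ hT _).2 ⟨⟨h2, h3⟩, (mc_ne χ _).2 ?_⟩, h6⟩
    rw [h6]; exact h4

lemma SS_sum {χ : DirichletCharacter ℂ q} (hχ : GRHc χ) {T : ℝ} (hT : 0 ≤ T) :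
    ∑ᶠ ρ ∈ SS χ T, ((analyticOrderAt (LFunction χ) ρ).toNat : ℝ) = ∑ γ ∈ FF χ T, (mc χ γ : ℝ) := by
  rw [← finsum_mem_coe_finset]
  exact (finsum_mem_eq_of_bijOn _ (SS_bij hχ hT) fun γ _ => rfl).symm

lemma SS_card {χ : DirichletCharacter ℂ q} (hχ : GRHc χ) {T : ℝ} (hT : 0 ≤ T) :
    ((SS χ T).ncard : ℝ) = (FF χ T).card := by
  have h := SS_bij hχ hT
  rw [← h.image_eq, h.injOn.ncard_image, Set.ncard_coe_finset]

/-- the simple zeros on the line -/
def SL (χ : DirichletCharacter ℂ q) (T : ℝ) : Set ℂ :=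
  {s : ℂ | s.re = 1 / 2 ∧ T < s.im ∧ s.im ≤ 2 * T ∧ analyticOrderAt (LFunction χ) s = 1}

lemma SL_card (χ : DirichletCharacter ℂ q) {T : ℝ} (hT : 0 ≤ T) :
    ((SL χ T).ncard : ℝ) = ((FF χ T).filter (fun γ => mc χ γ = 1)).card := by
  have h : Set.BijOn (fun γ : ℝ => (1 / 2 : ℂ) + (γ : ℂ) * I) (((FF χ T).filter (fun γ => mc χ γ = 1) : Finset ℝ) : Set ℝ)
      (SL χ T) := by
    have key : ∀ γ : ℝ, mc χ γ = 1 ↔ analyticOrderAt (LFunction χ) (1 / 2 + (γ : ℂ) * I) = 1 := by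
      intro γ
      unfold mc analyticOrderNatAt
      constructor
      · intro h
        have h1 := ENat.natCast_toNat (ord_ne_top χ (half_ne1 γ))
        rw [← h1, h]; rfl
      · intro h
        rw [h]; rfl
    refine ⟨?_, ?_, ?_⟩
    · intro γ hγ
      rw [Finset.mem_coe, Finset.mem_filter] at hγ
      obtain ⟨⟨h1, h2⟩, h3⟩ := (FF_mem χ hT γ).1 hγ.1
      exact ⟨half_re1 γ, by rw [half_im1]; exact h1, by rw [half_im1]; exact h2, (key γ).1 hγ.2⟩
    · intro a _ b _ hab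
      have := congrArg Complex.im hab
      simpa [half_im1] using this
    · rintro s ⟨h0, h2, h3, h4⟩
      have h6 : (1 / 2 : ℂ) + (s.im : ℂ) * I = s := by
        apply Complex.ext
        · rw [half_re1, h0]
        · rw [half_im1]
      have h7 : mc χ s.im = 1 := (key _).2 (by rw [h6]; exact h4)
      refine ⟨s.im, ?_, h6⟩
      rw [Finset.mem_coe, Finset.mem_filter]
      exact ⟨(FF_mem χ hT _).2 ⟨⟨h2, h3⟩, by rw [h7]; exact one_ne_zero⟩, h7⟩
  rw [← h.image_eq, h.injOn.ncard_image, Set.ncard_coe_finset]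

/-- multiple zeros of one function are multiple zeros of the product -/
lemma sum_sub_card {X : Finset (DirichletCharacter ℂ q)} (hsm : Summable (fun γ : ℝ => (mX X γ : ℝ) / (1 + γ ^ 2)))
    {χ : DirichletCharacter ℂ q} (hχ : χ ∈ X) {T : ℝ} (hT : 0 ≤ T) :
    (∑ γ ∈ FF χ T, (mc χ γ : ℝ)) - ((FF χ T).filter (fun γ => mc χ γ = 1)).card ≤ Bm (mX X) (2 * T) := by
  classical
  have hB : (Bm (mX X) (2 * T) : ℝ) = ∑ γ ∈ ((fin_zeros hsm (2 * T)).toFinset).filter (fun γ => mX X γ ≠ 1),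
      (mX X γ : ℝ) := by
    unfold Bm
    rw [finsum_mem_eq_sum_of_inter_support_eq (t := ((fin_zeros hsm (2 * T)).toFinset).filter (fun γ => mX X γ ≠ 1))]
    · push_cast; rfl
    · ext γ
      simp only [mem_inter_iff, mem_ofPred_eq, Function.mem_support, Finset.coe_filter, Finite.mem_toFinset]
      tauto
  have hle : ∀ γ, mc χ γ ≤ mX X γ := fun γ => by
    unfold mX
    exact Finset.single_le_sum (f := fun χ => mc χ γ) (fun _ _ => Nat.zero_le _) hχ
  have h1 : (∑ γ ∈ FF χ T, (mc χ γ : ℝ)) - ((FF χ T).filter (fun γ => mc χ γ = 1)).card =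
      ∑ γ ∈ (FF χ T).filter (fun γ => mc χ γ ≠ 1), (mc χ γ : ℝ) := by
    have h2 := Finset.sum_filter_add_sum_filter_not (FF χ T) (fun γ => mc χ γ = 1) (fun γ => (mc χ γ : ℝ))
    have h3 : ∑ γ ∈ (FF χ T).filter (fun γ => mc χ γ = 1), (mc χ γ : ℝ) = ((FF χ T).filter (fun γ => mc χ γ = 1)).card := by
      rw [Finset.card_eq_sum_ones]
      push_cast
      refine Finset.sum_congr rfl fun γ hγ => ?_
      rw [(Finset.mem_filter.1 hγ).2]
      norm_num
    rw [← h2, h3]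
    ring
  rw [h1, hB]
  have hsub : (FF χ T).filter (fun γ => mc χ γ ≠ 1) ⊆ ((fin_zeros hsm (2 * T)).toFinset).filter (fun γ => mX X γ ≠ 1) := by
    intro γ hγ
    rw [Finset.mem_filter] at hγ ⊢
    obtain ⟨⟨h2, h3⟩, h4⟩ := (FF_mem χ hT γ).1 hγ.1
    have h5 := hle γ
    have h6 := hγ.2
    refine ⟨(fin_zeros hsm (2 * T)).mem_toFinset.2 ⟨abs_le.2 ⟨by linarith, h3⟩, by omega⟩, by omega⟩
  calc ∑ γ ∈ (FF χ T).filter (fun γ => mc χ γ ≠ 1), (mc χ γ : ℝ)
      ≤ ∑ γ ∈ (FF χ T).filter (fun γ => mc χ γ ≠ 1), (mX X γ : ℝ) :=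
        Finset.sum_le_sum fun γ _ => by exact_mod_cast hle γ
    _ ≤ _ := Finset.sum_le_sum_of_subset_of_nonneg hsub fun _ _ _ => Nat.cast_nonneg _

/-- many zeros in `(T, 2T]` -/
lemma FF_many {χ : DirichletCharacter ℂ q} (hχ : GRHc χ) :
    ∀ᶠ T : ℝ in atTop, 1 / (4 * Real.pi) * (T * Real.log T) ≤ ∑ γ ∈ FF χ T, (mc χ γ : ℝ) := by
  have : NeZero χ.conductor := ⟨χ.conductor_ne_zero⟩
  have hpi := Real.pi_pos
  have hl := Pool.Agent.Q195.CP.NT.NN_lim (H370.good_dirichlet χ.primitiveCharacter χ.primitiveCharacter_isPrimitive)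
  set NNf : ℝ → ℝ := fun T => (H370.NN (LFunction χ.primitiveCharacter) 1 T : ℝ) with hNN
  have hup : ∀ᶠ T : ℝ in atTop, NNf T / (T * Real.log T) < 9 / 8 * (1 / (2 * Real.pi)) :=
    hl.eventually (gt_mem_nhds (by have : 0 < 1 / (2 * Real.pi) := by positivity
                                   linarith))
  have hlow : ∀ᶠ T : ℝ in atTop, 7 / 8 * (1 / (2 * Real.pi)) < NNf T / (T * Real.log T) :=
    hl.eventually (lt_mem_nhds (by have : 0 < 1 / (2 * Real.pi) := by positivity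
                                   linarith))
  have h2 : Tendsto (fun T : ℝ => 2 * T) atTop atTop := tendsto_id.const_mul_atTop two_pos
  filter_upwards [hup, h2.eventually hlow, eventually_ge_atTop 2] with T g1 g2 hT
  have hT0 : 0 < T := by linarith
  have hlog : 0 < Real.log T := Real.log_pos (by linarith)
  have hlog2 : Real.log T ≤ Real.log (2 * T) := Real.log_le_log hT0 (by linarith)
  rw [div_lt_iff₀ (by positivity)] at g1
  rw [lt_div_iff₀ (mul_pos (by positivity) (by linarith))] at g2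
  have hfin : ∀ s : Set ℝ, s ⊆ {γ : ℝ | |γ| ≤ 2 * T} → (s ∩ Function.support (mc χ)).Finite := fun s hs =>
    (Pool.Agent.Q195.CP.NT.fin_zeros χ (2 * T)).subset fun γ hγ => ⟨hs hγ.1, hγ.2⟩
  have e1 : ∑ᶠ γ ∈ Ioc 1 (2 * T), mc χ γ = (∑ᶠ γ ∈ Ioc 1 T, mc χ γ) + ∑ᶠ γ ∈ Ioc T (2 * T), mc χ γ := by
    rw [← Ioc_union_Ioc_eq_Ioc (show (1 : ℝ) ≤ T by linarith) (show T ≤ 2 * T by linarith)]
    refine finsum_mem_union' ?_ (hfin _ ?_) (hfin _ ?_)
    · rw [Set.disjoint_left]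
      intro γ h3 h4
      exact absurd h3.2 (not_le.2 h4.1)
    · intro γ hγ
      have a1 : (1 : ℝ) < γ := hγ.1
      have a2 : γ ≤ T := hγ.2
      show |γ| ≤ 2 * T
      rw [abs_le]
      constructor <;> linarith
    · intro γ hγ
      have a1 : T < γ := hγ.1
      have a2 : γ ≤ 2 * T := hγ.2
      show |γ| ≤ 2 * T
      rw [abs_le]
      constructor <;> linarith
  have e2 : ∑ᶠ γ ∈ Ioc T (2 * T), mc χ γ = ∑ γ ∈ FF χ T, mc χ γ := by
    refine finsum_mem_eq_sum_of_inter_support_eq _ ?_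
    ext γ
    rw [mem_inter_iff, mem_inter_iff, Finset.mem_coe, FF_mem χ hT0.le, Function.mem_support, mem_Ioc]
    tauto
  rw [Pool.Agent.Q195.CP.NT.sum_pos χ hχ, Pool.Agent.Q195.CP.NT.sum_pos χ hχ, e2] at e1
  have e3 : NNf (2 * T) = NNf T + ∑ γ ∈ FF χ T, (mc χ γ : ℝ) := by
    rw [hNN]
    simp only
    rw [e1]
    push_cast
    ring
  have h5 : 7 / 8 * (1 / (2 * Real.pi)) * (2 * T * Real.log T) ≤ 7 / 8 * (1 / (2 * Real.pi)) * (2 * T * Real.log (2 * T)) := by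
    gcongr
  have e4 : 1 / (4 * Real.pi) * (T * Real.log T) = 1 / 2 * (1 / (2 * Real.pi)) * (T * Real.log T) := by
    field_simp
    ring
  have h6 : 0 < 1 / (2 * Real.pi) * (T * Real.log T) := by positivity
  rw [e4]
  linarith

theorem q1_of (hPF : S_PF) {X : Finset (DirichletCharacter ℂ q)} (hX : X.Nonempty) (hG : ∀ χ ∈ X, GRHc χ)
    (hB : ∀ ε : ℝ, 0 < ε → ∀ᶠ U : ℝ in atTop, (Bm (mX X) U : ℝ) ≤ ε * Nm (mX X) U)
    {χ : DirichletCharacter ℂ q} (hχ : χ ∈ X) {ε : ℝ} (hε : 0 < ε) :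
    ∀ᶠ T : ℝ in atTop, (1 - ε) * (∑ᶠ ρ ∈ SS χ T, ((analyticOrderAt (LFunction χ) ρ).toNat : ℝ)) ≤ (SL χ T).ncard ∧
      ((SL χ T).ncard : ℝ) ≤ (SS χ T).ncard := by
  have hpi := Real.pi_pos
  have hD : (1 : ℝ) ≤ X.card := by exact_mod_cast hX.card_pos
  set D : ℝ := (X.card : ℝ) with hDd
  have hnt : Tendsto (fun U : ℝ => (Nm (mX X) U : ℝ) / (U * Real.log U)) atTop (𝓝 (D / Real.pi)) := by
    have h : ∀ χ ∈ X, Tendsto (fun U : ℝ => (Nm (mc χ) U : ℝ) / (U * Real.log U)) atTop (𝓝 (1 / Real.pi)) :=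
      fun χ hχ => (Pool.Agent.Q195.CP.NT.t_NT q χ (hG χ hχ)).2
    have h1 := tendsto_finsetSum X h
    have e : ∑ χ ∈ X, 1 / Real.pi = (X.card : ℝ) / Real.pi := by
      rw [Finset.sum_const, nsmul_eq_mul]; ring
    rw [e] at h1
    refine h1.congr fun U => ?_
    rw [Nm_mX X]
    push_cast
    rw [Finset.sum_div]
  have hup : ∀ᶠ U : ℝ in atTop, (Nm (mX X) U : ℝ) / (U * Real.log U) < 2 * (D / Real.pi) :=
    hnt.eventually (gt_mem_nhds (by have : 0 < D / Real.pi := by positivity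
                                    linarith))
  have h2 : Tendsto (fun T : ℝ => 2 * T) atTop atTop := tendsto_id.const_mul_atTop two_pos
  filter_upwards [h2.eventually hup, h2.eventually (hB (ε / (32 * D)) (by positivity)), FF_many (hG χ hχ),
    eventually_ge_atTop 2] with T g1 g2 g3 hT
  have hT0 : 0 < T := by linarith
  have hlog : 0 < Real.log T := Real.log_pos (by linarith)
  have hlog2 : Real.log (2 * T) ≤ 2 * Real.log T := by
    rw [Real.log_mul two_ne_zero hT0.ne']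
    have := Real.log_le_log two_pos hT
    linarith
  have hlog3 : 0 < Real.log (2 * T) := Real.log_pos (by linarith)
  rw [div_lt_iff₀ (by positivity)] at g1
  rw [SS_sum (hG χ hχ) hT0.le, SL_card χ hT0.le, SS_card (hG χ hχ) hT0.le]
  constructor
  · have h3 := sum_sub_card (mX_sm hPF X hG) hχ hT0.le
    set S := ∑ γ ∈ FF χ T, (mc χ γ : ℝ) with hS
    have h4 : (Nm (mX X) (2 * T) : ℝ) ≤ 32 * D * S := by
      have h5 : 2 * (D / Real.pi) * (2 * T * Real.log (2 * T)) ≤ 2 * (D / Real.pi) * (2 * T * (2 * Real.log T)) := by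
        gcongr
      have h6 : 32 * D * (1 / (4 * Real.pi) * (T * Real.log T)) ≤ 32 * D * S :=
        mul_le_mul_of_nonneg_left g3 (by positivity)
      have e1 : 32 * D * (1 / (4 * Real.pi) * (T * Real.log T)) = 2 * (D / Real.pi) * (2 * T * (2 * Real.log T)) := by
        field_simp
        ring
      linarith
    have h5 : ε / (32 * D) * (Nm (mX X) (2 * T) : ℝ) ≤ ε * S := by
      calc _ ≤ ε / (32 * D) * (32 * D * S) := mul_le_mul_of_nonneg_left h4 (by positivity)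
        _ = ε * S := by field_simp
    linarith
  · exact_mod_cast Finset.card_filter_le _ _

end Pool.Agent.Q253.CP
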