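import Pool.Agent.Q253.HV.Stm3
import Pool.Agent.Q253.LQ.Stm

set_option autoImplicit false

/-!
# Project CP: primes in one residue class, short intervals, and all zeros of all L-functions modulo `q`

Definitions and jobs.  `LL κ = log (1/κ)`, `κ → 0+`; `f` is one of the functions `fX X`, `ψ(e^t, χ)` summed over the
characters `χ` in a set `X` (minus `e^t` if `X` contains the trivial character), `m γ` the sum of the multiplicities of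
`1/2 + iγ` as a zero of `L(s, χ)`, `χ ∈ X`, and `D` is the number of elements of `X`.
-/

namespace Pool.Agent.Q253.CP

open MeasureTheory Filter Topology Set Complex
open Pool.Agent.Q253.HV Pool.Agent.Q253.LQ
open DirichletCharacter (LFunction)

noncomputable def LL (κ : ℝ) : ℝ := Real.log (1 / κ)

/-- `|(e^(κs) - 1)/s|²`, `s = σ + iy` -/
noncomputable def hh (κ σ y : ℝ) : ℝ := ‖(cexp ((κ : ℂ) * pt σ y) - 1) / pt σ y‖ ^ 2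

/-- `∑ m(γ) δ/(δ²+(y-γ)²)` -/
noncomputable def ZZ (m : ℝ → ℕ) (δ y : ℝ) : ℝ := ∑' γ : ℝ, (m γ : ℝ) * (δ / (δ ^ 2 + (y - γ) ^ 2))

/-- `∫_0^∞ |f(t+κ) - f(t)|² e^(-(1+2δ)t) dt` -/
noncomputable def Jt (f : ℝ → ℂ) (κ δ : ℝ) : ℝ :=
  ∫ t in Ioi (0 : ℝ), ‖f (t + κ) - f t‖ ^ 2 * Real.exp (-((1 + 2 * δ) * t))

/-- CP-KPL.  Plancherel with the kernel.  Proof.  `g = lap f`, `ℓ = ld f = -s g`, `h(s) = (e^(κs)-1)/s`; `f = 0` on `t < 0`.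
The transform of `f(t+κ) - f(t)` is `(e^(κs)-1) g(s)`, so Plancherel gives
`∫_{-κ}^∞ |f(t+κ)-f(t)|² e^(-2σt) dt = (1/2π) ∫ |ℓ|² |h|² dy`; the part `t < 0` is at most `κ B² e^(2κσ)`.  And
`|ℓ|² = 2 (Re ℓ)² - Re ℓ²`.  It remains to bound `(1/2π) ∫ ℓ² |h|² dy`.  With `s̄ = 2σ - s`:
`ℓ² |h|² = g² (e^(κs)-1) (-(e^(κs̄)-1) + 2σ h(s̄))` as `s/s̄ = -1 + 2σ/s̄`; `(e^(κs)-1)(e^(κs̄)-1) = e^(2κσ) + 1 - e^(κs) - e^(2κσ) e^(-κs)`,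
`h(s̄) = ∫_0^κ e^(vs̄) dv`.  With `F = f*f` (convolution on `t > 0`), `(1/2π) ∫ g² e^(ts) dy = F(t)`, which is `0` for
`t ≤ 0`, and `|F(t)| ≤ B² t` for `0 ≤ t ≤ 1`.  So the integral is `F(κ) + 2σ ∫_0^κ e^(v(2σ)) F(κ-v) dv`-like, at most
`20 B² κ`.  Tools: `pars`, `pars2` (product of two transforms with a translation), `lap_pt`, `uu` in
`Pool/Agent/Q237/HV/PLB.lean`, and the proof of `S_PL` in `Pool/Agent/Q237/HV/PL.lean`. -/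
def S_KPL : Prop := ∃ C : ℝ, 0 < C ∧ ∀ (f : ℝ → ℂ) (B κ σ : ℝ), Adm f → 0 ≤ B → (∀ t, 0 < t → t ≤ 1 → ‖f t‖ ≤ B) →
  0 < κ → κ ≤ 1 → 1 / 2 < σ → σ ≤ 1 →
  IntegrableOn (fun t => ‖f (t + κ) - f t‖ ^ 2 * Real.exp (-(2 * σ * t))) (Ioi 0) ∧
  Integrable (fun y => (ld f (pt σ y)).re ^ 2 * hh κ σ y) ∧
  |(∫ t in Ioi (0 : ℝ), ‖f (t + κ) - f t‖ ^ 2 * Real.exp (-(2 * σ * t))) -
    (1 / Real.pi) * ∫ y : ℝ, (ld f (pt σ y)).re ^ 2 * hh κ σ y| ≤ C * B ^ 2 * κ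

/-- CP-KPO.  Proof.  `H(y) = |h(σ+iy)|²` is the Fourier transform of the autocorrelation `A` of `e^(-σt)` on `[-κ, 0]`:
`A` is supported in `[-κ, κ]`, Lipschitz with a constant at most `10`, `|A| ≤ 10 κ`.  As `ℓ(τ+iy) = -(τ+iy) g(τ+iy)`,
`∫ ℓ(τ+iy) H(y) dy` is `-2π ∫_0^κ f(t) e^(-τt) (τ A(t) ∓ A'(t)) dt`: at most `C B κ`. -/
def S_KPO : Prop := ∃ C : ℝ, 0 < C ∧ ∀ (f : ℝ → ℂ) (B κ σ τ : ℝ), Adm f → 0 ≤ B → (∀ t, 0 < t → t ≤ 1 → ‖f t‖ ≤ B) →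
  0 < κ → κ ≤ 1 → 1 / 2 ≤ σ → σ ≤ 1 → 1 / 2 < τ → τ ≤ 1 →
  Integrable (fun y => (ld f (pt τ y)).re * hh κ σ y) ∧
  |∫ y : ℝ, (ld f (pt τ y)).re * hh κ σ y| ≤ C * B * κ

/-- CP-WT.  The weight: `|e^(κs)-1|² = (e^(κσ)-1)² + 4 e^(κσ) sin²(κy/2)`, `|s|² = σ²+y²`.  (1) total mass
(`∫ hh = 2π ∫_{-κ}^0 e^(-2σt) dt`, Plancherel or residues; or by scaling and `∫ sinc² = π`, up to `O(κ²)`), (2), (3)
logarithmic moments: `log(2+|y|) = log(1/κ) + log(2κ + κ|y|)` and `∫ hh |log(2κ+κ|y|)| dy = O(κ)` by scaling, (4) lower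
bound, (5) upper bounds. -/
def S_WT : Prop := ∃ C : ℝ, 0 < C ∧ ∀ κ σ : ℝ, 0 < κ → κ ≤ 1 / 4 → 1 / 2 ≤ σ → σ ≤ 1 →
  (Continuous (hh κ σ) ∧ Integrable (hh κ σ) ∧ |(∫ y, hh κ σ y) - 2 * Real.pi * κ| ≤ C * κ ^ 2) ∧
  (Integrable (fun y => Real.log (2 + |y|) * hh κ σ y) ∧
    |(∫ y, Real.log (2 + |y|) * hh κ σ y) - 2 * Real.pi * κ * LL κ| ≤ C * κ) ∧
  (Integrable (fun y => Real.log (2 + |y|) ^ 2 * hh κ σ y) ∧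
    ∫ y, Real.log (2 + |y|) ^ 2 * hh κ σ y ≤ C * κ * LL κ ^ 2) ∧
  (∀ y, κ ^ 2 * Real.sinc (κ * y / 2) ^ 2 ≤ hh κ σ y) ∧
  (∀ y, hh κ σ y ≤ C / ((1 / κ) ^ 2 + y ^ 2)) ∧
  ∀ σ' y, 1 / 2 ≤ σ' → σ' ≤ σ → hh κ σ' y ≤ 4 * hh κ σ y

/-- the function of a set of characters -/
noncomputable def fX {q : ℕ} [NeZero q] (X : Finset (DirichletCharacter ℂ q)) (t : ℝ) : ℂ :=
  (∑ χ ∈ X, psiC χ (Real.exp t)) -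
    (open Classical in if (1 : DirichletCharacter ℂ q) ∈ X then ((Real.exp t : ℝ) : ℂ) else 0)

/-- total multiplicity -/
noncomputable def mX {q : ℕ} [NeZero q] (X : Finset (DirichletCharacter ℂ q)) (γ : ℝ) : ℕ := ∑ χ ∈ X, mc χ γ

/-- number of zeros `|γ| ≤ U`, with multiplicity -/
noncomputable def Nm (m : ℝ → ℕ) (U : ℝ) : ℕ := ∑ᶠ γ ∈ {γ : ℝ | |γ| ≤ U}, m γ

/-- number of pairs of zeros (diagonal included) at distance at most `β` times the mean spacing -/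
noncomputable def Pm (m : ℝ → ℕ) (U β : ℝ) : ℕ :=
  ∑ᶠ p ∈ {p : ℝ × ℝ | |p.1| ≤ U ∧ |p.2| ≤ U ∧ |p.1 - p.2| * Real.log U / (2 * Real.pi) ≤ β}, m p.1 * m p.2

/-- what the analysis uses -/
structure Sys (f : ℝ → ℂ) (m : ℝ → ℕ) (D : ℝ) : Prop where
  D1 : 1 ≤ D
  meas : Measurable f
  adm : Adm f
  bdd : ∃ B : ℝ, 0 ≤ B ∧ ∀ t, 0 < t → t ≤ 2 → ‖f t‖ ≤ B
  sm : Summable (fun γ : ℝ => (m γ : ℝ) / (1 + γ ^ 2))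
  rl : ∃ C : ℝ, ∀ δ y : ℝ, 0 < δ → δ ≤ 1 / 4 →
    |(ld f (pt (1 / 2 + δ) y)).re - (ZZ m δ y - D / 2 * Real.log (2 + |y|))| ≤ C
  nr : ∃ C : ℝ, ∀ κ : ℝ, 0 < κ → κ ≤ 1 / 4 →
    ∫ t in (0 : ℝ)..(LL κ), ‖f (t + κ) - f t‖ ^ 2 * Real.exp (-t) ≤ C * κ * LL κ ^ 2
  nt : Tendsto (fun U : ℝ => (Nm m U : ℝ) / (U * Real.log U)) atTop (𝓝 (D / Real.pi))

/-- CP-GR.  Square integrability implies GRH for every character in `X`: for `Re s > 1` one has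
`ld (fX X) s = ∑ L'/L(s, χ)` (`+ s/(s-1)` if the trivial character is in `X`); the left side is analytic for
`Re s > 1/2`, and the right side has poles with positive residues at the zeros of the `L(s, χ)`, no cancellation
(adapt `Pool/Agent/Q162/HV/GR.lean` and `Pool/Agent/Q213/GM/Lap.lean`). -/
def S_GR : Prop := ∀ (q : ℕ) [NeZero q] (X : Finset (DirichletCharacter ℂ q)), Adm (fX X) →
  (∀ χ ∈ X, GRHc χ) ∧ ∀ s : ℂ, 1 / 2 < s.re → s ≠ 1 → ld (fX X) s = (∑ χ ∈ X, logDeriv (LFunction χ) s) +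
    (open Classical in if (1 : DirichletCharacter ℂ q) ∈ X then s / (s - 1) else 0)

/-- CP-BG.  The converse: sum of the mean square bounds for the single characters (`Pool/Agent/Q98/HV/BG.lean`
for `χ ≠ 1`, and for the trivial character `Pool.Agent.Q296.GM.L2_of_rh` and the change of level, see
`Pool/Agent/Q24/HV/PR.lean`). -/
def S_BG : Prop := ∀ (q : ℕ) [NeZero q] (X : Finset (DirichletCharacter ℂ q)), (∀ χ ∈ X, GRHc χ) → Adm (fX X)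

/-- CP-RL.  The logarithmic derivative near the line: from `S_PF` (first formula) and
`logDeriv (XL χ) = (1/2) log N + logDeriv Gammaℝ (s + a) + L'/L(s, χ*)` (`logDeriv_X` in `Pool/Agent/Q119/HV/Zdb.lean`; for
`χ = 1` also `1/s + 1/(s-1)`), `|Re logDeriv Gammaℝ (s) - (1/2) log (2 + |Im s|)| ≤ C` for `1/2 ≤ Re s ≤ 5/2`, the
Euler factors at `p | q` bounded (`Pool/Agent/Q119/HV/Zd.lean`). -/
def S_RL : Prop := ∀ (q : ℕ) [NeZero q] (χ : DirichletCharacter ℂ q), GRHc χ → ∃ C : ℝ, ∀ δ y : ℝ, 0 < δ → δ ≤ 1 / 4 →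
  |(logDeriv (LFunction χ) (pt (1 / 2 + δ) y)).re - (ZZ (mc χ) δ y - 1 / 2 * Real.log (2 + |y|))| ≤ C

/-- CP-NR.  The near range, trivially: for `t ≤ LL κ + 1` the interval `(e^t, e^(t+κ)]` contains at most `10`
integers, `|f(t+κ) - f(t)|² ≤ 20 q² ∑ Λ(n)² + 2 (e^(t+κ) - e^t)²`, and
`∑_n Λ(n)² ∫_{log n - κ}^{log n} e^(-t) dt ≤ C κ log² `. -/
def S_NR : Prop := ∀ (q : ℕ) [NeZero q] (X : Finset (DirichletCharacter ℂ q)), ∃ C : ℝ, ∀ κ : ℝ, 0 < κ → κ ≤ 1 / 4 →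
  ∫ t in (0 : ℝ)..(LL κ), ‖fX X (t + κ) - fX X t‖ ^ 2 * Real.exp (-t) ≤ C * κ * LL κ ^ 2

/-- CP-NT.  The Riemann - von Mangoldt formula, leading term, for each character (in the library for primitive
characters, for instance in the modules of the starting files `MP_1e057a_nt.BeyondMTUniform`,
`MP_f259ea_nt.DistinctAlmostAllShort`; negative ordinates through the conjugate character). -/
def S_NT : Prop := ∀ (q : ℕ) [NeZero q] (χ : DirichletCharacter ℂ q), GRHc χ →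
  (∀ U : ℝ, {γ : ℝ | |γ| ≤ U ∧ mc χ γ ≠ 0}.Finite) ∧
  Tendsto (fun U : ℝ => (Nm (mc χ) U : ℝ) / (U * Real.log U)) atTop (𝓝 (1 / Real.pi))

/-- CP-TE.  Telescoping: mean squares of the increments give square integrability.  The file
`Pool/Agent/Q213/GM/Upper.lean` with `ph` replaced by the real and imaginary parts of `f`. -/
def S_TE : Prop := ∀ f : ℝ → ℂ, Measurable f → (∃ C : ℝ, ∀ t, ‖f t‖ ≤ C * Real.exp t) →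
  (∀ b : ℝ, 1 < b → ∃ C : ℝ, ∀ᶠ κ : ℝ in 𝓝[>] 0,
    ∫ u in (LL κ)..(b * LL κ), ‖f (u + κ) - f u‖ ^ 2 * Real.exp (-u) ≤ C * (κ * LL κ ^ 2)) → Adm f

/-- CP-AB.  Abel summation for families (compare `SS_av` in `Pool/Agent/Q260/GM/Xc.lean`).  `L = LL κ`.  Proof: let
`W(x) = ∫_0^{xL} G κ`; `∫_0^∞ G e^(-2au/L) du = 2a ∫_0^∞ W(x) e^(-2ax) dx`, and for a large `B` the part `x > B` is at
most `e^(-aB) ∫ G e^(-au/L) ≤ e^(-aB) (C'/(a/2)) κL²`; on `[b₀, B]` use the bound at the finitely many points of a grid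
of mesh `μ` and monotonicity, `W(x) ≤ (C + (M+ε)(x+μ)) κL²`; on `[0, b₀]` use `W(x) ≤ W(b₀)`. -/
def S_AB : Prop := ∀ (G : ℝ → ℝ → ℝ) (M C C' : ℝ), (∀ κ u, 0 ≤ G κ u) → (∀ κ, Measurable (G κ)) → 0 ≤ M →
  (∀ a : ℝ, 0 < a → ∀ᶠ κ : ℝ in 𝓝[>] 0, IntegrableOn (fun u => G κ u * Real.exp (-(2 * a * u / LL κ))) (Ioi 0)) →
  (∀ᶠ κ : ℝ in 𝓝[>] 0, ∫ u in (0 : ℝ)..(LL κ), G κ u ≤ C * (κ * LL κ ^ 2)) →
  (∀ ε : ℝ, 0 < ε → ∃ b0 : ℝ, ∀ b : ℝ, b0 ≤ b → ∀ᶠ κ : ℝ in 𝓝[>] 0,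
    ∫ u in (LL κ)..(b * LL κ), G κ u ≤ (M + ε) * b * (κ * LL κ ^ 2)) →
  (∀ a : ℝ, 0 < a → a ≤ 1 → ∀ᶠ κ : ℝ in 𝓝[>] 0,
    ∫ u in Ioi (0 : ℝ), G κ u * Real.exp (-(2 * a * u / LL κ)) ≤ C' / a * (κ * LL κ ^ 2)) →
  ∀ ε : ℝ, 0 < ε → ∃ a0 : ℝ, 0 < a0 ∧ ∀ a : ℝ, 0 < a → a ≤ a0 → ∀ᶠ κ : ℝ in 𝓝[>] 0,
    2 * a * (∫ u in Ioi (0 : ℝ), G κ u * Real.exp (-(2 * a * u / LL κ))) ≤ (M + ε) * (κ * LL κ ^ 2)

/-- CP-KA.  Karamata for families (compare `av_asymp` in `Pool/Agent/Q260/GM/Xh.lean`, with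
`Pool/Agent/Q128/GM/Karamata.lean`).  Direct proof: with `x = e^(-2a₀u/L)`, `b = 1/(2a₀)`, the indicator of `u ≤ bL` is
`x g(x)`, `g(x) = 1/x` on `[1/e, 1]`, `0` below; choose polynomials `p₁ ≤ g ≤ p₂` on `[0, 1]` with
`∫_0^1 (p₂ - p₁) ≤ ε` (Weierstrass after making `g` continuous from above and from below); `x p(x)` is a combination of
`e^(-2(j+1)a₀u/L)`, `j ≤ deg p`, and the hypothesis for `a = (j+1)a₀ ≤ a₁` gives `(D/(2a₀)) ∫_0^1 p` up to `ε`. -/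
def S_KA : Prop := ∀ (G : ℝ → ℝ → ℝ) (D : ℝ), (∀ κ u, 0 ≤ G κ u) → (∀ κ, Measurable (G κ)) → 0 ≤ D →
  (∀ a : ℝ, 0 < a → ∀ᶠ κ : ℝ in 𝓝[>] 0, IntegrableOn (fun u => G κ u * Real.exp (-(2 * a * u / LL κ))) (Ioi 0)) →
  (∀ ε : ℝ, 0 < ε → ∃ a0 : ℝ, 0 < a0 ∧ ∀ a : ℝ, 0 < a → a ≤ a0 → ∀ᶠ κ : ℝ in 𝓝[>] 0,
    |2 * a * (∫ u in Ioi (0 : ℝ), G κ u * Real.exp (-(2 * a * u / LL κ))) - D * (κ * LL κ ^ 2)| ≤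
      ε * (κ * LL κ ^ 2)) →
  ∀ ε : ℝ, 0 < ε → ∃ b0 : ℝ, 1 ≤ b0 ∧ ∀ b : ℝ, b0 ≤ b → ∀ᶠ κ : ℝ in 𝓝[>] 0,
    |(∫ u in (0 : ℝ)..(b * LL κ), G κ u) - D * b * (κ * LL κ ^ 2)| ≤ ε * b * (κ * LL κ ^ 2)

/-- `(T / log² T) ∫_T^{T^b} |F(x + x/T) - F(x)|² dx/x²`, `F(x) = f(log x)` -/
noncomputable def VT (f : ℝ → ℂ) (T b : ℝ) : ℝ := T / Real.log T ^ 2 *
  ∫ x in T..(T ^ b), ‖f (Real.log (x + x / T)) - f (Real.log x)‖ ^ 2 / x ^ 2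

/-- CP-KT.  Change of the parameter, `κ = log(1 + 1/T)`, `x = e^u`, `log T ≤ LL κ ≤ log (T+1)`: adapt `k_of_T`,
`T_of_k_up`, `T_of_k_low`, `norm_lim` in `Pool/Agent/Q260/GM/Xi.lean`. -/
def S_KT : Prop := ∀ f : ℝ → ℂ, Measurable f → (∃ C : ℝ, ∀ t, ‖f t‖ ≤ C * Real.exp t) →
  ∀ b M δ : ℝ, 1 ≤ b → 0 ≤ M → 0 < δ →
  ((∀ᶠ T : ℝ in atTop, VT f T (b + 1) ≤ M) → ∀ᶠ κ : ℝ in 𝓝[>] 0,
    ∫ u in (LL κ)..(b * LL κ), ‖f (u + κ) - f u‖ ^ 2 * Real.exp (-u) ≤ (1 + δ) * M * (κ * LL κ ^ 2)) ∧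
  ((∀ᶠ κ : ℝ in 𝓝[>] 0, ∫ u in (0 : ℝ)..(b * LL κ), ‖f (u + κ) - f u‖ ^ 2 * Real.exp (-u) ≤ M * (κ * LL κ ^ 2)) →
    ∀ᶠ T : ℝ in atTop, VT f T b ≤ (1 + δ) * M) ∧
  ((∀ᶠ κ : ℝ in 𝓝[>] 0, M * (κ * LL κ ^ 2) ≤ ∫ u in (LL κ)..(b * LL κ), ‖f (u + κ) - f u‖ ^ 2 * Real.exp (-u)) →
    ∀ᶠ T : ℝ in atTop, (1 - δ) * M ≤ VT f T (b + 1))

/-- CP-TB.  The upper bound.  `L = LL κ`.  (i) `δ₁ = K/L`: the range `t ≤ L` is `nr`; the range `t > L` is at most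
`e^(-K) Jt f κ (δ₁/2)`, and `Jt f κ (δ₁/2) ≤ C (Jt f κ δ₁ + κL²)` with an absolute `C` (depending on the system only) by
`KPL` at both, `ZZ(δ/2) ≤ 2 ZZ(δ)`, `(Re ld)² ≤ 2 ZZ² + C (1+log²)` and conversely, `hh κ σ' ≤ 4 hh κ σ`, `WT`.  With
`C e^(-K) ≤ 1/2` : `Jt f κ δ₁ ≤ C₁ κL²`; for `δ ≥ δ₁` by monotonicity in `δ`.  (ii) `δ < δ₁`: `KPL`, and
`∫ ZZ(δ)² M ≤ 432·4 (δ₁/δ) ∫ ZZ(δ₁)² M`, `M(y) = 1/(κ⁻²+y²)`, as in `Pool/Agent/Q253/HV/ZW.lean` (cells of length `δ₁`;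
`ZZ` satisfies `Zfun2` termwise), and `M ≤ C ∑_k hh κ_k σ`, `κ_k = 2^(-k) κ` (for `2^(k-1) ≤ κ|y| ≤ 2^k` use the lower
bound with sinc in `WT`), so `∫ ZZ(δ₁)² M ≤ C ∑_k (Jt f κ_k δ₁ + κ_k LL(κ_k)²) ≤ C κL²` by (i) for `κ_k`
(`δ₁ ≥ K/LL(κ_k)`). -/
def S_TB : Prop := ∀ (f : ℝ → ℂ) (m : ℝ → ℕ) (D : ℝ), Sys f m D → ∃ C κ0 : ℝ, 0 < C ∧ 0 < κ0 ∧ κ0 ≤ 1 / 4 ∧
  ∀ κ δ : ℝ, 0 < κ → κ ≤ κ0 → 0 < δ → δ ≤ 1 / 4 → Jt f κ δ ≤ C * κ * LL κ * (LL κ + 1 / δ)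

/-- CP-LB.  The lower bound (helper253). -/
def S_LB : Prop := ∀ (f : ℝ → ℂ) (m : ℝ → ℕ) (D : ℝ), Sys f m D → ∀ ε : ℝ, 0 < ε → ∃ a0 : ℝ, 0 < a0 ∧ ∀ a : ℝ, 0 < a → a ≤ a0 →
  ∃ β : ℝ, 0 < β ∧ ∀ᶠ κ : ℝ in 𝓝[>] 0,
    (1 - ε) * (D * (κ * LL κ ^ 2) + κ ^ 2 * LL κ * Real.sin 1 ^ 2 * ((Pm m (2 / κ) β : ℝ) - Nm m (2 / κ))) ≤
      2 * a * Jt f κ (a / LL κ)

/-- CP-CV.  The converse for few close pairs.  `L = LL κ`, `δ = a/L`, `Y` large, `|y| ≤ Y/κ`.  `S` = all zeros with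
`|γ| ≤ 2Y/κ`; `ZZ = Z_S + R`, `R(δ, y) ≤ 2δ R(1, y) ≤ C δ L` on `|y| ≤ Y/κ` (termwise, as `|y-γ| ≥ 1`).  Pairs of `S` closer
than `β` mean spacings: `P P' ≤ (P² + P'²)/2`, `∫ P² W ≤ (π/2δ) W~(γ)`; with `n(γ)` = number of zeros of `S` close to `γ`:
`(2δ/π) ∑_close ≤ ∑ m(γ) n(γ) W~(γ) ≤ ∑ m(γ) W~(γ) + C κ² (Pm - Nm)(2Y/κ) ≤ D κL (1+o(1)) + C κ² ε' Y L/κ`
(the first sum from `KPO` and `WT`, or from `nt`).  Other pairs: one of `|y-γ|, |y-γ'|` is at least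
`δ₁ := πβ/(2L)`, so `P_δ(y-γ) P_δ(y-γ') ≤ (2δ/δ₁) (P_δ(y-γ) P_{δ₁}(y-γ') + P_{δ₁}(y-γ) P_δ(y-γ'))`, total at most
`(4δ/δ₁) ZZ(δ) ZZ(δ₁)`, and by Cauchy-Schwarz and `TB` the integral is `O((δ/δ₁)^(3/2))` relative to the main term.
The range `|y| > Y/κ`: `hh ≤ C ∑_k hh κ_k`, `κ_k = 2^(-k) κ/Y`, and `TB` for `κ_k`: `O(1/Y)` relative to the main term.
Finally `KPL` and `(Re ld)² ≤ (1+ε) ZZ² + C_ε (1+log²)`, the last term is `O(a)` relative to the main term. -/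
def S_CV : Prop := ∀ (f : ℝ → ℂ) (m : ℝ → ℕ) (D : ℝ), Sys f m D →
  (∀ ε : ℝ, 0 < ε → ∃ β : ℝ, 0 < β ∧ ∀ᶠ U : ℝ in atTop, (Pm m U β : ℝ) ≤ (1 + ε) * Nm m U) →
  ∀ ε : ℝ, 0 < ε → ∃ a0 : ℝ, 0 < a0 ∧ ∀ a : ℝ, 0 < a → a ≤ a0 → ∀ᶠ κ : ℝ in 𝓝[>] 0,
    2 * a * Jt f κ (a / LL κ) ≤ (1 + ε) * (D * (κ * LL κ ^ 2))

end Pool.Agent.Q253.CP
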