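import Pool.Agent.Q253.CP.Stm

set_option autoImplicit false

/-! # Project CP: the zero sum, termwise inequalities -/

namespace Pool.Agent.Q253.CP

open MeasureTheory Filter Topology Set Complex
open Pool.Agent.Q253.HV Pool.Agent.Q253.LQ

/-- Poisson kernel -/
noncomputable def PP (δ v : ℝ) : ℝ := δ / (δ ^ 2 + v ^ 2)

lemma PP_nonneg {δ : ℝ} (hδ : 0 < δ) (v : ℝ) : 0 ≤ PP δ v := by unfold PP; positivity

lemma PP_pos {δ : ℝ} (hδ : 0 < δ) (v : ℝ) : 0 < PP δ v := by unfold PP; positivity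

/-- the finite difference -/
noncomputable def fdP (δ h v : ℝ) : ℝ := (PP δ v / δ - PP ((1 + h) * δ) v / ((1 + h) * δ)) / (2 * h + h ^ 2)

lemma fdP_eq {δ h : ℝ} (hδ : 0 < δ) (hh : 0 < h) (v : ℝ) :
    fdP δ h v = δ ^ 2 / ((δ ^ 2 + v ^ 2) * (((1 + h) * δ) ^ 2 + v ^ 2)) := by
  unfold fdP PP
  have h1 : (0 : ℝ) < δ ^ 2 + v ^ 2 := by positivity
  have h2 : (0 : ℝ) < ((1 + h) * δ) ^ 2 + v ^ 2 := by positivity
  have h3 : (0 : ℝ) < 1 + h := by positivity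
  have h4 : (0 : ℝ) < 2 * h + h ^ 2 := by positivity
  rw [div_div, div_div, mul_comm (δ ^ 2 + v ^ 2) δ, mul_comm (((1 + h) * δ) ^ 2 + v ^ 2) ((1 + h) * δ),
    ← div_div, ← div_div, div_self hδ.ne', div_self (mul_pos h3 hδ).ne',
    div_sub_div _ _ h1.ne' h2.ne', div_div, div_eq_div_iff (by positivity) (by positivity)]
  ring

lemma fdP_nonneg {δ h : ℝ} (hδ : 0 < δ) (hh : 0 < h) (v : ℝ) : 0 ≤ fdP δ h v := by
  rw [fdP_eq hδ hh]; positivity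

lemma fdP_le {δ h : ℝ} (hδ : 0 < δ) (hh : 0 < h) (v : ℝ) : fdP δ h v ≤ PP δ v ^ 2 := by
  rw [fdP_eq hδ hh]
  unfold PP
  have h1 : (0 : ℝ) < δ ^ 2 + v ^ 2 := by positivity
  rw [div_pow, div_le_div_iff₀ (by positivity) (by positivity)]
  have h2 : δ ^ 2 + v ^ 2 ≤ ((1 + h) * δ) ^ 2 + v ^ 2 := by nlinarith [mul_pos hh hδ, mul_pos hδ hδ]
  have h3 : (δ ^ 2 + v ^ 2) ^ 2 ≤ (δ ^ 2 + v ^ 2) * (((1 + h) * δ) ^ 2 + v ^ 2) := by nlinarith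
  exact mul_le_mul_of_nonneg_left h3 (by positivity)

/-- close points have comparable kernels -/
lemma PP_close {δ e v w : ℝ} (hδ : 0 < δ) (he : 0 ≤ e) (he1 : e ≤ 1) (h : |w - v| ≤ e * δ) :
    (1 - 2 * e) * PP δ v ≤ PP δ w := by
  unfold PP
  have h1 : (0 : ℝ) < δ ^ 2 + v ^ 2 := by positivity
  have h2 : (0 : ℝ) < δ ^ 2 + w ^ 2 := by positivity
  have h3 : δ ^ 2 + w ^ 2 ≤ (1 + 2 * e) * (δ ^ 2 + v ^ 2) := by
    have hw : w ^ 2 ≤ v ^ 2 + 2 * |v| * (e * δ) + (e * δ) ^ 2 := by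
      have e1 : w ^ 2 = v ^ 2 + 2 * v * (w - v) + (w - v) ^ 2 := by ring
      have e2 : 2 * v * (w - v) ≤ 2 * |v| * (e * δ) := by
        calc 2 * v * (w - v) ≤ |2 * v * (w - v)| := le_abs_self _
          _ = 2 * |v| * |w - v| := by rw [abs_mul, abs_mul]; norm_num
          _ ≤ _ := by gcongr
      have e3 : (w - v) ^ 2 ≤ (e * δ) ^ 2 := by
        rw [← sq_abs (w - v)]
        exact pow_le_pow_left₀ (abs_nonneg _) h 2
      linarith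
    have e4 : 2 * |v| * (e * δ) ≤ e * (v ^ 2 + δ ^ 2) := by
      have : 0 ≤ (|v| - δ) ^ 2 := sq_nonneg _
      have e5 : 2 * |v| * δ ≤ v ^ 2 + δ ^ 2 := by nlinarith [sq_abs v]
      nlinarith
    have e6 : (e * δ) ^ 2 ≤ e * δ ^ 2 := by
      have : e ^ 2 ≤ e := by nlinarith
      nlinarith [sq_nonneg δ]
    nlinarith [sq_nonneg v]
  have h4 : (1 - 2 * e) * (δ / (δ ^ 2 + v ^ 2)) = (1 - 2 * e) * δ / (δ ^ 2 + v ^ 2) := by ring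
  rw [h4, div_le_div_iff₀ h1 h2]
  rcases le_total (1 - 2 * e) 0 with h5 | h5
  · have : (1 - 2 * e) * δ * (δ ^ 2 + w ^ 2) ≤ 0 :=
      mul_nonpos_of_nonpos_of_nonneg (mul_nonpos_of_nonpos_of_nonneg h5 hδ.le) h2.le
    have : 0 ≤ δ * (δ ^ 2 + v ^ 2) := by positivity
    linarith
  · calc (1 - 2 * e) * δ * (δ ^ 2 + w ^ 2) ≤ (1 - 2 * e) * δ * ((1 + 2 * e) * (δ ^ 2 + v ^ 2)) := by gcongr
      _ = (1 - 4 * e ^ 2) * (δ * (δ ^ 2 + v ^ 2)) := by ring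
      _ ≤ 1 * (δ * (δ ^ 2 + v ^ 2)) := by
        apply mul_le_mul_of_nonneg_right _ (by positivity)
        nlinarith [sq_nonneg e]
      _ = _ := one_mul _

variable {m : ℝ → ℕ}

lemma PP_le {δ : ℝ} (hδ : 0 < δ) (y γ : ℝ) :
    PP δ (y - γ) ≤ (δ + (1 + 2 * y ^ 2) / δ) * 2 * (1 / (1 + γ ^ 2)) := by
  unfold PP
  have h1 : (0 : ℝ) < δ ^ 2 + (y - γ) ^ 2 := by positivity
  have h2 : (0 : ℝ) < 1 + γ ^ 2 := by positivity
  rw [mul_one_div, div_le_div_iff₀ h1 h2]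
  have h3 : 1 + γ ^ 2 ≤ 1 + 2 * y ^ 2 + 2 * (y - γ) ^ 2 := by nlinarith [sq_nonneg (γ - 2 * y)]
  have e : (δ + (1 + 2 * y ^ 2) / δ) * 2 * (δ ^ 2 + (y - γ) ^ 2) =
      2 * δ * (y - γ) ^ 2 + 2 * δ ^ 3 + 2 * (1 + 2 * y ^ 2) * δ + 2 * (1 + 2 * y ^ 2) / δ * (y - γ) ^ 2 := by
    field_simp
    ring
  rw [e]
  have h4 : δ * (1 + γ ^ 2) ≤ δ * (1 + 2 * y ^ 2 + 2 * (y - γ) ^ 2) := mul_le_mul_of_nonneg_left h3 hδ.le
  have h5 : 0 ≤ 2 * (1 + 2 * y ^ 2) / δ * (y - γ) ^ 2 := by positivity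
  have h6 : 0 ≤ δ * y ^ 2 := by positivity
  nlinarith [pow_pos hδ 3]

lemma sumP (hm : Summable (fun γ : ℝ => (m γ : ℝ) / (1 + γ ^ 2))) {δ : ℝ} (hδ : 0 < δ) (y : ℝ) :
    Summable (fun γ : ℝ => (m γ : ℝ) * PP δ (y - γ)) := by
  refine Summable.of_nonneg_of_le (fun γ => mul_nonneg (Nat.cast_nonneg _) (PP_nonneg hδ _)) (fun γ => ?_)
    (hm.mul_left ((δ + (1 + 2 * y ^ 2) / δ) * 2))
  calc (m γ : ℝ) * PP δ (y - γ) ≤ (m γ : ℝ) * ((δ + (1 + 2 * y ^ 2) / δ) * 2 * (1 / (1 + γ ^ 2))) :=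
        mul_le_mul_of_nonneg_left (PP_le hδ y γ) (Nat.cast_nonneg _)
    _ = _ := by ring

lemma ZZ_eq (m : ℝ → ℕ) (δ y : ℝ) : ZZ m δ y = ∑' γ : ℝ, (m γ : ℝ) * PP δ (y - γ) := rfl

lemma ZZ_nonneg (m : ℝ → ℕ) {δ : ℝ} (hδ : 0 < δ) (y : ℝ) : 0 ≤ ZZ m δ y := by
  rw [ZZ_eq]
  exact tsum_nonneg fun γ => mul_nonneg (Nat.cast_nonneg _) (PP_nonneg hδ _)

/-- the finite difference of the zero sum -/
noncomputable def fdZ (m : ℝ → ℕ) (δ h y : ℝ) : ℝ := (ZZ m δ y / δ - ZZ m ((1 + h) * δ) y / ((1 + h) * δ)) / (2 * h + h ^ 2)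

lemma fdZ_eq (hm : Summable (fun γ : ℝ => (m γ : ℝ) / (1 + γ ^ 2))) {δ h : ℝ} (hδ : 0 < δ) (hh : 0 < h) (y : ℝ) :
    Summable (fun γ : ℝ => (m γ : ℝ) * fdP δ h (y - γ)) ∧ fdZ m δ h y = ∑' γ : ℝ, (m γ : ℝ) * fdP δ h (y - γ) := by
  have h1 := sumP hm hδ y
  have h2 := sumP hm (δ := (1 + h) * δ) (by positivity) y
  have e : (fun γ : ℝ => (m γ : ℝ) * fdP δ h (y - γ)) = fun γ : ℝ =>
      (2 * h + h ^ 2)⁻¹ * (δ⁻¹ * ((m γ : ℝ) * PP δ (y - γ)) - ((1 + h) * δ)⁻¹ * ((m γ : ℝ) * PP ((1 + h) * δ) (y - γ))) := by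
    funext γ
    unfold fdP
    ring
  have h3 := ((h1.mul_left δ⁻¹).sub (h2.mul_left ((1 + h) * δ)⁻¹)).mul_left (2 * h + h ^ 2)⁻¹
  refine ⟨by rw [e]; exact h3, ?_⟩
  rw [e, tsum_mul_left, (h1.mul_left _).tsum_sub (h2.mul_left _), tsum_mul_left, tsum_mul_left]
  unfold fdZ
  rw [ZZ_eq, ZZ_eq]
  ring

/-- **the excess inequality** -/
theorem excess (hm : Summable (fun γ : ℝ => (m γ : ℝ) / (1 + γ ^ 2))) (S : Finset ℝ) (n : ℝ → ℝ) {δ h e : ℝ}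
    (hδ : 0 < δ) (hh : 0 < h) (he : 0 ≤ e) (he1 : e ≤ 1 / 4) (y : ℝ)
    (hn : ∀ γ ∈ S, n γ = ∑ γ' ∈ S.filter (fun γ' => |γ - γ'| ≤ e * δ), (m γ' : ℝ)) :
    fdZ m δ h y + ∑ γ ∈ S, (m γ : ℝ) * (n γ - 1) * PP δ (y - γ) ^ 2 ≤ (1 + 4 * e) * ZZ m δ y ^ 2 := by
  classical
  set a : ℝ → ℝ := fun γ => (m γ : ℝ) * PP δ (y - γ) with ha
  have ha0 : ∀ γ, 0 ≤ a γ := fun γ => mul_nonneg (Nat.cast_nonneg _) (PP_nonneg hδ _)
  have hs : Summable a := sumP hm hδ y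
  obtain ⟨hf, hfe⟩ := fdZ_eq hm hδ hh y
  set A : ℝ := ∑ γ ∈ S, a γ with hA
  set B : ℝ := ∑' γ : {x // x ∉ S}, a γ with hB
  have hsplit : ZZ m δ y = A + B := (hs.sum_add_tsum_subtype_compl S).symm
  have hA0 : 0 ≤ A := Finset.sum_nonneg fun γ _ => ha0 γ
  have hsB : Summable (fun γ : {x // x ∉ S} => a γ) := hs.comp_injective Subtype.val_injective
  have hB0 : 0 ≤ B := tsum_nonneg fun γ => ha0 _
  -- the rest
  have hBsq : ∑' γ : {x // x ∉ S}, (m γ : ℝ) * fdP δ h (y - γ) ≤ B ^ 2 := by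
    have h1 : ∀ γ : {x // x ∉ S}, (m γ : ℝ) * fdP δ h (y - γ) ≤ a γ * B := by
      intro γ
      have h2 : a γ ≤ B := hsB.le_tsum γ fun j _ => ha0 _
      have h3 : (m γ : ℝ) * fdP δ h (y - γ) ≤ (m γ : ℝ) * PP δ (y - γ) ^ 2 :=
        mul_le_mul_of_nonneg_left (fdP_le hδ hh _) (Nat.cast_nonneg _)
      have h4 : (m γ : ℝ) * PP δ (y - γ) ^ 2 ≤ a γ ^ 2 := by
        rw [ha]
        simp only
        rw [mul_pow]
        refine mul_le_mul_of_nonneg_right ?_ (sq_nonneg _)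
        rcases Nat.eq_zero_or_pos (m γ) with h0 | h0
        · rw [h0]; norm_num
        · have : (1 : ℝ) ≤ m γ := by exact_mod_cast h0
          nlinarith
      calc _ ≤ a γ ^ 2 := h3.trans h4
        _ = a γ * a γ := sq _
        _ ≤ a γ * B := mul_le_mul_of_nonneg_left h2 (ha0 _)
    calc _ ≤ ∑' γ : {x // x ∉ S}, a γ * B :=
          (hf.comp_injective Subtype.val_injective).tsum_le_tsum h1 (hsB.mul_right B)
      _ = B ^ 2 := by rw [tsum_mul_right, ← hB, sq]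
  have hfd : fdZ m δ h y ≤ (∑ γ ∈ S, (m γ : ℝ) * PP δ (y - γ) ^ 2) + B ^ 2 := by
    rw [hfe, ← hf.sum_add_tsum_subtype_compl S]
    refine add_le_add (Finset.sum_le_sum fun γ _ => ?_) hBsq
    exact mul_le_mul_of_nonneg_left (fdP_le hδ hh _) (Nat.cast_nonneg _)
  -- the set `S`
  set Q : ℝ := ∑ γ ∈ S, (m γ : ℝ) * n γ * PP δ (y - γ) ^ 2 with hQ
  have hn0 : ∀ γ ∈ S, 0 ≤ n γ := fun γ hγ => by
    rw [hn γ hγ]
    exact Finset.sum_nonneg fun _ _ => Nat.cast_nonneg _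
  have hQ0 : 0 ≤ Q := Finset.sum_nonneg fun γ hγ => mul_nonneg (mul_nonneg (Nat.cast_nonneg _) (hn0 γ hγ)) (sq_nonneg _)
  have hAsq : (1 - 2 * e) * Q ≤ A ^ 2 := by
    have h1 : ∀ γ ∈ S, (1 - 2 * e) * ((m γ : ℝ) * n γ * PP δ (y - γ) ^ 2) ≤ a γ * A := by
      intro γ hγ
      have h2 : (1 - 2 * e) * (n γ * PP δ (y - γ)) ≤ A := by
        calc (1 - 2 * e) * (n γ * PP δ (y - γ))
            = ∑ γ' ∈ S.filter (fun γ' => |γ - γ'| ≤ e * δ), (m γ' : ℝ) * ((1 - 2 * e) * PP δ (y - γ)) := by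
              rw [hn γ hγ, ← Finset.sum_mul]; ring
          _ ≤ ∑ γ' ∈ S.filter (fun γ' => |γ - γ'| ≤ e * δ), a γ' := by
              refine Finset.sum_le_sum fun γ' hγ' => ?_
              have h3 := (Finset.mem_filter.1 hγ').2
              refine mul_le_mul_of_nonneg_left (PP_close hδ he (by linarith) ?_) (Nat.cast_nonneg _)
              rw [show y - γ' - (y - γ) = γ - γ' by ring]
              exact h3
          _ ≤ A := Finset.sum_le_sum_of_subset_of_nonneg (Finset.filter_subset _ _) fun γ' _ _ => ha0 γ'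
      calc (1 - 2 * e) * ((m γ : ℝ) * n γ * PP δ (y - γ) ^ 2) = a γ * ((1 - 2 * e) * (n γ * PP δ (y - γ))) := by
            rw [ha]; ring
        _ ≤ a γ * A := mul_le_mul_of_nonneg_left h2 (ha0 γ)
    calc (1 - 2 * e) * Q = ∑ γ ∈ S, (1 - 2 * e) * ((m γ : ℝ) * n γ * PP δ (y - γ) ^ 2) := by
          rw [hQ, Finset.mul_sum]
      _ ≤ ∑ γ ∈ S, a γ * A := Finset.sum_le_sum h1
      _ = A ^ 2 := by rw [← Finset.sum_mul, ← hA, sq]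
  have hsum : ∑ γ ∈ S, (m γ : ℝ) * (n γ - 1) * PP δ (y - γ) ^ 2 = Q - ∑ γ ∈ S, (m γ : ℝ) * PP δ (y - γ) ^ 2 := by
    rw [hQ, ← Finset.sum_sub_distrib]
    exact Finset.sum_congr rfl fun γ _ => by ring
  rw [hsum, hsplit]
  have hQA : Q ≤ A ^ 2 * (1 + 4 * e) := by
    have h1 : 0 < 1 - 2 * e := by linarith
    have h2 : (1 : ℝ) ≤ (1 - 2 * e) * (1 + 4 * e) := by nlinarith
    calc Q ≤ ((1 - 2 * e) * (1 + 4 * e)) * Q := by nlinarith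
      _ = (1 + 4 * e) * ((1 - 2 * e) * Q) := by ring
      _ ≤ (1 + 4 * e) * A ^ 2 := by gcongr
      _ = _ := by ring
  have h5 : 0 ≤ 2 * A * B := by positivity
  nlinarith [mul_nonneg he (sq_nonneg B), mul_nonneg he h5]

end Pool.Agent.Q253.CP
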