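import Pool.Agent.Q253.CP.A0

set_option autoImplicit false

/-! # Project CP: the local integral of the square of the Poisson kernel -/

namespace Pool.Agent.Q253.CP

open MeasureTheory Filter Topology Set Complex
open Pool.Agent.Q253.HV Pool.Agent.Q253.LQ

lemma sinc_abs (x : ℝ) : Real.sinc |x| = Real.sinc x := by
  rcases abs_choice x with h | h <;> rw [h]
  exact Real.sinc_neg x

lemma sinc_mono {x r : ℝ} (h : |x| ≤ r) (hr : r ≤ 3) : Real.sinc r ≤ Real.sinc x := by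
  rw [← sinc_abs x]
  rcases eq_or_lt_of_le (abs_nonneg x) with h0 | h0
  · rw [← h0, Real.sinc_zero]
    exact Real.sinc_le_one _
  have hr0 : 0 < r := lt_of_lt_of_le h0 h
  have hpi : (3 : ℝ) ≤ Real.pi := Real.pi_gt_three.le
  rw [Real.sinc_of_ne_zero hr0.ne', Real.sinc_of_ne_zero h0.ne', div_le_div_iff₀ hr0 h0]
  have h01 : (0 : ℝ) ∈ Icc 0 Real.pi := ⟨le_rfl, Real.pi_pos.le⟩
  have h02 : r ∈ Icc 0 Real.pi := ⟨hr0.le, hr.trans hpi⟩
  have h03 : 0 ≤ 1 - |x| / r := by rw [sub_nonneg, div_le_one hr0]; exact h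
  have h04 : 0 ≤ |x| / r := by positivity
  have h1 := strictConcaveOn_sin_Icc.concaveOn.2 h01 h02 h03 h04 (by ring)
  simp only [smul_eq_mul, Real.sin_zero, mul_zero, zero_add] at h1
  rw [div_mul_cancel₀ _ hr0.ne', div_mul_eq_mul_div, div_le_iff₀ hr0] at h1
  nlinarith

lemma sinc_nonneg {r : ℝ} (h0 : 0 ≤ r) (hr : r ≤ 3) : 0 ≤ Real.sinc r := by
  rcases eq_or_lt_of_le h0 with h | h
  · rw [← h, Real.sinc_zero]; norm_num
  rw [Real.sinc_of_ne_zero h.ne']
  exact div_nonneg (Real.sin_nonneg_of_nonneg_of_le_pi h0 (hr.trans Real.pi_gt_three.le)) h0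

/-- antiderivative of the square of the Poisson kernel -/
noncomputable def aP (δ v : ℝ) : ℝ := (v / (δ ^ 2 + v ^ 2) + Real.arctan (v / δ) / δ) / 2

lemma aP_deriv {δ : ℝ} (hδ : 0 < δ) (v : ℝ) : HasDerivAt (aP δ) (PP δ v ^ 2) v := by
  have h0 : (0 : ℝ) < δ ^ 2 + v ^ 2 := by positivity
  have h1 : HasDerivAt (fun v : ℝ => δ ^ 2 + v ^ 2) (2 * v) v := by
    simpa using (hasDerivAt_pow 2 v).const_add (δ ^ 2)
  have h2 : HasDerivAt (fun v : ℝ => v / (δ ^ 2 + v ^ 2)) ((1 * (δ ^ 2 + v ^ 2) - v * (2 * v)) / (δ ^ 2 + v ^ 2) ^ 2) v :=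
    (hasDerivAt_id v).div h1 h0.ne'
  have h3 : HasDerivAt (fun v : ℝ => Real.arctan (v / δ)) (1 / (1 + (v / δ) ^ 2) * (1 / δ)) v :=
    ((hasDerivAt_id v).div_const δ).arctan
  have h4 := ((h2.add (h3.div_const δ)).div_const 2)
  have e : ((1 * (δ ^ 2 + v ^ 2) - v * (2 * v)) / (δ ^ 2 + v ^ 2) ^ 2 + 1 / (1 + (v / δ) ^ 2) * (1 / δ) / δ) / 2 =
      PP δ v ^ 2 := by
    unfold PP
    have h5 : 1 + (v / δ) ^ 2 ≠ 0 := by positivity
    field_simp
    ring
  rw [← e]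
  exact h4

lemma PP_cont {δ : ℝ} (hδ : 0 < δ) : Continuous (PP δ) := by
  unfold PP
  exact continuous_const.div (by fun_prop) fun v => by positivity

lemma int_PP2 {δ : ℝ} (hδ : 0 < δ) : (Real.pi / 2 - δ) / δ ≤ ∫ v in (-1 : ℝ)..1, PP δ v ^ 2 := by
  rw [intervalIntegral.integral_eq_sub_of_hasDerivAt (fun v _ => aP_deriv hδ v)
    (((PP_cont hδ).pow 2).intervalIntegrable _ _)]
  have h1 : aP δ 1 - aP δ (-1) = 1 / (δ ^ 2 + 1) + Real.arctan (1 / δ) / δ := by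
    unfold aP
    rw [neg_div, neg_div, Real.arctan_neg]
    norm_num
    ring
  rw [h1]
  have h2 : Real.arctan (1 / δ) = Real.pi / 2 - Real.arctan δ := by
    rw [one_div, Real.arctan_inv_of_pos hδ]
  have h3 : Real.arctan δ ≤ δ := by
    have := Real.lt_tan (Real.arctan_pos.2 hδ) (Real.arctan_lt_pi_div_two δ)
    rw [Real.tan_arctan] at this
    exact this.le
  rw [h2]
  have h4 : (0 : ℝ) ≤ 1 / (δ ^ 2 + 1) := by positivity
  have h5 : (Real.pi / 2 - δ) / δ ≤ (Real.pi / 2 - Real.arctan δ) / δ := by gcongr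
  linarith

/-- the local mass of `PP²` against the weight -/
lemma int_PP2_hh {κ σ δ γ : ℝ} (hκ : 0 < κ) (hκ1 : κ ≤ 1 / 4) (hδ : 0 < δ)
    (hi : Integrable (fun y => PP δ (y - γ) ^ 2 * hh κ σ y))
    (hlow : ∀ y, κ ^ 2 * Real.sinc (κ * y / 2) ^ 2 ≤ hh κ σ y) (hγ : |γ| ≤ 2 / κ) :
    κ ^ 2 * Real.sinc (1 + κ / 2) ^ 2 * ((Real.pi / 2 - δ) / δ) ≤ ∫ y, PP δ (y - γ) ^ 2 * hh κ σ y := by
  have hh0 : ∀ y, 0 ≤ hh κ σ y := fun y => by unfold hh; positivity
  have h1 : ∫ y in (γ - 1)..(γ + 1), κ ^ 2 * Real.sinc (1 + κ / 2) ^ 2 * PP δ (y - γ) ^ 2 ≤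
      ∫ y in (γ - 1)..(γ + 1), PP δ (y - γ) ^ 2 * hh κ σ y := by
    apply intervalIntegral.integral_mono_on (by linarith)
    · exact (((PP_cont hδ).comp (by fun_prop : Continuous fun y : ℝ => y - γ)).pow 2 |>.const_mul _).intervalIntegrable _ _
    · exact hi.intervalIntegrable
    · intro y hy
      rw [mul_comm]
      refine mul_le_mul_of_nonneg_left ((mul_le_mul_of_nonneg_left ?_ (sq_nonneg κ)).trans (hlow y)) (sq_nonneg _)
      have h2 : |κ * y / 2| ≤ 1 + κ / 2 := by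
        have h3 : |y| ≤ 2 / κ + 1 := by
          have : y = γ + (y - γ) := by ring
          rw [this]
          refine (abs_add_le _ _).trans (add_le_add hγ ?_)
          rw [abs_le]; constructor <;> linarith [hy.1, hy.2]
        rw [abs_div, abs_mul, abs_of_pos hκ]
        have h4 : κ * |y| ≤ κ * (2 / κ + 1) := mul_le_mul_of_nonneg_left h3 hκ.le
        have h5 : κ * (2 / κ + 1) = 2 + κ := by field_simp
        rw [h5] at h4
        norm_num
        linarith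
      have h6 : 1 + κ / 2 ≤ 3 := by linarith
      exact pow_le_pow_left₀ (sinc_nonneg (by positivity) h6) (sinc_mono h2 h6) 2
  have h2 : ∫ y in (γ - 1)..(γ + 1), PP δ (y - γ) ^ 2 * hh κ σ y ≤ ∫ y, PP δ (y - γ) ^ 2 * hh κ σ y := by
    rw [intervalIntegral.integral_of_le (by linarith)]
    exact setIntegral_le_integral hi (Eventually.of_forall fun y => mul_nonneg (sq_nonneg _) (hh0 y))
  refine le_trans ?_ (h1.trans h2)
  rw [intervalIntegral.integral_const_mul, intervalIntegral.integral_comp_sub_right (fun v => PP δ v ^ 2) γ]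
  rw [show γ - 1 - γ = -1 by ring, show γ + 1 - γ = 1 by ring]
  exact mul_le_mul_of_nonneg_left (int_PP2 hδ) (by positivity)

end Pool.Agent.Q253.CP
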