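import Pool.Agent.Q253.CP.A1

set_option autoImplicit false

/-! # Project CP: the mean of the zero sum, counting -/

namespace Pool.Agent.Q253.CP

open MeasureTheory Filter Topology Set Complex
open Pool.Agent.Q253.HV Pool.Agent.Q253.LQ

variable {m : ℝ → ℕ} {f : ℝ → ℂ} {D : ℝ}

lemma ZZ_cont (hm : Summable (fun γ : ℝ => (m γ : ℝ) / (1 + γ ^ 2))) {δ : ℝ} (hδ : 0 < δ) : Continuous (ZZ m δ) := by
  rw [continuous_iff_continuousAt]
  intro y0
  set R : ℝ := |y0| + 1 with hR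
  have hR0 : 0 < R := by positivity
  have h : ContinuousOn (fun y => ∑' γ : ℝ, (m γ : ℝ) * PP δ (y - γ)) (Ioo (-R) R) := by
    refine continuousOn_tsum (fun γ => ?_) (hm.mul_left ((δ + (1 + 2 * R ^ 2) / δ) * 2)) (fun γ y hy => ?_)
    · exact (continuous_const.mul ((PP_cont hδ).comp (by fun_prop : Continuous fun y : ℝ => y - γ))).continuousOn
    · rw [Real.norm_of_nonneg (mul_nonneg (Nat.cast_nonneg _) (PP_nonneg hδ _))]
      have h1 : y ^ 2 ≤ R ^ 2 := by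
        rw [← sq_abs y]
        exact pow_le_pow_left₀ (abs_nonneg _) (abs_le.2 ⟨hy.1.le, hy.2.le⟩) 2
      calc (m γ : ℝ) * PP δ (y - γ) ≤ (m γ : ℝ) * ((δ + (1 + 2 * y ^ 2) / δ) * 2 * (1 / (1 + γ ^ 2))) :=
            mul_le_mul_of_nonneg_left (PP_le hδ y γ) (Nat.cast_nonneg _)
        _ ≤ (m γ : ℝ) * ((δ + (1 + 2 * R ^ 2) / δ) * 2 * (1 / (1 + γ ^ 2))) := by
            refine mul_le_mul_of_nonneg_left ?_ (Nat.cast_nonneg _)
            refine mul_le_mul_of_nonneg_right ?_ (by positivity)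
            refine mul_le_mul_of_nonneg_right ?_ (by norm_num)
            gcongr
        _ = _ := by ring
  have h2 : y0 ∈ Ioo (-R) R := by
    have := neg_abs_le y0
    have := le_abs_self y0
    constructor <;> linarith
  exact h.continuousAt (Ioo_mem_nhds h2.1 h2.2)

lemma LL_ge_one {κ : ℝ} (hκ : 0 < κ) (hκ1 : κ ≤ 1 / 4) : 1 ≤ LL κ := by
  unfold LL
  rw [Real.le_log_iff_exp_le (by positivity)]
  have h1 : Real.exp 1 ≤ 4 := by
    have := Real.exp_one_lt_d9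
    linarith
  refine h1.trans ?_
  rw [le_div_iff₀ hκ]
  linarith

lemma hh_nonneg (κ σ y : ℝ) : 0 ≤ hh κ σ y := by unfold hh; positivity

/-- everything about the error `ZZ - Re ld` -/
lemma int_ZZ (h2 : S_KPO) (h3 : S_WT) (hs : Sys f m D) : ∃ C : ℝ, 0 ≤ C ∧ ∀ κ σ δ : ℝ, 0 < κ → κ ≤ 1 / 4 →
    1 / 2 ≤ σ → σ ≤ 1 → 0 < δ → δ ≤ 1 / 4 → Integrable (fun y => ZZ m δ y * hh κ σ y) ∧
    |(∫ y, ZZ m δ y * hh κ σ y) - Real.pi * D * (κ * LL κ)| ≤ C * κ := by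
  obtain ⟨C1, hC1⟩ := hs.rl
  obtain ⟨C2, hC2, hK⟩ := h2
  obtain ⟨C3, hC3, hW⟩ := h3
  obtain ⟨B, hB0, hB⟩ := hs.bdd
  have hD := hs.D1
  refine ⟨C2 * B + D / 2 * C3 + |C1| * (2 * Real.pi + C3), by positivity, ?_⟩
  intro κ σ δ hκ hκ1 hσ hσ1 hδ hδ1
  obtain ⟨⟨hc, hi, hi'⟩, ⟨hl, hl'⟩, -, -, -, -⟩ := hW κ σ hκ hκ1 hσ hσ1
  obtain ⟨hk, hk'⟩ := hK f B κ σ (1 / 2 + δ) hs.adm hB0 (fun t ht ht1 => hB t ht (by linarith)) hκ (by linarith)
    hσ hσ1 (by linarith) (by linarith)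
  set E : ℝ → ℝ := fun y => ZZ m δ y - D / 2 * Real.log (2 + |y|) - (ld f (pt (1 / 2 + δ) y)).re with hE
  have hEb : ∀ y, |E y| ≤ |C1| := fun y => by
    have := hC1 δ y hδ hδ1
    have e : E y = -((ld f (pt (1 / 2 + δ) y)).re - (ZZ m δ y - D / 2 * Real.log (2 + |y|))) := by
      rw [hE]; ring
    rw [e, abs_neg]
    exact this.trans (le_abs_self _)
  have hEm : AEStronglyMeasurable (fun y => E y * hh κ σ y) volume := by
    have e : (fun y => E y * hh κ σ y) = fun y => ZZ m δ y * hh κ σ y -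
        D / 2 * (Real.log (2 + |y|) * hh κ σ y) - (ld f (pt (1 / 2 + δ) y)).re * hh κ σ y := by
      funext y; rw [hE]; ring
    rw [e]
    exact ((((ZZ_cont hs.sm hδ).mul hc).aestronglyMeasurable.sub (hl.const_mul _).aestronglyMeasurable).sub
      hk.aestronglyMeasurable)
  have hEi : Integrable (fun y => E y * hh κ σ y) := by
    refine (hi.const_mul |C1|).mono' hEm (Eventually.of_forall fun y => ?_)
    rw [Real.norm_eq_abs, abs_mul, abs_of_nonneg (hh_nonneg κ σ y)]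
    exact mul_le_mul_of_nonneg_right (hEb y) (hh_nonneg _ _ _)
  have hEI : |∫ y, E y * hh κ σ y| ≤ |C1| * ∫ y, hh κ σ y := by
    rw [← integral_const_mul, ← Real.norm_eq_abs]
    refine (norm_integral_le_integral_norm _).trans ?_
    refine integral_mono hEi.norm (hi.const_mul _) fun y => ?_
    simp only
    rw [Real.norm_eq_abs, abs_mul, abs_of_nonneg (hh_nonneg κ σ y)]
    exact mul_le_mul_of_nonneg_right (hEb y) (hh_nonneg _ _ _)
  have e : (fun y => ZZ m δ y * hh κ σ y) = fun y => E y * hh κ σ y +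
      D / 2 * (Real.log (2 + |y|) * hh κ σ y) + (ld f (pt (1 / 2 + δ) y)).re * hh κ σ y := by
    funext y; rw [hE]; ring
  have hA : Integrable (fun y => E y * hh κ σ y + D / 2 * (Real.log (2 + |y|) * hh κ σ y)) := hEi.add (hl.const_mul _)
  refine ⟨by rw [e]; exact hA.add hk, ?_⟩
  rw [e, integral_add hA hk, integral_add hEi (hl.const_mul _), integral_const_mul]
  set I1 := ∫ y, E y * hh κ σ y
  set I2 := ∫ y, Real.log (2 + |y|) * hh κ σ y
  set I3 := ∫ y, (ld f (pt (1 / 2 + δ) y)).re * hh κ σ y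
  set I4 := ∫ y, hh κ σ y
  have h5 : I4 ≤ (2 * Real.pi + C3) * κ := by
    have := (abs_le.1 hi').2
    have h6 : C3 * κ ^ 2 ≤ C3 * κ := by
      refine mul_le_mul_of_nonneg_left ?_ hC3.le
      nlinarith
    nlinarith
  have e2 : I1 + D / 2 * I2 + I3 - Real.pi * D * (κ * LL κ) = I1 + D / 2 * (I2 - 2 * Real.pi * κ * LL κ) + I3 := by ring
  rw [e2]
  have h7 : |I1| ≤ |C1| * ((2 * Real.pi + C3) * κ) := hEI.trans (mul_le_mul_of_nonneg_left h5 (abs_nonneg _))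
  have h8 : |D / 2 * (I2 - 2 * Real.pi * κ * LL κ)| ≤ D / 2 * (C3 * κ) := by
    rw [abs_mul, abs_of_nonneg (by positivity : (0 : ℝ) ≤ D / 2)]
    exact mul_le_mul_of_nonneg_left hl' (by positivity)
  calc |I1 + D / 2 * (I2 - 2 * Real.pi * κ * LL κ) + I3|
      ≤ |I1| + |D / 2 * (I2 - 2 * Real.pi * κ * LL κ)| + |I3| := abs_add_three _ _ _
    _ ≤ |C1| * ((2 * Real.pi + C3) * κ) + D / 2 * (C3 * κ) + C2 * B * κ := add_le_add (add_le_add h7 h8) hk'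
    _ = _ := by ring

/-- the mean of the finite difference, from below -/
lemma int_fdZ (h2 : S_KPO) (h3 : S_WT) (hs : Sys f m D) : ∃ C : ℝ, 0 ≤ C ∧ ∀ κ σ δ h : ℝ, 0 < κ → κ ≤ 1 / 4 →
    1 / 2 ≤ σ → σ ≤ 1 → 0 < δ → 0 < h → (1 + h) * δ ≤ 1 / 4 → Integrable (fun y => fdZ m δ h y * hh κ σ y) ∧
    Real.pi * D * (κ * LL κ) / (δ * ((1 + h) * (2 + h))) - C * κ / (δ * h) ≤ ∫ y, fdZ m δ h y * hh κ σ y := by
  obtain ⟨C, hC0, hC⟩ := int_ZZ h2 h3 hs
  refine ⟨C, hC0, ?_⟩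
  intro κ σ δ h hκ hκ1 hσ hσ1 hδ hh0 hδ1
  have hδ2 : δ ≤ 1 / 4 := by nlinarith
  obtain ⟨a1, a2⟩ := hC κ σ δ hκ hκ1 hσ hσ1 hδ hδ2
  obtain ⟨b1, b2⟩ := hC κ σ ((1 + h) * δ) hκ hκ1 hσ hσ1 (by positivity) hδ1
  have e : (fun y => fdZ m δ h y * hh κ σ y) = fun y =>
      (δ * (2 * h + h ^ 2))⁻¹ * (ZZ m δ y * hh κ σ y) -
        ((1 + h) * δ * (2 * h + h ^ 2))⁻¹ * (ZZ m ((1 + h) * δ) y * hh κ σ y) := by
    funext y
    unfold fdZ
    have : (0 : ℝ) < 2 * h + h ^ 2 := by positivity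
    field_simp
  refine ⟨by rw [e]; exact (a1.const_mul _).sub (b1.const_mul _), ?_⟩
  rw [e, integral_sub (a1.const_mul _) (b1.const_mul _), integral_const_mul, integral_const_mul]
  set M : ℝ := Real.pi * D * (κ * LL κ) with hM
  set I1 := ∫ y, ZZ m δ y * hh κ σ y
  set I2 := ∫ y, ZZ m ((1 + h) * δ) y * hh κ σ y
  have h1 : M - C * κ ≤ I1 := by have := (abs_le.1 a2).1; linarith
  have h4 : I2 ≤ M + C * κ := by have := (abs_le.1 b2).2; linarith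
  have hp : (0 : ℝ) < 2 * h + h ^ 2 := by positivity
  have h5 : (δ * (2 * h + h ^ 2))⁻¹ * (M - C * κ) ≤ (δ * (2 * h + h ^ 2))⁻¹ * I1 :=
    mul_le_mul_of_nonneg_left h1 (by positivity)
  have h6 : ((1 + h) * δ * (2 * h + h ^ 2))⁻¹ * I2 ≤ ((1 + h) * δ * (2 * h + h ^ 2))⁻¹ * (M + C * κ) :=
    mul_le_mul_of_nonneg_left h4 (by positivity)
  have e3 : (δ * (2 * h + h ^ 2))⁻¹ * (M - C * κ) - ((1 + h) * δ * (2 * h + h ^ 2))⁻¹ * (M + C * κ) =
      M / (δ * ((1 + h) * (2 + h))) - C * κ / (δ * h) * (1 / (1 + h)) := by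
    have : (1 : ℝ) + h ≠ 0 := by positivity
    have : (2 : ℝ) + h ≠ 0 := by positivity
    have e4 : 2 * h + h ^ 2 = h * (2 + h) := by ring
    rw [e4]
    field_simp
    ring
  have h7 : C * κ / (δ * h) * (1 / (1 + h)) ≤ C * κ / (δ * h) := by
    have h8 : 1 / (1 + h) ≤ 1 := by rw [div_le_one (by positivity)]; linarith
    have h9 : 0 ≤ C * κ / (δ * h) := by positivity
    nlinarith
  linarith

lemma fin_zeros (hm : Summable (fun γ : ℝ => (m γ : ℝ) / (1 + γ ^ 2))) (U : ℝ) : {γ : ℝ | |γ| ≤ U ∧ m γ ≠ 0}.Finite := by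
  have h1 := hm.tendsto_cofinite_zero.eventually (gt_mem_nhds (show (0 : ℝ) < 1 / (1 + U ^ 2) by positivity))
  rw [eventually_cofinite] at h1
  refine h1.subset fun γ hγ => ?_
  simp only [mem_ofPred_eq, not_lt]
  have h2 : (1 : ℝ) ≤ m γ := by exact_mod_cast Nat.one_le_iff_ne_zero.2 hγ.2
  have h3 : γ ^ 2 ≤ U ^ 2 := by
    rw [← sq_abs γ]
    exact pow_le_pow_left₀ (abs_nonneg _) hγ.1 2
  have h4 : 1 / (1 + U ^ 2) ≤ 1 / (1 + γ ^ 2) := by
    apply one_div_le_one_div_of_le (by positivity); linarith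
  refine h4.trans ?_
  gcongr

lemma Nm_eq (hm : Summable (fun γ : ℝ => (m γ : ℝ) / (1 + γ ^ 2))) (U : ℝ) :
    (Nm m U : ℝ) = ∑ γ ∈ (fin_zeros hm U).toFinset, (m γ : ℝ) := by
  unfold Nm
  rw [finsum_mem_eq_sum_of_inter_support_eq (t := (fin_zeros hm U).toFinset)]
  · push_cast; rfl
  · ext γ
    simp only [mem_inter_iff, mem_ofPred_eq, Function.mem_support, Finite.coe_toFinset]
    tauto

lemma Pm_eq (hm : Summable (fun γ : ℝ => (m γ : ℝ) / (1 + γ ^ 2))) (U β : ℝ) :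
    (Pm m U β : ℝ) = ∑ γ ∈ (fin_zeros hm U).toFinset, (m γ : ℝ) *
      ∑ γ' ∈ (fin_zeros hm U).toFinset.filter (fun γ' => |γ - γ'| * Real.log U / (2 * Real.pi) ≤ β), (m γ' : ℝ) := by
  classical
  unfold Pm
  rw [finsum_mem_eq_sum_of_inter_support_eq
    (t := ((fin_zeros hm U).toFinset ×ˢ (fin_zeros hm U).toFinset).filter
      (fun p : ℝ × ℝ => |p.1 - p.2| * Real.log U / (2 * Real.pi) ≤ β))]
  · push_cast
    rw [Finset.sum_filter, Finset.sum_product]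
    refine Finset.sum_congr rfl fun γ _ => ?_
    rw [Finset.mul_sum, Finset.sum_filter]
  · ext p
    simp only [mem_inter_iff, mem_ofPred_eq, Function.mem_support, Finset.coe_filter, Finset.mem_product,
      Finite.mem_toFinset, ne_eq, mul_eq_zero, not_or]
    tauto

lemma Nm_le_Pm (hm : Summable (fun γ : ℝ => (m γ : ℝ) / (1 + γ ^ 2))) (U β : ℝ) (hβ : 0 ≤ β) :
    (Nm m U : ℝ) ≤ Pm m U β := by
  rw [Nm_eq hm, Pm_eq hm]
  refine Finset.sum_le_sum fun γ hγ => ?_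
  have h1 : (1 : ℝ) ≤ m γ := by
    exact_mod_cast Nat.one_le_iff_ne_zero.2 ((fin_zeros hm U).mem_toFinset.1 hγ).2
  have h2 : (1 : ℝ) ≤ ∑ γ' ∈ (fin_zeros hm U).toFinset.filter
      (fun γ' => |γ - γ'| * Real.log U / (2 * Real.pi) ≤ β), (m γ' : ℝ) := by
    refine h1.trans (Finset.single_le_sum (f := fun γ' => (m γ' : ℝ)) (fun _ _ => Nat.cast_nonneg _) ?_)
    rw [Finset.mem_filter]
    refine ⟨hγ, ?_⟩
    rw [sub_self, abs_zero, zero_mul, zero_div]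
    exact hβ
  nlinarith

end Pool.Agent.Q253.CP
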