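import Pool.Agent.Q253.CP.LB
import Pool.Agent.Q257.CP.GR
import Pool.Agent.Q195.CP.RL
import Pool.Agent.Q195.CP.NR
import Pool.Agent.Q195.CP.NT

set_option autoImplicit false

/-! # Project CP: the system of a set of characters -/

namespace Pool.Agent.Q253.CP

open MeasureTheory Filter Topology Set Complex
open Pool.Agent.Q253.HV Pool.Agent.Q253.LQ
open DirichletCharacter (LFunction)

variable {q : ℕ} [NeZero q]

lemma fX_meas (X : Finset (DirichletCharacter ℂ q)) : Measurable (fX X) := by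
  classical
  unfold fX
  refine Measurable.sub (Finset.measurable_fun_sum _ fun χ _ => Pool.Agent.Q257.CP.psi_meas χ) ?_
  split_ifs
  · exact Complex.measurable_ofReal.comp Real.measurable_exp
  · exact measurable_const

lemma psiC_le (χ : DirichletCharacter ℂ q) {x : ℝ} (hx : 0 ≤ x) : ‖psiC χ x‖ ≤ (Real.log 4 + 4) * x := by
  refine le_trans ?_ (Chebyshev.psi_le_const_mul_self hx)
  have h := Pool.Agent.Q195.CP.psiC_sub_le χ hx
  have h0 : psiC χ 0 = 0 := by unfold psiC; simp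
  rw [h0, sub_zero, Chebyshev.psi_eq_zero_of_lt_two (show (0 : ℝ) < 2 by norm_num), sub_zero] at h
  exact h

lemma fX_le (X : Finset (DirichletCharacter ℂ q)) : ∃ C : ℝ, ∀ t, ‖fX X t‖ ≤ C * Real.exp t := by
  classical
  refine ⟨X.card * (Real.log 4 + 4) + 1, fun t => ?_⟩
  unfold fX
  refine (norm_sub_le _ _).trans ?_
  have h1 : ‖∑ χ ∈ X, psiC χ (Real.exp t)‖ ≤ X.card * ((Real.log 4 + 4) * Real.exp t) := by
    refine (norm_sum_le _ _).trans ((Finset.sum_le_sum fun χ _ => psiC_le χ (Real.exp_pos t).le).trans ?_)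
    rw [Finset.sum_const, nsmul_eq_mul]
  have h2 : ‖(if (1 : DirichletCharacter ℂ q) ∈ X then ((Real.exp t : ℝ) : ℂ) else 0)‖ ≤ Real.exp t := by
    split_ifs
    · rw [Complex.norm_real, Real.norm_of_nonneg (Real.exp_pos t).le]
    · rw [norm_zero]; exact (Real.exp_pos t).le
  linarith

lemma mX_sum (X : Finset (DirichletCharacter ℂ q)) (g : ℝ → ℝ)
    (h : ∀ χ ∈ X, Summable fun γ : ℝ => (mc χ γ : ℝ) * g γ) :
    Summable (fun γ : ℝ => (mX X γ : ℝ) * g γ) ∧ ∑' γ : ℝ, (mX X γ : ℝ) * g γ = ∑ χ ∈ X, ∑' γ : ℝ, (mc χ γ : ℝ) * g γ := by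
  have e : (fun γ : ℝ => (mX X γ : ℝ) * g γ) = fun γ => ∑ χ ∈ X, (mc χ γ : ℝ) * g γ := by
    funext γ
    unfold mX
    push_cast
    rw [Finset.sum_mul]
  rw [e]
  exact ⟨summable_sum h, Summable.tsum_finsetSum h⟩

lemma mX_sm (hPF : S_PF) (X : Finset (DirichletCharacter ℂ q)) (hG : ∀ χ ∈ X, GRHc χ) :
    Summable (fun γ : ℝ => (mX X γ : ℝ) / (1 + γ ^ 2)) := by
  have h := (mX_sum X (fun γ => 1 / (1 + γ ^ 2)) (fun χ hχ => by
    simp only [mul_one_div]
    exact (hPF q χ (hG χ hχ)).1)).1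
  simp only [mul_one_div] at h
  exact h

lemma ZZ_mX (hPF : S_PF) (X : Finset (DirichletCharacter ℂ q)) (hG : ∀ χ ∈ X, GRHc χ) {δ : ℝ} (hδ : 0 < δ) (y : ℝ) :
    ZZ (mX X) δ y = ∑ χ ∈ X, ZZ (mc χ) δ y := by
  exact (mX_sum X (fun γ => PP δ (y - γ)) (fun χ hχ => sumP (hPF q χ (hG χ hχ)).1 hδ y)).2

lemma Nm_mX (X : Finset (DirichletCharacter ℂ q)) (U : ℝ) :
    Nm (mX X) U = ∑ χ ∈ X, Nm (mc χ) U := by
  classical
  have hf : ∀ χ : DirichletCharacter ℂ q, {γ : ℝ | |γ| ≤ U ∧ mc χ γ ≠ 0}.Finite :=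
    fun χ => Pool.Agent.Q195.CP.NT.fin_zeros χ U
  set T : Finset ℝ := X.biUnion fun χ => (hf χ).toFinset with hT
  have key : ∀ g : ℝ → ℕ, (∀ γ, |γ| ≤ U → g γ ≠ 0 → γ ∈ T) → ∑ᶠ γ ∈ {γ : ℝ | |γ| ≤ U}, g γ = ∑ γ ∈ T, g γ := by
    intro g hg
    refine finsum_mem_eq_sum_of_inter_support_eq _ ?_
    ext γ
    simp only [mem_inter_iff, mem_ofPred_eq, Function.mem_support, Finset.mem_coe]
    constructor
    · rintro ⟨h1, h2⟩
      exact ⟨hg γ h1 h2, h2⟩
    · rintro ⟨h1, h2⟩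
      refine ⟨?_, h2⟩
      rw [hT, Finset.mem_biUnion] at h1
      obtain ⟨χ, _, h3⟩ := h1
      exact ((hf χ).mem_toFinset.1 h3).1
  unfold Nm
  rw [key (mX X) (fun γ h1 h2 => ?_)]
  · have e : ∀ χ ∈ X, ∑ᶠ γ ∈ {γ : ℝ | |γ| ≤ U}, mc χ γ = ∑ γ ∈ T, mc χ γ := by
      intro χ hχ
      refine key (mc χ) fun γ h1 h2 => ?_
      rw [hT, Finset.mem_biUnion]
      exact ⟨χ, hχ, (hf χ).mem_toFinset.2 ⟨h1, h2⟩⟩
    rw [Finset.sum_congr rfl e, Finset.sum_comm]
    rfl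
  · unfold mX at h2
    obtain ⟨χ, hχ, h3⟩ := Finset.exists_ne_zero_of_sum_ne_zero h2
    rw [hT, Finset.mem_biUnion]
    exact ⟨χ, hχ, (hf χ).mem_toFinset.2 ⟨h1, h3⟩⟩

theorem sys_X (hPF : S_PF) (X : Finset (DirichletCharacter ℂ q)) (hX : X.Nonempty) (hG : ∀ χ ∈ X, GRHc χ)
    (hA : Adm (fX X)) : Sys (fX X) (mX X) X.card where
  D1 := by exact_mod_cast hX.card_pos
  meas := fX_meas X
  adm := hA
  bdd := by
    obtain ⟨C, hC⟩ := fX_le X
    refine ⟨|C| * Real.exp 2, by positivity, fun t _ ht => (hC t).trans ?_⟩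
    have h1 : Real.exp t ≤ Real.exp 2 := Real.exp_le_exp.2 ht
    calc C * Real.exp t ≤ |C| * Real.exp t := mul_le_mul_of_nonneg_right (le_abs_self _) (Real.exp_pos _).le
      _ ≤ _ := mul_le_mul_of_nonneg_left h1 (abs_nonneg _)
  sm := mX_sm hPF X hG
  rl := by
    classical
    obtain ⟨-, hld⟩ := Pool.Agent.Q257.CP.t_GR q X hA
    choose! C hC using fun (χ : DirichletCharacter ℂ q) (hχ : GRHc χ) => Pool.Agent.Q195.CP.t_RL hPF q χ hχ
    refine ⟨(∑ χ ∈ X, C χ) + 5, fun δ y hδ hδ1 => ?_⟩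
    have hre : (pt (1 / 2 + δ) y).re = 1 / 2 + δ := by unfold pt; simp
    have hne : pt (1 / 2 + δ) y ≠ 1 := fun h => by
      have := congrArg Complex.re h
      rw [hre, one_re] at this
      linarith
    rw [hld (pt (1 / 2 + δ) y) (by rw [hre]; linarith) hne, ZZ_mX hPF X hG hδ, add_re, re_sum]
    set s := pt (1 / 2 + δ) y with hs
    have h1 : |(if (1 : DirichletCharacter ℂ q) ∈ X then s / (s - 1) else 0).re| ≤ 5 := by
      refine (abs_re_le_norm _).trans ?_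
      split_ifs
      · have h2 : s / (s - 1) = 1 + 1 / (s - 1) := by
          have : s - 1 ≠ 0 := sub_ne_zero.2 hne
          field_simp
          ring
        have h3 : 1 / 4 ≤ ‖s - 1‖ := by
          refine le_trans ?_ (abs_re_le_norm (s - 1))
          rw [sub_re, hre, one_re, abs_of_nonpos (by linarith)]
          linarith
        rw [h2]
        refine (norm_add_le _ _).trans ?_
        rw [norm_one, norm_div, norm_one]
        have h4 : 1 / ‖s - 1‖ ≤ 4 := by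
          rw [div_le_iff₀ (by linarith)]
          linarith
        linarith
      · rw [norm_zero]; norm_num
    have h2 : ∑ χ ∈ X, (logDeriv (LFunction χ) s).re + (if (1 : DirichletCharacter ℂ q) ∈ X then s / (s - 1) else 0).re -
        (∑ χ ∈ X, ZZ (mc χ) δ y - (X.card : ℝ) / 2 * Real.log (2 + |y|)) =
        (∑ χ ∈ X, ((logDeriv (LFunction χ) s).re - (ZZ (mc χ) δ y - 1 / 2 * Real.log (2 + |y|)))) +
        (if (1 : DirichletCharacter ℂ q) ∈ X then s / (s - 1) else 0).re := by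
      rw [Finset.sum_sub_distrib, Finset.sum_sub_distrib, Finset.sum_const, nsmul_eq_mul]
      ring
    rw [h2]
    refine (abs_add_le _ _).trans (add_le_add ?_ h1)
    refine (Finset.abs_sum_le_sum_abs _ _).trans (Finset.sum_le_sum fun χ hχ => ?_)
    exact hC χ (hG χ hχ) δ y hδ hδ1
  nr := Pool.Agent.Q195.CP.t_NR q X
  nt := by
    have h : ∀ χ ∈ X, Tendsto (fun U : ℝ => (Nm (mc χ) U : ℝ) / (U * Real.log U)) atTop (𝓝 (1 / Real.pi)) :=
      fun χ hχ => (Pool.Agent.Q195.CP.NT.t_NT q χ (hG χ hχ)).2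
    have h1 := tendsto_finsetSum X h
    have e : ∑ χ ∈ X, 1 / Real.pi = (X.card : ℝ) / Real.pi := by
      rw [Finset.sum_const, nsmul_eq_mul]; ring
    rw [e] at h1
    refine h1.congr fun U => ?_
    rw [Nm_mX X]
    push_cast
    rw [Finset.sum_div]

end Pool.Agent.Q253.CP
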