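import Pool.Agent.Q253.CP.LB
import Pool.Agent.Q257.CP.KPL
import Pool.Agent.Q257.CP.KPO
import Pool.Agent.Q227.CP.TE
import Pool.Agent.Q227.CP.AB
import Pool.Agent.Q227.CP.KA
import Pool.Agent.Q227.CP.KT
import Pool.Agent.Q102.CP.TB

set_option autoImplicit false

/-! # Project CP: from the integrals over primes to the zeros and back -/

namespace Pool.Agent.Q253.CP

open MeasureTheory Filter Topology Set Complex
open Pool.Agent.Q253.HV Pool.Agent.Q253.LQ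

variable {m : ℝ → ℕ} {f : ℝ → ℂ} {D : ℝ}

/-- the squares of the increments -/
noncomputable def Gf (f : ℝ → ℂ) (κ u : ℝ) : ℝ := ‖f (u + κ) - f u‖ ^ 2 * Real.exp (-u)

lemma Gf_nonneg (f : ℝ → ℂ) (κ u : ℝ) : 0 ≤ Gf f κ u := by unfold Gf; positivity

lemma Gf_meas (hf : Measurable f) (κ : ℝ) : Measurable (Gf f κ) := by
  unfold Gf
  exact (((hf.comp (by fun_prop : Measurable fun u : ℝ => u + κ)).sub hf).norm.pow_const 2).mul
    (by fun_prop : Measurable fun u : ℝ => Real.exp (-u))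

lemma Gf_exp (f : ℝ → ℂ) (κ a u : ℝ) : Gf f κ u * Real.exp (-(2 * a * u / LL κ)) =
    ‖f (u + κ) - f u‖ ^ 2 * Real.exp (-((1 + 2 * (a / LL κ)) * u)) := by
  unfold Gf
  rw [mul_assoc, ← Real.exp_add]
  congr 2
  ring

lemma Gf_int (f : ℝ → ℂ) (κ a : ℝ) :
    ∫ u in Ioi (0 : ℝ), Gf f κ u * Real.exp (-(2 * a * u / LL κ)) = Jt f κ (a / LL κ) := by
  unfold Jt
  congr 1
  funext u
  exact Gf_exp f κ a u

lemma ev_small : ∀ᶠ κ : ℝ in 𝓝[>] 0, 0 < κ ∧ κ ≤ 1 / 4 ∧ 1 ≤ LL κ := by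
  filter_upwards [Ioc_mem_nhdsGT (show (0 : ℝ) < 1 / 4 by norm_num)] with κ hκ
  exact ⟨hκ.1, hκ.2, LL_ge_one hκ.1 hκ.2⟩

lemma Gf_integrable (h1 : S_KPL) (hs : Sys f m D) {a : ℝ} (ha : 0 < a) :
    ∀ᶠ κ : ℝ in 𝓝[>] 0, IntegrableOn (fun u => Gf f κ u * Real.exp (-(2 * a * u / LL κ))) (Ioi 0) := by
  obtain ⟨C, hC, h⟩ := h1
  obtain ⟨B, hB0, hB⟩ := hs.bdd
  filter_upwards [ev_small, tendsto_LL.eventually_ge_atTop (2 * a)] with κ hκ hL
  obtain ⟨hκ, hκ1, hL1⟩ := hκ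
  have hLp : 0 < LL κ := by linarith
  have hδ : 0 < a / LL κ := by positivity
  have hδ1 : a / LL κ ≤ 1 / 2 := by
    rw [div_le_iff₀ hLp]; linarith
  have h2 := (h f B κ (1 / 2 + a / LL κ) hs.adm hB0 (fun t ht ht1 => hB t ht (by linarith)) hκ (by linarith)
    (by linarith) (by linarith)).1
  refine h2.congr_fun (fun u _ => ?_) measurableSet_Ioi
  simp only
  rw [Gf_exp, show 2 * (1 / 2 + a / LL κ) * u = (1 + 2 * (a / LL κ)) * u by ring]

/-- square integrability from bounded means -/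
theorem adm_of (hf : Measurable f) (hC : ∃ C : ℝ, ∀ t, ‖f t‖ ≤ C * Real.exp t)
    (h : ∀ b : ℝ, 1 < b → ∃ C : ℝ, ∀ᶠ T : ℝ in atTop, VT f T b ≤ C) : Adm f := by
  refine Q227.CP.t_TE f hf hC fun b hb => ?_
  obtain ⟨C, hC'⟩ := h (b + 1) (by linarith)
  refine ⟨(1 + 1) * max C 0, ?_⟩
  refine (Q227.CP.t_KT f hf hC b (max C 0) 1 hb.le (le_max_right _ _) one_pos).1 ?_
  filter_upwards [hC'] with T hT using hT.trans (le_max_left _ _)

lemma Gf_fin (hf : Measurable f) {κ b : ℝ} (hb : 0 < b) (hL : 0 < LL κ)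
    (hI : IntegrableOn (fun u => Gf f κ u * Real.exp (-(2 * (1 / b) * u / LL κ))) (Ioi 0)) :
    ∫ u in (0 : ℝ)..(b * LL κ), Gf f κ u ≤ Real.exp 2 * Jt f κ (1 / b / LL κ) := by
  set S : Set ℝ := Ioc 0 (b * LL κ) with hS
  have hSsub : S ⊆ Ioi 0 := Ioc_subset_Ioi_self
  have hpt : ∀ u ∈ S, Gf f κ u ≤ Real.exp 2 * (Gf f κ u * Real.exp (-(2 * (1 / b) * u / LL κ))) := by
    intro u hu
    have e1 : 1 ≤ Real.exp 2 * Real.exp (-(2 * (1 / b) * u / LL κ)) := by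
      rw [← Real.exp_add]
      refine Real.one_le_exp ?_
      have : 2 * (1 / b) * u / LL κ ≤ 2 := by
        rw [div_le_iff₀ hL]
        have := hu.2
        have e2 : 2 * (1 / b) * u ≤ 2 * (1 / b) * (b * LL κ) := by gcongr
        have e3 : 2 * (1 / b) * (b * LL κ) = 2 * LL κ := by field_simp
        linarith
      linarith
    have e4 := mul_le_mul_of_nonneg_left e1 (Gf_nonneg f κ u)
    linarith
  rw [← Gf_int, ← integral_const_mul, intervalIntegral.integral_of_le (by positivity)]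
  have hI2 : IntegrableOn (fun u => Real.exp 2 * (Gf f κ u * Real.exp (-(2 * (1 / b) * u / LL κ)))) (Ioi 0) :=
    hI.const_mul (Real.exp 2)
  have h1 : ∫ u in S, Gf f κ u ≤ ∫ u in S, Real.exp 2 * (Gf f κ u * Real.exp (-(2 * (1 / b) * u / LL κ))) := by
    refine setIntegral_mono_on ?_ (hI2.mono_set hSsub) measurableSet_Ioc hpt
    refine (hI2.mono_set hSsub).mono' (Gf_meas hf κ).aestronglyMeasurable ?_
    refine (ae_restrict_mem measurableSet_Ioc).mono fun u hu => ?_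
    rw [Real.norm_of_nonneg (Gf_nonneg _ _ _)]
    exact hpt u hu
  have h2 : ∫ u in S, Real.exp 2 * (Gf f κ u * Real.exp (-(2 * (1 / b) * u / LL κ))) ≤
      ∫ u in Ioi (0 : ℝ), Real.exp 2 * (Gf f κ u * Real.exp (-(2 * (1 / b) * u / LL κ))) := by
    refine setIntegral_mono_set hI2 (Eventually.of_forall fun u => ?_) hSsub.eventuallyLE
    have := Gf_nonneg f κ u
    simp only [Pi.zero_apply]
    positivity
  exact h1.trans h2

/-- the means are bounded -/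
theorem bdd_of_sys (h3 : S_WT) (hs : Sys f m D) (hC : ∃ C : ℝ, ∀ t, ‖f t‖ ≤ C * Real.exp t) :
    ∃ C : ℝ, ∀ b : ℝ, 1 ≤ b → ∀ᶠ T : ℝ in atTop, VT f T b ≤ C * b := by
  obtain ⟨C, κ0, hC0, hκ0, hκ1, h⟩ := Pool.Agent.Q102.CP.t_TB Pool.Agent.Q257.CP.t_KPL h3 f m D hs
  refine ⟨(1 + 1) * (Real.exp 2 * (2 * C)), fun b hb => ?_⟩
  have hb0 : 0 < b := by linarith
  have hM : 0 ≤ Real.exp 2 * (2 * C) * b := by positivity
  have := (Q227.CP.t_KT f hs.meas hC b (Real.exp 2 * (2 * C) * b) 1 hb hM one_pos).2.1 ?_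
  · filter_upwards [this] with T hT
    linarith
  filter_upwards [ev_small, Gf_integrable Pool.Agent.Q257.CP.t_KPL hs (show 0 < 1 / b by positivity),
    Ioc_mem_nhdsGT hκ0, tendsto_LL.eventually_ge_atTop 4] with κ hκ hI hκ2 hL4
  obtain ⟨hκ, hκ1', hL1⟩ := hκ
  have hLp : 0 < LL κ := by linarith
  have hδ : 0 < 1 / b / LL κ := by positivity
  have hδ1 : 1 / b / LL κ ≤ 1 / 4 := by
    rw [div_le_iff₀ hLp]
    have : 1 / b ≤ 1 := by rw [div_le_one hb0]; exact hb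
    linarith
  have h5 := h κ (1 / b / LL κ) hκ hκ2.2 hδ hδ1
  have h6 : ∫ u in (0 : ℝ)..(b * LL κ), Gf f κ u ≤ Real.exp 2 * Jt f κ (1 / b / LL κ) :=
    Gf_fin hs.meas hb0 hLp hI
  have h7 : Jt f κ (1 / b / LL κ) ≤ 2 * C * b * (κ * LL κ ^ 2) := by
    refine h5.trans ?_
    have e1 : C * κ * LL κ * (LL κ + 1 / (1 / b / LL κ)) = C * (1 + b) * (κ * LL κ ^ 2) := by
      field_simp
    rw [e1]
    refine mul_le_mul_of_nonneg_right ?_ (by positivity)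
    nlinarith
  calc ∫ u in (0 : ℝ)..(b * LL κ), ‖f (u + κ) - f u‖ ^ 2 * Real.exp (-u)
      = ∫ u in (0 : ℝ)..(b * LL κ), Gf f κ u := rfl
    _ ≤ Real.exp 2 * Jt f κ (1 / b / LL κ) := h6
    _ ≤ Real.exp 2 * (2 * C * b * (κ * LL κ ^ 2)) := mul_le_mul_of_nonneg_left h7 (Real.exp_pos _).le
    _ = _ := by ring

end Pool.Agent.Q253.CP
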