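import Pool.Agent.Q253.CP.F2

set_option autoImplicit false

/-! # Project CP: the one-sided bound controls close pairs -/

namespace Pool.Agent.Q253.CP

open MeasureTheory Filter Topology Set Complex
open Pool.Agent.Q253.HV Pool.Agent.Q253.LQ

variable {m : ℝ → ℕ} {f : ℝ → ℂ} {D : ℝ}

/-- from `Pool/Agent/Q260/GM/Xd.lean` -/
lemma sin_one_sq' : 2 * Real.pi / 9 ≤ Real.sin 1 ^ 2 := by
  have h1 := Real.sin_bound (x := 1 / 2) (by rw [abs_of_pos] <;> norm_num)
  rw [abs_of_pos (by norm_num : (0 : ℝ) < 1 / 2), abs_le] at h1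
  have h2 : (0.4759 : ℝ) ≤ Real.sin (1 / 2) := by
    have := h1.1
    norm_num at this ⊢
    linarith
  have h3 : Real.cos 1 = 1 - 2 * Real.sin (1 / 2) ^ 2 := by
    have := Real.cos_two_mul (1 / 2)
    have h4 := Real.sin_sq_add_cos_sq (1 / 2)
    have e : (2 : ℝ) * (1 / 2) = 1 := by norm_num
    rw [e] at this
    rw [this]
    linarith
  have h5 : Real.cos 1 ≤ 0.5471 := by
    rw [h3]
    nlinarith
  have h6 : 0 < Real.cos 1 := Real.cos_one_pos
  have h7 := Real.sin_sq_add_cos_sq 1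
  have h8 : Real.cos 1 ^ 2 ≤ 0.2994 := by nlinarith
  have h9 := Real.pi_lt_d4
  have : 2 * Real.pi / 9 ≤ 0.6982 := by linarith
  linarith

lemma far_arith {M ε b : ℝ} (hM : 0 ≤ M) (hε : 0 < ε) (hb : 2 * (M + ε / 2) / ε ≤ b) :
    (1 + ε / (4 * (M + ε))) * ((M + ε / 4) * (b + 1)) ≤ (M + ε) * b := by
  have hb0 : 0 ≤ b := le_trans (by positivity) hb
  have h1 : (1 + ε / (4 * (M + ε))) * (M + ε / 4) ≤ M + ε / 2 := by
    have h2 : ε / (4 * (M + ε)) * (M + ε / 4) ≤ ε / 4 := by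
      rw [div_mul_eq_mul_div, div_le_iff₀ (by positivity)]
      nlinarith
    nlinarith
  have h3 : (M + ε / 2) * (b + 1) ≤ (M + ε) * b := by
    rw [div_le_iff₀ hε] at hb
    nlinarith
  calc (1 + ε / (4 * (M + ε))) * ((M + ε / 4) * (b + 1)) = ((1 + ε / (4 * (M + ε))) * (M + ε / 4)) * (b + 1) := by
        ring
    _ ≤ (M + ε / 2) * (b + 1) := mul_le_mul_of_nonneg_right h1 (by linarith)
    _ ≤ _ := h3

/-- the Laplace means of the increments -/
theorem laplace_upper (h3 : S_WT) (hs : Sys f m D) (hC : ∃ C : ℝ, ∀ t, ‖f t‖ ≤ C * Real.exp t) {M : ℝ} (hM : 0 ≤ M)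
    (hU : ∀ ε : ℝ, 0 < ε → ∃ b0 : ℝ, ∀ b : ℝ, b0 ≤ b → ∀ᶠ T : ℝ in atTop, VT f T b ≤ (M + ε) * b) :
    ∀ ε : ℝ, 0 < ε → ∃ a0 : ℝ, 0 < a0 ∧ ∀ a : ℝ, 0 < a → a ≤ a0 → ∀ᶠ κ : ℝ in 𝓝[>] 0,
      2 * a * Jt f κ (a / LL κ) ≤ (M + ε) * (κ * LL κ ^ 2) := by
  obtain ⟨C, κ0, hC0, hκ0, hκ1, h⟩ := Pool.Agent.Q102.CP.t_TB Pool.Agent.Q257.CP.t_KPL h3 f m D hs
  obtain ⟨C2, hC2⟩ := hs.nr
  have := Q227.CP.t_AB (Gf f) M C2 (2 * C) (Gf_nonneg f) (Gf_meas hs.meas) hM
    (fun a ha => Gf_integrable Pool.Agent.Q257.CP.t_KPL hs ha) ?_ ?_ ?_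
  · simp only [Gf_int] at this
    exact this
  · filter_upwards [ev_small] with κ hκ
    have := hC2 κ hκ.1 hκ.2.1
    rw [← mul_assoc]
    exact this
  · intro ε hε
    obtain ⟨b1, hb1⟩ := hU (ε / 4) (by positivity)
    refine ⟨max (max b1 1) (2 * (M + ε / 2) / ε), fun b hb => ?_⟩
    have hb2 : b1 ≤ b := ((le_max_left _ _).trans (le_max_left _ _)).trans hb
    have hb3 : 1 ≤ b := ((le_max_right _ _).trans (le_max_left _ _)).trans hb
    have hb4 : 2 * (M + ε / 2) / ε ≤ b := (le_max_right _ _).trans hb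
    have h5 := (Q227.CP.t_KT f hs.meas hC b ((M + ε / 4) * (b + 1)) (ε / (4 * (M + ε))) hb3 (by positivity)
      (by positivity)).1 (hb1 (b + 1) (by linarith))
    filter_upwards [h5, ev_small] with κ hκ hκ2
    have h6 := far_arith hM hε hb4
    have h7 : 0 ≤ κ * LL κ ^ 2 := mul_nonneg hκ2.1.le (sq_nonneg _)
    exact hκ.trans (mul_le_mul_of_nonneg_right h6 h7)
  · intro a ha ha1
    filter_upwards [ev_small, Ioc_mem_nhdsGT hκ0, tendsto_LL.eventually_ge_atTop 4] with κ hκ hκ2 hL4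
    obtain ⟨hκ, hκ1', hL1⟩ := hκ
    have hLp : 0 < LL κ := by linarith
    rw [Gf_int]
    have hδ1 : a / LL κ ≤ 1 / 4 := by
      rw [div_le_iff₀ hLp]; linarith
    refine (h κ (a / LL κ) hκ hκ2.2 (by positivity) hδ1).trans ?_
    have e1 : C * κ * LL κ * (LL κ + 1 / (a / LL κ)) = C * (1 + 1 / a) * (κ * LL κ ^ 2) := by
      field_simp
    rw [e1]
    refine mul_le_mul_of_nonneg_right ?_ (by positivity)
    have h5 : 1 ≤ 1 / a := by rw [le_div_iff₀ ha]; linarith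
    have e2 : 2 * C / a = C * (1 / a + 1 / a) := by ring
    rw [e2]
    exact mul_le_mul_of_nonneg_left (by linarith) hC0.le

lemma up1 {ε1 ε2 D η : ℝ} (hε2 : 0 < ε2) (hε21 : ε2 ≤ 1) (hD : 1 ≤ D) (hη : 0 ≤ η)
    (h : ε1 = ε2 / (2 + D + D * η)) : ε1 * (1 + D) + ε1 * (D * η + ε2) ≤ ε2 ∧ 0 < ε1 ∧ ε1 ≤ 1 / 3 := by
  have hp : 0 < 2 + D + D * η := by positivity
  have h1 : ε1 * (2 + D + D * η) = ε2 := by rw [h]; field_simp
  have h2 : 0 < ε1 := by rw [h]; positivity
  refine ⟨?_, h2, ?_⟩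
  · nlinarith
  · rw [h, div_le_iff₀ hp]
    nlinarith [mul_nonneg (by linarith : 0 ≤ D) hη]

lemma up2 {L κ s P D η ε1 ε2 : ℝ} (hL : 0 < L) (hκ : 0 < κ) (h1 : ε1 * (1 + D) + ε1 * (D * η + ε2) ≤ ε2)
    (h2 : ε1 ≤ 1 / 3)
    (h : (1 - ε1) * (D * (κ * L ^ 2) + κ ^ 2 * L * s * P) ≤ (D * (1 + η) + ε1) * (κ * L ^ 2)) :
    κ * s * P ≤ (D * η + ε2) * L := by
  have hk : 0 < κ * L := by positivity
  have h3 : (κ * L) * ((1 - ε1) * (D * L + κ * s * P)) ≤ (κ * L) * ((D * (1 + η) + ε1) * L) := by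
    nlinarith
  have h4 := le_of_mul_le_mul_left h3 hk
  have h5 : (1 - ε1) * (κ * s * P) ≤ (1 - ε1) * ((D * η + ε2) * L) := by
    have h6 : (1 - ε1) * (κ * s * P) ≤ (D * η + ε1 * (1 + D)) * L := by nlinarith
    have h7 : (D * η + ε1 * (1 + D)) * L ≤ (1 - ε1) * (D * η + ε2) * L := by
      refine mul_le_mul_of_nonneg_right ?_ hL.le
      nlinarith
    linarith
  exact le_of_mul_le_mul_left h5 (by linarith)

lemma up3 {η ε ε2 : ℝ} (hη : 0 ≤ η) (hε : 0 < ε) (h : ε2 = min 1 (ε / (9 / 4 * (η + 2)))) :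
    0 < ε2 ∧ ε2 ≤ 1 ∧ 9 / 4 * ((η + ε2) * (1 + ε2)) ≤ 9 / 4 * η + ε := by
  have h1 : 0 < ε2 := by rw [h]; positivity
  have h2 : ε2 ≤ 1 := by rw [h]; exact min_le_left _ _
  have h3 : ε2 ≤ ε / (9 / 4 * (η + 2)) := by rw [h]; exact min_le_right _ _
  rw [le_div_iff₀ (by positivity)] at h3
  refine ⟨h1, h2, ?_⟩
  nlinarith

/-- **the upper bound for the primes bounds the number of close pairs** -/
theorem upper_side (h3 : S_WT) (hs : Sys f m D) (hC : ∃ C : ℝ, ∀ t, ‖f t‖ ≤ C * Real.exp t) {η : ℝ} (hη : 0 ≤ η)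
    (hU : ∀ ε : ℝ, 0 < ε → ∃ b0 : ℝ, ∀ b : ℝ, b0 ≤ b → ∀ᶠ T : ℝ in atTop, VT f T b ≤ (D * (1 + η) + ε) * b) :
    ∀ ε : ℝ, 0 < ε → ∃ β : ℝ, 0 < β ∧ ∀ᶠ U : ℝ in atTop, (Pm m U β : ℝ) ≤ (1 + 9 / 4 * η + ε) * Nm m U := by
  intro ε hε
  have hD := hs.D1
  have hpi := Real.pi_pos
  obtain ⟨hε2, hε21, hfin⟩ := up3 hη hε rfl
  set ε2 : ℝ := min 1 (ε / (9 / 4 * (η + 2))) with hε2d
  obtain ⟨q1, q2, q3⟩ := up1 hε2 hε21 hD hη rfl
  set ε1 : ℝ := ε2 / (2 + D + D * η) with hε1d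
  obtain ⟨a1, ha1, h1⟩ := laplace_upper h3 hs hC (M := D * (1 + η)) (by positivity) hU ε1 q2
  obtain ⟨a2, ha2, h2⟩ := t_LB Pool.Agent.Q257.CP.t_KPL Pool.Agent.Q257.CP.t_KPO h3 f m D hs ε1 q2
  have hmin : 0 < min a1 a2 := lt_min ha1 ha2
  obtain ⟨β, hβ, h4⟩ := h2 (min a1 a2) hmin (min_le_right _ _)
  have h5 := h1 (min a1 a2) hmin (min_le_left _ _)
  refine ⟨β, hβ, ?_⟩
  have hlim : Tendsto (fun U : ℝ => 2 / U) atTop (𝓝[>] 0) := by
    refine tendsto_nhdsWithin_iff.2 ⟨tendsto_const_nhds.div_atTop tendsto_id, ?_⟩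
    filter_upwards [eventually_gt_atTop 0] with U hU
    exact div_pos two_pos hU
  have hnt : ∀ᶠ U : ℝ in atTop, D / Real.pi / (1 + ε2) < (Nm m U : ℝ) / (U * Real.log U) := by
    refine hs.nt.eventually (lt_mem_nhds ?_)
    exact div_lt_self (by positivity) (by linarith)
  filter_upwards [hlim.eventually h4, hlim.eventually h5, hlim.eventually ev_small, hnt, eventually_ge_atTop 4] with
    U g1 g2 g3 g4 g5
  have hU0 : 0 < U := by linarith
  have hlogU : 0 < Real.log U := Real.log_pos (by linarith)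
  obtain ⟨hκ, -, hL⟩ := g3
  set κ : ℝ := 2 / U with hκd
  have e1 : 2 / κ = U := by rw [hκd]; field_simp
  rw [e1] at g1
  set P : ℝ := (Pm m U β : ℝ) - Nm m U with hP
  have hs0 : 2 * Real.pi / 9 ≤ Real.sin 1 ^ 2 := sin_one_sq'
  have hs1 : 0 < Real.sin 1 ^ 2 := lt_of_lt_of_le (by positivity) hs0
  have g6 : κ * Real.sin 1 ^ 2 * P ≤ (D * η + ε2) * LL κ :=
    up2 (by linarith) hκ q1 q3 (g1.trans g2)
  have hLU : LL κ ≤ Real.log U := by
    unfold LL
    refine Real.log_le_log (by positivity) ?_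
    rw [hκd, one_div_div]
    linarith
  have hPN : 0 ≤ P := by
    have := Nm_le_Pm hs.sm U β hβ.le
    rw [hP]; linarith
  have g7 : P * (4 * Real.pi / 9) ≤ (D * η + ε2) * (U * Real.log U) := by
    have h6 : κ * Real.sin 1 ^ 2 * P ≤ (D * η + ε2) * Real.log U :=
      g6.trans (mul_le_mul_of_nonneg_left hLU (by positivity))
    have h7 : κ * (2 * Real.pi / 9) * P ≤ κ * Real.sin 1 ^ 2 * P := by gcongr
    have h8 : U * (κ * (2 * Real.pi / 9) * P) ≤ U * ((D * η + ε2) * Real.log U) :=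
      mul_le_mul_of_nonneg_left (h7.trans h6) hU0.le
    have e2 : U * (κ * (2 * Real.pi / 9) * P) = P * (4 * Real.pi / 9) := by
      rw [hκd]; field_simp; ring
    rw [e2] at h8
    linarith
  have g8 : D * (U * Real.log U) ≤ Real.pi * (1 + ε2) * Nm m U := by
    rw [div_div, div_lt_div_iff₀ (by positivity) (by positivity)] at g4
    linarith
  have g9 : P ≤ 9 / 4 * ((η + ε2) * (1 + ε2)) * Nm m U := by
    have h6 : (D * η + ε2) * (U * Real.log U) ≤ (η + ε2) * (D * (U * Real.log U)) := by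
      have : 0 ≤ U * Real.log U := by positivity
      have h7 : D * η + ε2 ≤ (η + ε2) * D := by nlinarith
      nlinarith [mul_le_mul_of_nonneg_right h7 this]
    have h7 : (η + ε2) * (D * (U * Real.log U)) ≤ (η + ε2) * (Real.pi * (1 + ε2) * Nm m U) :=
      mul_le_mul_of_nonneg_left g8 (by positivity)
    have h8 : P * (4 * Real.pi / 9) ≤ (η + ε2) * (Real.pi * (1 + ε2) * Nm m U) := g7.trans (h6.trans h7)
    have e3 : (η + ε2) * (Real.pi * (1 + ε2) * Nm m U) = (9 / 4 * ((η + ε2) * (1 + ε2)) * Nm m U) * (4 * Real.pi / 9) := by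
      ring
    rw [e3] at h8
    exact le_of_mul_le_mul_right h8 (by positivity)
  have hN0 : (0 : ℝ) ≤ Nm m U := Nat.cast_nonneg _
  have g10 : 9 / 4 * ((η + ε2) * (1 + ε2)) * (Nm m U : ℝ) ≤ (9 / 4 * η + ε) * Nm m U :=
    mul_le_mul_of_nonneg_right hfin hN0
  have : (Pm m U β : ℝ) = P + Nm m U := by rw [hP]; ring
  rw [this]
  linarith

/-- **the converse** -/
theorem lower_side (h3 : S_WT) (hCV : S_CV) (hs : Sys f m D) (hC : ∃ C : ℝ, ∀ t, ‖f t‖ ≤ C * Real.exp t)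
    (hE : ∀ ε : ℝ, 0 < ε → ∃ β : ℝ, 0 < β ∧ ∀ᶠ U : ℝ in atTop, (Pm m U β : ℝ) ≤ (1 + ε) * Nm m U) :
    ∀ ε : ℝ, 0 < ε → ∃ b0 : ℝ, ∀ b : ℝ, b0 ≤ b → ∀ᶠ T : ℝ in atTop, |VT f T b - D * b| ≤ ε * b := by
  have hD := hs.D1
  obtain ⟨C2, hC2⟩ := hs.nr
  have hKA := Q227.CP.t_KA (Gf f) D (Gf_nonneg f) (Gf_meas hs.meas) (by linarith)
    (fun a ha => Gf_integrable Pool.Agent.Q257.CP.t_KPL hs ha) ?_
  · intro ε0 hε0
    set ε : ℝ := min ε0 1 with hεd
    have hε : 0 < ε := lt_min hε0 one_pos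
    have hε1 : ε ≤ 1 := min_le_right _ _
    obtain ⟨b1, hb11, hb1⟩ := hKA (ε / 8) (by positivity)
    set K : ℝ := D + |C2| + 1 with hK
    have hKp : 0 < K := by positivity
    refine ⟨max (b1 + 1) (8 * K / ε + 1), fun b hb => ?_⟩
    have hb2 : b1 + 1 ≤ b := (le_max_left _ _).trans hb
    have hb3 : 8 * K / ε + 1 ≤ b := (le_max_right _ _).trans hb
    have hb4 : 1 ≤ b - 1 := by linarith
    have hb5 : 8 * K ≤ ε * (b - 1) := by
      have := mul_le_mul_of_nonneg_left (show 8 * K / ε ≤ b - 1 by linarith) hε.le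
      rwa [mul_div_cancel₀ _ hε.ne'] at this
    set δ : ℝ := ε / (4 * (D + 1)) with hδd
    have hδ : 0 < δ := by positivity
    have hδD : δ * (D + 1) = ε / 4 := by rw [hδd]; field_simp
    -- upper bound
    have hup := (Q227.CP.t_KT f hs.meas hC b ((D + ε / 8) * b) δ (by linarith)
      (mul_nonneg (by linarith) (by linarith)) hδ).2.1 ?_
    · -- lower bound
      have hlow := (Q227.CP.t_KT f hs.meas hC (b - 1) ((D - ε / 4) * (b - 1)) δ hb4
        (mul_nonneg (by linarith) (by linarith)) hδ).2.2 ?_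
      · filter_upwards [hup, hlow] with T h1 h2
        rw [sub_add_cancel] at h2
        have hb0 : 0 < b := by linarith
        have hee : ε * b ≤ ε0 * b := mul_le_mul_of_nonneg_right (min_le_left _ _) hb0.le
        refine le_trans ?_ hee
        rw [abs_le]
        constructor
        · have h6 : (D - ε) * b ≤ (1 - δ) * ((D - ε / 4) * (b - 1)) := by
            have h7 : (1 - δ) * (D - ε / 4) ≥ D - ε / 2 := by nlinarith [mul_nonneg hδ.le hε.le]
            have h8 : (D - ε / 2) * (b - 1) ≤ (1 - δ) * (D - ε / 4) * (b - 1) :=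
              mul_le_mul_of_nonneg_right h7 (by linarith)
            have h9 : (D - ε) * b ≤ (D - ε / 2) * (b - 1) := by
              have h10 : D ≤ K := by rw [hK]; linarith [abs_nonneg C2]
              nlinarith
            linarith
          linarith
        · have h6 : (1 + δ) * ((D + ε / 8) * b) ≤ (D + ε) * b := by
            have h7 : (1 + δ) * (D + ε / 8) ≤ D + ε := by nlinarith [mul_nonneg hδ.le hε.le]
            calc (1 + δ) * ((D + ε / 8) * b) = (1 + δ) * (D + ε / 8) * b := by ring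
              _ ≤ _ := mul_le_mul_of_nonneg_right h7 hb0.le
          linarith
      · filter_upwards [hb1 (b - 1) (by linarith), ev_small] with κ g1 g2
        obtain ⟨hκ, hκ1, hL1⟩ := g2
        have hLp : 0 < LL κ := by linarith
        have hn := hC2 κ hκ hκ1
        have hii : ∀ x y : ℝ, 0 ≤ x → 0 ≤ y → IntervalIntegrable (Gf f κ) volume x y := by
          intro x y hx hy
          obtain ⟨B, hB⟩ := hC
          have hm := Gf_meas hs.meas κ
          rw [intervalIntegrable_iff]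
          refine Measure.integrableOn_of_bounded (M := (|B| * Real.exp (max x y + κ) + |B| * Real.exp (max x y)) ^ 2)
            measure_Ioc_lt_top.ne hm.aestronglyMeasurable ?_
          refine (ae_restrict_mem measurableSet_uIoc).mono fun u hu => ?_
          have hu1 : u ≤ max x y := (uIoc_subset_uIcc hu).2
          have hu0 : 0 ≤ u := le_trans (le_min hx hy) (uIoc_subset_uIcc hu).1
          rw [Real.norm_of_nonneg (Gf_nonneg _ _ _)]
          unfold Gf
          have h6 : ‖f (u + κ) - f u‖ ≤ |B| * Real.exp (max x y + κ) + |B| * Real.exp (max x y) := by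
            refine (norm_sub_le _ _).trans (add_le_add ?_ ?_)
            · refine (hB _).trans ?_
              calc B * Real.exp (u + κ) ≤ |B| * Real.exp (u + κ) := by
                    exact mul_le_mul_of_nonneg_right (le_abs_self _) (Real.exp_pos _).le
                _ ≤ _ := mul_le_mul_of_nonneg_left (Real.exp_le_exp.2 (by linarith)) (abs_nonneg _)
            · refine (hB _).trans ?_
              calc B * Real.exp u ≤ |B| * Real.exp u := by
                    exact mul_le_mul_of_nonneg_right (le_abs_self _) (Real.exp_pos _).le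
                _ ≤ _ := mul_le_mul_of_nonneg_left (Real.exp_le_exp.2 hu1) (abs_nonneg _)
          have h7 : Real.exp (-u) ≤ 1 := Real.exp_le_one_iff.2 (by linarith)
          calc ‖f (u + κ) - f u‖ ^ 2 * Real.exp (-u) ≤ ‖f (u + κ) - f u‖ ^ 2 * 1 := by gcongr
            _ ≤ _ := by rw [mul_one]; exact pow_le_pow_left₀ (norm_nonneg _) h6 2
        have hsplit : (∫ u in (LL κ)..((b - 1) * LL κ), Gf f κ u) =
            (∫ u in (0 : ℝ)..((b - 1) * LL κ), Gf f κ u) - ∫ u in (0 : ℝ)..(LL κ), Gf f κ u := by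
          rw [← intervalIntegral.integral_add_adjacent_intervals (hii 0 (LL κ) le_rfl hLp.le)
            (hii (LL κ) ((b - 1) * LL κ) hLp.le (by positivity))]
          ring
        have g3 := (abs_le.1 g1).1
        have hq : 0 ≤ κ * LL κ ^ 2 := by positivity
        have hn' : ∫ u in (0 : ℝ)..(LL κ), Gf f κ u ≤ |C2| * (κ * LL κ ^ 2) := by
          refine hn.trans ?_
          rw [mul_assoc]
          exact mul_le_mul_of_nonneg_right (le_abs_self _) hq
        have h6 : |C2| ≤ ε / 8 * (b - 1) := by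
          have : |C2| ≤ K := by rw [hK]; linarith
          linarith
        have h7 : |C2| * (κ * LL κ ^ 2) ≤ ε / 8 * (b - 1) * (κ * LL κ ^ 2) := mul_le_mul_of_nonneg_right h6 hq
        have h8 : (D - ε / 4) * (b - 1) * (κ * LL κ ^ 2) ≤ ∫ u in (LL κ)..((b - 1) * LL κ), Gf f κ u := by
          rw [hsplit]
          linarith
        exact h8
    · filter_upwards [hb1 b (by linarith), ev_small] with κ g1 g2
      have g3 := (abs_le.1 g1).2
      have h8 : ∫ u in (0 : ℝ)..(b * LL κ), Gf f κ u ≤ (D + ε / 8) * b * (κ * LL κ ^ 2) := by linarith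
      exact h8
  · intro ε hε
    obtain ⟨a1, ha1, h1⟩ := hCV f m D hs hE (ε / D) (by positivity)
    obtain ⟨a2, ha2, h2⟩ := t_LB Pool.Agent.Q257.CP.t_KPL Pool.Agent.Q257.CP.t_KPO h3 f m D hs (ε / D) (by positivity)
    refine ⟨min (min a1 a2) 1, by positivity, fun a ha ha0 => ?_⟩
    obtain ⟨β, hβ, h4⟩ := h2 a ha ((ha0.trans (min_le_left _ _)).trans (min_le_right _ _))
    filter_upwards [h1 a ha ((ha0.trans (min_le_left _ _)).trans (min_le_left _ _)), h4, ev_small] with κ g1 g2 g3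
    rw [Gf_int, abs_le]
    obtain ⟨hκ, hκ1, hL1⟩ := g3
    have hq : 0 ≤ κ * LL κ ^ 2 := by positivity
    have hPN : 0 ≤ (Pm m (2 / κ) β : ℝ) - Nm m (2 / κ) := by
      have := Nm_le_Pm hs.sm (2 / κ) β hβ.le
      linarith
    have hL0 : 0 < LL κ := by linarith
    have e1 : ε / D * (D * (κ * LL κ ^ 2)) = ε * (κ * LL κ ^ 2) := by field_simp
    constructor
    · rcases le_total (ε / D) 1 with h5 | h5
      · have h6 : 0 ≤ κ ^ 2 * LL κ * Real.sin 1 ^ 2 * ((Pm m (2 / κ) β : ℝ) - Nm m (2 / κ)) := by positivity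
        have h7 : (1 - ε / D) * (D * (κ * LL κ ^ 2)) ≤ 2 * a * Jt f κ (a / LL κ) := by
          refine le_trans ?_ g2
          exact mul_le_mul_of_nonneg_left (by linarith) (by linarith)
        linarith
      · have h6 : D * (κ * LL κ ^ 2) ≤ ε * (κ * LL κ ^ 2) := by
          rw [← e1]
          have : 0 ≤ D * (κ * LL κ ^ 2) := by positivity
          nlinarith
        have h7 : 0 ≤ 2 * a * Jt f κ (a / LL κ) := by
          have : 0 ≤ Jt f κ (a / LL κ) := by
            unfold Jt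
            exact integral_nonneg fun t => by positivity
          positivity
        linarith
    · linarith

end Pool.Agent.Q253.CP
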