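import Pool.Agent.Q253.CP.F1
import Pool.Agent.Q162.HV.SY

set_option autoImplicit false

/-! # Project CP: zeros in the strip and ordinates -/

namespace Pool.Agent.Q253.CP

open MeasureTheory Filter Topology Set Complex
open Pool.Agent.Q253.HV Pool.Agent.Q253.LQ
open DirichletCharacter (LFunction)

variable {q : ℕ} [NeZero q]

lemma half_re1 (γ : ℝ) : (1 / 2 + (γ : ℂ) * I).re = 1 / 2 := by norm_num

lemma half_im1 (γ : ℝ) : (1 / 2 + (γ : ℂ) * I).im = γ := by norm_num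

lemma half_ne1 (γ : ℝ) : (1 / 2 + (γ : ℂ) * I) ≠ 1 := by
  intro h
  have := congrArg Complex.re h
  rw [half_re1, one_re] at this
  norm_num at this

lemma ord_ne_top (χ : DirichletCharacter ℂ q) {s : ℂ} (hs : s ≠ 1) : analyticOrderAt (LFunction χ) s ≠ ⊤ := by
  classical
  intro h
  rw [analyticOrderAt_eq_top] at h
  have h1 : Pool.Agent.Q257.CP.L1 χ =ᶠ[𝓝 s] 0 := by
    filter_upwards [h, isOpen_ne.mem_nhds hs] with w hw hw1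
    rw [Pool.Agent.Q257.CP.L1_eq χ hw1, hw, mul_zero]
    rfl
  have h5 : AnalyticOnNhd ℂ (Pool.Agent.Q257.CP.L1 χ) univ := fun z _ => (Pool.Agent.Q257.CP.L1_diff χ).analyticAt z
  have h6 := h5.eqOn_of_preconnected_of_eventuallyEq analyticOnNhd_const isPreconnected_univ (mem_univ s) h1
  exact Pool.Agent.Q257.CP.L1_one χ (h6 (mem_univ (1 : ℂ)))

lemma ordNat_iff (χ : DirichletCharacter ℂ q) {s : ℂ} (hs : s ≠ 1) :
    analyticOrderNatAt (LFunction χ) s ≠ 0 ↔ LFunction χ s = 0 := by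
  have h1 := ord_ne_top χ hs
  have h2 := (Pool.Agent.Q14.LQ.LF_an χ hs).analyticOrderAt_eq_zero
  unfold analyticOrderNatAt
  rw [Ne, ENat.toNat_eq_zero, not_or]
  constructor
  · rintro ⟨h3, -⟩
    by_contra h4
    exact h3 (h2.2 h4)
  · intro h3
    exact ⟨fun h4 => h2.1 h4 h3, h1⟩

lemma strip_line {χ : DirichletCharacter ℂ q} (hχ : GRHc χ) {s : ℂ} (h0 : 0 < s.re) (h1 : s.re < 1)
    (hz : LFunction χ s = 0) : s.re = 1 / 2 :=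
  Pool.Agent.Q162.HV.t_SY q χ (fun s h1 h2 => hχ s h1 h2) s h0 h1 hz

lemma ne_one_of_re {s : ℂ} (h1 : s.re < 1) : s ≠ 1 := fun h => by
  rw [h, one_re] at h1; exact lt_irrefl _ h1

/-- order of the product -/
noncomputable def oX (X : Finset (DirichletCharacter ℂ q)) (s : ℂ) : ℕ := ∑ χ ∈ X, analyticOrderNatAt (LFunction χ) s

/-- zeros of the product -/
def zX (X : Finset (DirichletCharacter ℂ q)) (T : ℝ) : Set ℂ :=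
  {s | 0 < s.re ∧ s.re < 1 ∧ |s.im| ≤ T ∧ ∃ χ ∈ X, LFunction χ s = 0}

noncomputable def NX (X : Finset (DirichletCharacter ℂ q)) (T : ℝ) : ℕ := ∑ᶠ s ∈ zX X T, oX X s

noncomputable def PX (X : Finset (DirichletCharacter ℂ q)) (T β : ℝ) : ℕ :=
  ∑ᶠ p ∈ {p : ℂ × ℂ | p.1 ∈ zX X T ∧ p.2 ∈ zX X T ∧ |p.1.im - p.2.im| * Real.log T / (2 * Real.pi) ≤ β},
    oX X p.1 * oX X p.2

noncomputable def BX (X : Finset (DirichletCharacter ℂ q)) (T : ℝ) : ℕ :=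
  ∑ᶠ s ∈ {s : ℂ | s ∈ zX X T ∧ (s.re ≠ 1 / 2 ∨ oX X s ≠ 1)}, oX X s

/-- multiple or shared -/
noncomputable def Bm (m : ℝ → ℕ) (U : ℝ) : ℕ := ∑ᶠ γ ∈ {γ : ℝ | |γ| ≤ U ∧ m γ ≠ 1}, m γ

lemma oX_half (X : Finset (DirichletCharacter ℂ q)) (γ : ℝ) : oX X (1 / 2 + (γ : ℂ) * I) = mX X γ := rfl

lemma mX_ne (X : Finset (DirichletCharacter ℂ q)) (γ : ℝ) :
    mX X γ ≠ 0 ↔ ∃ χ ∈ X, LFunction χ (1 / 2 + (γ : ℂ) * I) = 0 := by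
  unfold mX
  rw [Ne, Finset.sum_eq_zero_iff]
  push Not
  constructor
  · rintro ⟨χ, hχ, h⟩
    exact ⟨χ, hχ, (ordNat_iff χ (half_ne1 γ)).1 h⟩
  · rintro ⟨χ, hχ, h⟩
    exact ⟨χ, hχ, (ordNat_iff χ (half_ne1 γ)).2 h⟩

lemma zX_mem {X : Finset (DirichletCharacter ℂ q)} (hG : ∀ χ ∈ X, GRHc χ) {T : ℝ} {s : ℂ} (hs : s ∈ zX X T) :
    s = 1 / 2 + (s.im : ℂ) * I ∧ |s.im| ≤ T ∧ mX X s.im ≠ 0 := by
  obtain ⟨h0, h1, h2, χ, hχ, h3⟩ := hs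
  have h4 := strip_line (hG χ hχ) h0 h1 h3
  have h5 : s = 1 / 2 + (s.im : ℂ) * I := by
    apply Complex.ext
    · rw [half_re1, h4]
    · rw [half_im1]
  refine ⟨h5, h2, (mX_ne X s.im).2 ⟨χ, hχ, ?_⟩⟩
  rw [← h5]; exact h3

lemma zX_of {X : Finset (DirichletCharacter ℂ q)} {T γ : ℝ} (h : |γ| ≤ T) (h2 : mX X γ ≠ 0) :
    (1 / 2 + (γ : ℂ) * I) ∈ zX X T := by
  refine ⟨by rw [half_re1]; norm_num, by rw [half_re1]; norm_num, by rw [half_im1]; exact h, (mX_ne X γ).1 h2⟩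

lemma NX_eq {X : Finset (DirichletCharacter ℂ q)} (hG : ∀ χ ∈ X, GRHc χ) (T : ℝ) : NX X T = Nm (mX X) T := by
  unfold NX Nm
  have h1 : ∑ᶠ γ ∈ {γ : ℝ | |γ| ≤ T}, mX X γ = ∑ᶠ γ ∈ {γ : ℝ | |γ| ≤ T ∧ mX X γ ≠ 0}, mX X γ := by
    refine finsum_mem_inter_support_eq' _ _ _ fun γ hγ => ?_
    exact ⟨fun h => ⟨h, hγ⟩, fun h => h.1⟩
  rw [h1]
  refine finsum_mem_eq_of_bijOn (fun s : ℂ => s.im) ⟨?_, ?_, ?_⟩ ?_
  · intro s hs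
    exact (zX_mem hG hs).2
  · intro s hs t ht hst
    simp only at hst
    rw [(zX_mem hG hs).1, (zX_mem hG ht).1, hst]
  · rintro γ ⟨h2, h3⟩
    exact ⟨_, zX_of h2 h3, half_im1 γ⟩
  · intro s hs
    conv_lhs => rw [(zX_mem hG hs).1]
    exact oX_half X s.im

lemma BX_eq {X : Finset (DirichletCharacter ℂ q)} (hG : ∀ χ ∈ X, GRHc χ) (T : ℝ) : BX X T = Bm (mX X) T := by
  unfold BX Bm
  have h1 : ∑ᶠ γ ∈ {γ : ℝ | |γ| ≤ T ∧ mX X γ ≠ 1}, mX X γ =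
      ∑ᶠ γ ∈ {γ : ℝ | |γ| ≤ T ∧ mX X γ ≠ 0 ∧ mX X γ ≠ 1}, mX X γ := by
    refine finsum_mem_inter_support_eq' _ _ _ fun γ hγ => ?_
    exact ⟨fun h => ⟨h.1, hγ, h.2⟩, fun h => ⟨h.1, h.2.2⟩⟩
  rw [h1]
  refine finsum_mem_eq_of_bijOn (fun s : ℂ => s.im) ⟨?_, ?_, ?_⟩ ?_
  · rintro s ⟨hs, hs2⟩
    obtain ⟨h2, h3, h4⟩ := zX_mem hG hs
    refine ⟨h3, h4, ?_⟩
    rcases hs2 with h5 | h5
    · exact absurd (by rw [h2, half_re1]) h5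
    · rw [h2, oX_half] at h5
      exact h5
  · rintro s ⟨hs, -⟩ t ⟨ht, -⟩ hst
    simp only at hst
    rw [(zX_mem hG hs).1, (zX_mem hG ht).1, hst]
  · rintro γ ⟨h2, h3, h4⟩
    exact ⟨_, ⟨zX_of h2 h3, Or.inr (by rw [oX_half]; exact h4)⟩, half_im1 γ⟩
  · rintro s ⟨hs, -⟩
    conv_lhs => rw [(zX_mem hG hs).1]
    exact oX_half X s.im

lemma PX_eq {X : Finset (DirichletCharacter ℂ q)} (hG : ∀ χ ∈ X, GRHc χ) (T β : ℝ) : PX X T β = Pm (mX X) T β := by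
  unfold PX Pm
  have h1 : ∑ᶠ p ∈ {p : ℝ × ℝ | |p.1| ≤ T ∧ |p.2| ≤ T ∧ |p.1 - p.2| * Real.log T / (2 * Real.pi) ≤ β},
      mX X p.1 * mX X p.2 = ∑ᶠ p ∈ {p : ℝ × ℝ | (|p.1| ≤ T ∧ mX X p.1 ≠ 0) ∧ (|p.2| ≤ T ∧ mX X p.2 ≠ 0) ∧
        |p.1 - p.2| * Real.log T / (2 * Real.pi) ≤ β}, mX X p.1 * mX X p.2 := by
    refine finsum_mem_inter_support_eq' _ _ _ fun p hp => ?_
    rw [Function.mem_support, Ne, mul_eq_zero, not_or] at hp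
    exact ⟨fun h => ⟨⟨h.1, hp.1⟩, ⟨h.2.1, hp.2⟩, h.2.2⟩, fun h => ⟨h.1.1, h.2.1.1, h.2.2⟩⟩
  rw [h1]
  refine finsum_mem_eq_of_bijOn (fun p : ℂ × ℂ => (p.1.im, p.2.im)) ⟨?_, ?_, ?_⟩ ?_
  · rintro p ⟨h2, h3, h4⟩
    exact ⟨(zX_mem hG h2).2, (zX_mem hG h3).2, h4⟩
  · rintro p ⟨h2, h3, -⟩ p' ⟨h2', h3', -⟩ h
    simp only [Prod.mk.injEq] at h
    refine Prod.ext ?_ ?_
    · rw [(zX_mem hG h2).1, (zX_mem hG h2').1, h.1]
    · rw [(zX_mem hG h3).1, (zX_mem hG h3').1, h.2]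
  · rintro ⟨a, b⟩ ⟨⟨h2, h3⟩, ⟨h4, h5⟩, h6⟩
    refine ⟨(1 / 2 + (a : ℂ) * I, 1 / 2 + (b : ℂ) * I), ⟨zX_of h2 h3, zX_of h4 h5, ?_⟩, ?_⟩
    · rw [half_im1, half_im1]
      exact h6
    · simp only [half_im1]
  · rintro p ⟨h2, h3, -⟩
    conv_lhs => rw [(zX_mem hG h2).1, (zX_mem hG h3).1]
    rfl

variable {m : ℝ → ℕ}

lemma Bm_le (hm : Summable (fun γ : ℝ => (m γ : ℝ) / (1 + γ ^ 2))) (U β : ℝ) (hβ : 0 ≤ β) :
    (Bm m U : ℝ) ≤ (Pm m U β : ℝ) - Nm m U := by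
  classical
  set S := (fin_zeros hm U).toFinset with hS
  have hB : (Bm m U : ℝ) = ∑ γ ∈ S.filter (fun γ => m γ ≠ 1), (m γ : ℝ) := by
    unfold Bm
    rw [finsum_mem_eq_sum_of_inter_support_eq (t := S.filter (fun γ => m γ ≠ 1))]
    · push_cast; rfl
    · ext γ
      simp only [mem_inter_iff, mem_ofPred_eq, Function.mem_support, Finset.coe_filter, hS, Finite.mem_toFinset]
      tauto
  rw [hB, Nm_eq hm, Pm_eq hm, ← Finset.sum_sub_distrib, Finset.sum_filter]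
  refine Finset.sum_le_sum fun γ hγ => ?_
  have h1 : 1 ≤ m γ := Nat.one_le_iff_ne_zero.2 ((fin_zeros hm U).mem_toFinset.1 hγ).2
  have h2 : (m γ : ℝ) ≤ ∑ γ' ∈ (fin_zeros hm U).toFinset.filter
      (fun γ' => |γ - γ'| * Real.log U / (2 * Real.pi) ≤ β), (m γ' : ℝ) := by
    refine Finset.single_le_sum (f := fun γ' => (m γ' : ℝ)) (fun _ _ => Nat.cast_nonneg _) ?_
    rw [Finset.mem_filter]
    refine ⟨hγ, ?_⟩
    rw [sub_self, abs_zero, zero_mul, zero_div]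
    exact hβ
  have h3 : (m γ : ℝ) * (m γ : ℝ) ≤ (m γ : ℝ) * ∑ γ' ∈ (fin_zeros hm U).toFinset.filter
      (fun γ' => |γ - γ'| * Real.log U / (2 * Real.pi) ≤ β), (m γ' : ℝ) :=
    mul_le_mul_of_nonneg_left h2 (Nat.cast_nonneg _)
  have h4 : (1 : ℝ) ≤ m γ := by exact_mod_cast h1
  split_ifs with h5
  · have h6 : (2 : ℝ) ≤ m γ := by
      have : 2 ≤ m γ := by omega
      exact_mod_cast this
    nlinarith
  · nlinarith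

end Pool.Agent.Q253.CP
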