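import Pool.Agent.Q253.CP.F3
import Pool.Agent.Q253.CP.F5
import Pool.Agent.Q257.CP.BG
import Pool.Agent.Q151.LQ.PF
import Pool.Agent.Q227.CP.WT

set_option autoImplicit false

/-! # Project CP: the theorem for a set of characters -/

namespace Pool.Agent.Q253.CP

open MeasureTheory Filter Topology Set Complex
open Pool.Agent.Q253.HV Pool.Agent.Q253.LQ
open DirichletCharacter (LFunction)

variable {q : ℕ} [NeZero q]

theorem main_X (hCV : S_CV) (X : Finset (DirichletCharacter ℂ q)) (hX : X.Nonempty) :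
    (((∀ χ ∈ X, GRHc χ) → ∃ C : ℝ, ∀ b : ℝ, 1 ≤ b → ∀ᶠ T : ℝ in atTop, VT (fX X) T b ≤ C * b) ∧
      ((∀ b : ℝ, 1 < b → ∃ C : ℝ, ∀ᶠ T : ℝ in atTop, VT (fX X) T b ≤ C) → ∀ χ ∈ X, GRHc χ)) ∧
    (∀ η : ℝ, 0 ≤ η → (∀ χ ∈ X, GRHc χ) → (∀ ε : ℝ, 0 < ε → ∃ b0 : ℝ, ∀ b : ℝ, b0 ≤ b → ∀ᶠ T : ℝ in atTop,
        VT (fX X) T b ≤ (X.card * (1 + η) + ε) * b) →
      (∀ ε : ℝ, 0 < ε → ∃ β : ℝ, 0 < β ∧ ∀ᶠ T : ℝ in atTop, (PX X T β : ℝ) ≤ (1 + 9 / 4 * η + ε) * NX X T) ∧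
      (∀ ε : ℝ, 0 < ε → ∀ᶠ T : ℝ in atTop, (BX X T : ℝ) ≤ (9 / 4 * η + ε) * NX X T) ∧
      (η = 0 → ∀ χ ∈ X, ∀ ε : ℝ, 0 < ε → ∀ᶠ T : ℝ in atTop,
        (1 - ε) * (∑ᶠ ρ ∈ SS χ T, ((analyticOrderAt (LFunction χ) ρ).toNat : ℝ)) ≤ (SL χ T).ncard ∧
          ((SL χ T).ncard : ℝ) ≤ (SS χ T).ncard)) ∧
    ((∀ χ ∈ X, GRHc χ) →
      (∀ ε : ℝ, 0 < ε → ∃ β : ℝ, 0 < β ∧ ∀ᶠ T : ℝ in atTop, (PX X T β : ℝ) ≤ (1 + ε) * NX X T) →
      ∀ ε : ℝ, 0 < ε → ∃ b0 : ℝ, ∀ b : ℝ, b0 ≤ b → ∀ᶠ T : ℝ in atTop, |VT (fX X) T b - X.card * b| ≤ ε * b) := by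
  have hPF := Pool.Agent.Q151.LQ.t_PF
  have hWT := Q227.CP.t_WT
  have hsys : (∀ χ ∈ X, GRHc χ) → Sys (fX X) (mX X) X.card := fun hG =>
    sys_X hPF X hX hG (Pool.Agent.Q257.CP.t_BG q X hG)
  refine ⟨⟨fun hG => bdd_of_sys hWT (hsys hG) (fX_le X), fun h => ?_⟩, ?_, ?_⟩
  · exact (Pool.Agent.Q257.CP.t_GR q X (adm_of (fX_meas X) (fX_le X) h)).1
  · intro η hη hG hU
    have hs := hsys hG
    have hmain := upper_side hWT hs (fX_le X) hη hU
    have hB : ∀ ε : ℝ, 0 < ε → ∀ᶠ U : ℝ in atTop, (Bm (mX X) U : ℝ) ≤ (9 / 4 * η + ε) * Nm (mX X) U := by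
      intro ε hε
      obtain ⟨β, hβ, h⟩ := hmain ε hε
      filter_upwards [h] with U hU2
      have := Bm_le hs.sm U β hβ.le
      linarith
    refine ⟨fun ε hε => ?_, fun ε hε => ?_, fun h0 χ hχ ε hε => ?_⟩
    · obtain ⟨β, hβ, h⟩ := hmain ε hε
      refine ⟨β, hβ, ?_⟩
      filter_upwards [h] with T hT
      rw [PX_eq hG, NX_eq hG]
      exact hT
    · filter_upwards [hB ε hε] with T hT
      rw [BX_eq hG, NX_eq hG]
      exact hT
    · subst h0
      refine q1_of hPF hX hG (fun ε hε => ?_) hχ hε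
      filter_upwards [hB ε hε] with U hU2
      linarith
  · intro hG hE
    refine lower_side hWT hCV (hsys hG) (fX_le X) fun ε hε => ?_
    obtain ⟨β, hβ, h⟩ := hE ε hε
    refine ⟨β, hβ, ?_⟩
    filter_upwards [h] with T hT
    rw [PX_eq hG, NX_eq hG] at hT
    exact hT

open Classical in
/-- the characters which are trivial on a subgroup -/
noncomputable def chH (H : Subgroup (ZMod q)ˣ) : Finset (DirichletCharacter ℂ q) :=
  Finset.univ.filter fun χ => ∀ u ∈ H, χ (u : ZMod q) = 1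

lemma mem_chH {H : Subgroup (ZMod q)ˣ} {χ : DirichletCharacter ℂ q} :
    χ ∈ chH H ↔ ∀ u ∈ H, χ (u : ZMod q) = 1 := by
  classical
  unfold chH
  simp only [Finset.mem_filter, Finset.mem_univ, true_and]

lemma one_mem_chH (H : Subgroup (ZMod q)ˣ) : (1 : DirichletCharacter ℂ q) ∈ chH H :=
  mem_chH.2 fun u _ => MulChar.one_apply_coe u

lemma mem_chH_iff {H : Subgroup (ZMod q)ˣ} {χ : DirichletCharacter ℂ q} :
    χ ∈ chH H ↔ MulChar.equivToUnitHom χ ∈ (MonoidHom.domRestrictHom H ℂˣ).ker := by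
  rw [MonoidHom.mem_ker, MonoidHom.domRestrictHom_apply, MonoidHom.domRestrict_eq_one_iff, mem_chH]
  refine forall₂_congr fun u _ => ?_
  rw [← MulChar.coe_equivToUnitHom, Units.val_eq_one]

lemma card_chH (H : Subgroup (ZMod q)ˣ) : (chH H).card = H.index := by
  classical
  have h1 : Nat.card (MonoidHom.domRestrictHom H ℂˣ).ker = H.index := by
    rw [CommGroup.card_domRestrictHom_ker ℂ H]
    rfl
  have h2 : Nat.card {χ // χ ∈ chH H} = Nat.card (MonoidHom.domRestrictHom H ℂˣ).ker :=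
    Nat.card_congr (Equiv.subtypeEquiv MulChar.equivToUnitHom fun χ => mem_chH_iff)
  rw [← h1, ← h2, Nat.card_eq_fintype_card, Fintype.card_coe]

lemma sum_chH (H : Subgroup (ZMod q)ˣ) (a : ZMod q) [Decidable (∃ u ∈ H, (u : ZMod q) = a)] :
    ∑ χ ∈ chH H, χ a = if ∃ u ∈ H, (u : ZMod q) = a then (H.index : ℂ) else 0 := by
  classical
  split_ifs with h
  · obtain ⟨u, hu, rfl⟩ := h
    rw [← card_chH H, Finset.card_eq_sum_ones]
    push_cast
    exact Finset.sum_congr rfl fun χ hχ => mem_chH.1 hχ u hu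
  · by_cases ha : IsUnit a
    · obtain ⟨u, rfl⟩ := ha
      have hu : u ∉ H := fun hu => h ⟨u, hu, rfl⟩
      have h1 := (CommGroup.forall_monoidHom_apply_eq_one_iff ℂ H u).not.2 hu
      push Not at h1
      obtain ⟨φ, hφ, hφu⟩ := h1
      set χ0 : DirichletCharacter ℂ q := MulChar.equivToUnitHom.symm φ with hχ0
      have hv : ∀ v : (ZMod q)ˣ, χ0 (v : ZMod q) = φ v := fun v => MulChar.equivToUnitHom_symm_coe φ v
      have hm : χ0 ∈ chH H := mem_chH.2 fun v hv' => by rw [hv, hφ v hv']; rfl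
      have hne : χ0 (u : ZMod q) ≠ 1 := by
        rw [hv]
        intro h2
        exact hφu (Units.val_eq_one.1 h2)
      have hsum : ∑ χ ∈ chH H, χ (u : ZMod q) = χ0 (u : ZMod q) * ∑ χ ∈ chH H, χ (u : ZMod q) := by
        rw [Finset.mul_sum]
        refine Finset.sum_bij' (fun χ _ => χ0⁻¹ * χ) (fun χ _ => χ0 * χ) ?_ ?_ ?_ ?_ ?_
        · intro χ hχ
          refine mem_chH.2 fun v hv' => ?_
          rw [MulChar.mul_apply, MulChar.inv_apply_eq_inv', mem_chH.1 hm v hv', mem_chH.1 hχ v hv', inv_one, one_mul]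
        · intro χ hχ
          refine mem_chH.2 fun v hv' => ?_
          rw [MulChar.mul_apply, mem_chH.1 hm v hv', mem_chH.1 hχ v hv', one_mul]
        · intro χ _
          rw [mul_inv_cancel_left]
        · intro χ _
          rw [inv_mul_cancel_left]
        · intro χ _
          rw [← MulChar.mul_apply, mul_inv_cancel_left]
      have h3 : (1 - χ0 (u : ZMod q)) * ∑ χ ∈ chH H, χ (u : ZMod q) = 0 := by linear_combination hsum
      rcases mul_eq_zero.1 h3 with h4 | h4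
      · exact absurd (sub_eq_zero.1 h4).symm hne
      · exact h4
    · exact Finset.sum_eq_zero fun χ _ => MulChar.map_nonunit χ ha

open Classical in
/-- the weighted count of prime powers in the classes of `H` -/
noncomputable def psH (H : Subgroup (ZMod q)ˣ) (x : ℝ) : ℝ :=
  ∑ n ∈ (Finset.Icc 1 ⌊x⌋₊).filter (fun n : ℕ => ∃ u ∈ H, (u : ZMod q) = n), ArithmeticFunction.vonMangoldt n

lemma fX_chH (H : Subgroup (ZMod q)ˣ) (t : ℝ) :
    fX (chH H) t = ((H.index * psH H (Real.exp t) - Real.exp t : ℝ) : ℂ) := by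
  classical
  unfold fX
  rw [if_pos (one_mem_chH H)]
  push_cast
  congr 1
  unfold psiC psH
  rw [Finset.sum_comm]
  push_cast
  rw [Finset.sum_filter, Finset.mul_sum]
  refine Finset.sum_congr rfl fun n _ => ?_
  rw [← Finset.mul_sum, sum_chH H (n : ZMod q)]
  split_ifs <;> ring

/-- the variance -/
noncomputable def VH (H : Subgroup (ZMod q)ˣ) (T b : ℝ) : ℝ := T / Real.log T ^ 2 *
  ∫ x in T..(T ^ b), (psH H (x + x / T) - psH H x - x / (H.index * T)) ^ 2 / x ^ 2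

lemma VT_chH (H : Subgroup (ZMod q)ˣ) {T : ℝ} (hT : 0 < T) (b : ℝ) :
    VT (fX (chH H)) T b = (H.index : ℝ) ^ 2 * VH H T b := by
  have hi : (H.index : ℝ) ≠ 0 := by
    have := Subgroup.index_ne_zero_of_finite (H := H)
    exact_mod_cast this
  have key : ∫ x in T..(T ^ b), ‖fX (chH H) (Real.log (x + x / T)) - fX (chH H) (Real.log x)‖ ^ 2 / x ^ 2 =
      ∫ x in T..(T ^ b), (H.index : ℝ) ^ 2 * ((psH H (x + x / T) - psH H x - x / (H.index * T)) ^ 2 / x ^ 2) := by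
    refine intervalIntegral.integral_congr fun x hx => ?_
    have hx0 : 0 < x := by
      have h1 : min T (T ^ b) ≤ x := hx.1
      exact lt_of_lt_of_le (lt_min hT (Real.rpow_pos_of_pos hT b)) h1
    have hx1 : 0 < x + x / T := by positivity
    rw [fX_chH, fX_chH, Real.exp_log hx0, Real.exp_log hx1, ← Complex.ofReal_sub, Complex.norm_real, Real.norm_eq_abs,
      sq_abs]
    field_simp
    ring
  unfold VT VH
  rw [key, intervalIntegral.integral_const_mul]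
  ring

end Pool.Agent.Q253.CP
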