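import Pool.Agent.Q253.CP.F6
import Pool.Agent.Q102.CP.CVf

set_option autoImplicit false

/-! # Project CP: the theorem for subgroups and for single characters -/

namespace Pool.Agent.Q253.CP

open MeasureTheory Filter Topology Set Complex
open Pool.Agent.Q253.HV Pool.Agent.Q253.LQ
open DirichletCharacter (LFunction)

variable {q : ℕ} [NeZero q]

theorem cv : S_CV := Pool.Agent.Q102.CP.t_CV Pool.Agent.Q257.CP.t_KPL Pool.Agent.Q257.CP.t_KPO Q227.CP.t_WT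
  (Pool.Agent.Q102.CP.t_TB Pool.Agent.Q257.CP.t_KPL Q227.CP.t_WT)

lemma VT_ii {f : ℝ → ℂ} (hf : Measurable f) (hC : ∃ C : ℝ, ∀ t, ‖f t‖ ≤ C * Real.exp t) {T x y : ℝ} (hT : 0 < T)
    (hx : 0 < x) (hy : 0 < y) :
    IntervalIntegrable (fun x => ‖f (Real.log (x + x / T)) - f (Real.log x)‖ ^ 2 / x ^ 2) volume x y := by
  obtain ⟨C, hC⟩ := hC
  have hm : Measurable (fun x : ℝ => ‖f (Real.log (x + x / T)) - f (Real.log x)‖ ^ 2 / x ^ 2) := by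
    refine Measurable.div ((Measurable.norm ?_).pow_const 2) (by fun_prop)
    refine (hf.comp ?_).sub (hf.comp Real.measurable_log)
    exact Real.measurable_log.comp (by fun_prop)
  rw [intervalIntegrable_iff]
  refine Measure.integrableOn_of_bounded (M := (|C| * (2 + 1 / T)) ^ 2) measure_Ioc_lt_top.ne hm.aestronglyMeasurable ?_
  refine (ae_restrict_mem measurableSet_uIoc).mono fun z hz => ?_
  have hz0 : 0 < z := lt_of_lt_of_le (lt_min hx hy) (uIoc_subset_uIcc hz).1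
  have hz1 : 0 < z + z / T := by positivity
  rw [Real.norm_of_nonneg (by positivity), div_le_iff₀ (by positivity), ← mul_pow]
  refine pow_le_pow_left₀ (norm_nonneg _) ?_ 2
  refine (norm_sub_le _ _).trans ?_
  have h1 := hC (Real.log (z + z / T))
  have h2 := hC (Real.log z)
  rw [Real.exp_log hz1] at h1
  rw [Real.exp_log hz0] at h2
  have h3 : C * (z + z / T) ≤ |C| * (z + z / T) := mul_le_mul_of_nonneg_right (le_abs_self _) hz1.le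
  have h4 : C * z ≤ |C| * z := mul_le_mul_of_nonneg_right (le_abs_self _) hz0.le
  have e : |C| * (2 + 1 / T) * z = |C| * (z + z / T) + |C| * z := by ring
  rw [e]
  linarith

lemma VT_mono (X : Finset (DirichletCharacter ℂ q)) {T b b' : ℝ} (hT : 2 ≤ T) (hb : 1 ≤ b) (hbb : b ≤ b') :
    VT (fX X) T b ≤ VT (fX X) T b' := by
  have hT0 : 0 < T := by linarith
  have hT1 : 1 ≤ T := by linarith
  unfold VT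
  refine mul_le_mul_of_nonneg_left ?_ (by positivity)
  refine intervalIntegral.integral_mono_interval le_rfl ?_ ?_ ?_ ?_
  · calc T = T ^ (1 : ℝ) := (Real.rpow_one T).symm
      _ ≤ T ^ b := Real.rpow_le_rpow_of_exponent_le hT1 hb
  · exact Real.rpow_le_rpow_of_exponent_le hT1 hbb
  · exact Eventually.of_forall fun x => by simp only [Pi.zero_apply]; positivity
  · exact VT_ii (fX_meas X) (fX_le X) hT0 hT0 (Real.rpow_pos_of_pos hT0 _)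

/-- change of the normalisation -/
theorem main_norm (X : Finset (DirichletCharacter ℂ q)) (hX : X.Nonempty) (c : ℝ) (hc : 0 < c) (V : ℝ → ℝ → ℝ)
    (hV : ∀ T b : ℝ, 0 < T → VT (fX X) T b = c * V T b) (D : ℝ) (hD : D * c = X.card) :
    (((∀ χ ∈ X, GRHc χ) ↔ ∀ b : ℝ, 1 ≤ b → ∃ C : ℝ, ∀ᶠ T : ℝ in atTop, V T b ≤ C) ∧
      ((∀ χ ∈ X, GRHc χ) → ∃ C : ℝ, ∀ b : ℝ, 1 ≤ b → ∀ᶠ T : ℝ in atTop, V T b ≤ C * b)) ∧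
    (∀ η : ℝ, 0 ≤ η → (∀ ε : ℝ, 0 < ε → ∃ b0 : ℝ, ∀ b : ℝ, b0 ≤ b → ∀ᶠ T : ℝ in atTop, V T b ≤ (1 + η + ε) * (b * D)) →
      (∀ χ ∈ X, GRHc χ) ∧
      (∀ ε : ℝ, 0 < ε → ∃ β : ℝ, 0 < β ∧ ∀ᶠ T : ℝ in atTop, (PX X T β : ℝ) ≤ (1 + 9 / 4 * η + ε) * NX X T) ∧
      (∀ ε : ℝ, 0 < ε → ∀ᶠ T : ℝ in atTop, (BX X T : ℝ) ≤ (9 / 4 * η + ε) * NX X T)) ∧
    ((∀ ε : ℝ, 0 < ε → ∃ b0 : ℝ, ∀ b : ℝ, b0 ≤ b → ∀ᶠ T : ℝ in atTop, V T b ≤ (1 + 0 + ε) * (b * D)) ↔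
      (∀ χ ∈ X, GRHc χ) ∧
      ∀ ε : ℝ, 0 < ε → ∃ β : ℝ, 0 < β ∧ ∀ᶠ T : ℝ in atTop, (PX X T β : ℝ) ≤ (1 + ε) * NX X T) ∧
    ((∀ ε : ℝ, 0 < ε → ∃ b0 : ℝ, ∀ b : ℝ, b0 ≤ b → ∀ᶠ T : ℝ in atTop, |V T b - b * D| ≤ ε * (b * D)) ↔
      (∀ χ ∈ X, GRHc χ) ∧
      ∀ ε : ℝ, 0 < ε → ∃ β : ℝ, 0 < β ∧ ∀ᶠ T : ℝ in atTop, (PX X T β : ℝ) ≤ (1 + ε) * NX X T) ∧
    ((∀ ε : ℝ, 0 < ε → ∃ b0 : ℝ, ∀ b : ℝ, b0 ≤ b → ∀ᶠ T : ℝ in atTop, V T b ≤ (1 + 0 + ε) * (b * D)) →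
      ∀ χ ∈ X, ∀ ε : ℝ, 0 < ε → ∀ᶠ T : ℝ in atTop,
        (1 - ε) * (∑ᶠ ρ ∈ SS χ T, ((analyticOrderAt (LFunction χ) ρ).toNat : ℝ)) ≤ (SL χ T).ncard ∧
          ((SL χ T).ncard : ℝ) ≤ (SS χ T).ncard) := by
  obtain ⟨⟨m1, m2⟩, m3, m4⟩ := main_X cv X hX
  have hK : (1 : ℝ) ≤ X.card := by exact_mod_cast hX.card_pos
  have hD0 : 0 < D := by
    by_contra h
    have : D * c ≤ 0 := mul_nonpos_of_nonpos_of_nonneg (not_lt.1 h) hc.le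
    linarith
  have hev : ∀ᶠ T : ℝ in atTop, ∀ b : ℝ, VT (fX X) T b = c * V T b := by
    filter_upwards [eventually_gt_atTop 0] with T hT b using hV T b hT
  -- GRH from bounds for large `b`
  have hg : (∀ b : ℝ, 1 ≤ b → ∃ C : ℝ, ∀ᶠ T : ℝ in atTop, V T b ≤ C) → ∀ χ ∈ X, GRHc χ := by
    intro h
    refine m2 fun b hb => ?_
    obtain ⟨C, hC⟩ := h b hb.le
    refine ⟨c * C, ?_⟩
    filter_upwards [hC, hev] with T h1 h2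
    rw [h2]
    exact mul_le_mul_of_nonneg_left h1 hc.le
  have hup : ∀ η : ℝ, (∀ ε : ℝ, 0 < ε → ∃ b0 : ℝ, ∀ b : ℝ, b0 ≤ b → ∀ᶠ T : ℝ in atTop, V T b ≤ (1 + η + ε) * (b * D)) →
      (∀ ε : ℝ, 0 < ε → ∃ b0 : ℝ, ∀ b : ℝ, b0 ≤ b → ∀ᶠ T : ℝ in atTop, VT (fX X) T b ≤ (X.card * (1 + η) + ε) * b) := by
    intro η h ε hε
    obtain ⟨b0, hb0⟩ := h (ε / X.card) (by positivity)
    refine ⟨b0, fun b hb => ?_⟩
    filter_upwards [hb0 b hb, hev] with T h1 h2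
    rw [h2]
    refine (mul_le_mul_of_nonneg_left h1 hc.le).trans (le_of_eq ?_)
    rw [show c * ((1 + η + ε / X.card) * (b * D)) = (1 + η + ε / X.card) * b * (D * c) by ring, hD]
    field_simp
  -- monotonicity in `b`
  have hmono : ∀ b b' : ℝ, 1 ≤ b → b ≤ b' → ∀ᶠ T : ℝ in atTop, VT (fX X) T b ≤ VT (fX X) T b' := by
    intro b b' hb hbb
    filter_upwards [eventually_ge_atTop 2] with T hT
    exact VT_mono X hT hb hbb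
  have hgU : ∀ η : ℝ, (∀ ε : ℝ, 0 < ε → ∃ b0 : ℝ, ∀ b : ℝ, b0 ≤ b → ∀ᶠ T : ℝ in atTop, V T b ≤ (1 + η + ε) * (b * D)) →
      ∀ χ ∈ X, GRHc χ := by
    intro η h
    refine m2 fun b hb => ?_
    obtain ⟨b0, hb0⟩ := hup η h 1 one_pos
    refine ⟨(X.card * (1 + η) + 1) * max b b0, ?_⟩
    filter_upwards [hb0 (max b b0) (le_max_right _ _), hmono b (max b b0) hb.le (le_max_left _ _)] with T h1 h2
    exact h2.trans h1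
  have hbdd : (∀ χ ∈ X, GRHc χ) → ∃ C : ℝ, ∀ b : ℝ, 1 ≤ b → ∀ᶠ T : ℝ in atTop, V T b ≤ C * b := by
    intro h
    obtain ⟨C, hC⟩ := m1 h
    refine ⟨C / c, fun b hb => ?_⟩
    filter_upwards [hC b hb, hev] with T h1 h2
    rw [h2] at h1
    rw [div_mul_eq_mul_div, le_div_iff₀ hc]
    linarith
  have hasy : ((∀ χ ∈ X, GRHc χ) ∧
      ∀ ε : ℝ, 0 < ε → ∃ β : ℝ, 0 < β ∧ ∀ᶠ T : ℝ in atTop, (PX X T β : ℝ) ≤ (1 + ε) * NX X T) →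
      (∀ ε : ℝ, 0 < ε → ∃ b0 : ℝ, ∀ b : ℝ, b0 ≤ b → ∀ᶠ T : ℝ in atTop, |V T b - b * D| ≤ ε * (b * D)) := by
    rintro ⟨h1, h2⟩ ε hε
    obtain ⟨b0, hb0⟩ := m4 h1 h2 (ε * X.card) (by positivity)
    refine ⟨b0, fun b hb => ?_⟩
    filter_upwards [hb0 b hb, hev] with T h3 h4
    rw [h4, ← hD] at h3
    have e : c * V T b - D * c * b = c * (V T b - b * D) := by ring
    rw [e, abs_mul, abs_of_pos hc] at h3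
    have h5 : c * |V T b - b * D| ≤ c * (ε * (b * D)) := by linarith
    exact le_of_mul_le_mul_left h5 hc
  have hasy_up : (∀ ε : ℝ, 0 < ε → ∃ b0 : ℝ, ∀ b : ℝ, b0 ≤ b → ∀ᶠ T : ℝ in atTop, |V T b - b * D| ≤ ε * (b * D)) →
      (∀ ε : ℝ, 0 < ε → ∃ b0 : ℝ, ∀ b : ℝ, b0 ≤ b → ∀ᶠ T : ℝ in atTop, V T b ≤ (1 + 0 + ε) * (b * D)) := by
    intro h ε hε
    obtain ⟨b0, hb0⟩ := h ε hε
    refine ⟨b0, fun b hb => ?_⟩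
    filter_upwards [hb0 b hb] with T h1
    have := (abs_le.1 h1).2
    linarith
  have hess : (∀ ε : ℝ, 0 < ε → ∃ b0 : ℝ, ∀ b : ℝ, b0 ≤ b → ∀ᶠ T : ℝ in atTop, V T b ≤ (1 + 0 + ε) * (b * D)) →
      (∀ χ ∈ X, GRHc χ) ∧
      ∀ ε : ℝ, 0 < ε → ∃ β : ℝ, 0 < β ∧ ∀ᶠ T : ℝ in atTop, (PX X T β : ℝ) ≤ (1 + ε) * NX X T := by
    intro h
    have h1 := hgU 0 h
    refine ⟨h1, fun ε hε => ?_⟩
    obtain ⟨β, hβ, h2⟩ := (m3 0 le_rfl h1 (hup 0 h)).1 ε hε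
    refine ⟨β, hβ, ?_⟩
    filter_upwards [h2] with T hT
    rw [mul_zero, add_zero] at hT
    exact hT
  refine ⟨⟨⟨fun h b hb => ?_, hg⟩, hbdd⟩, fun η hη h => ?_, ⟨hess, fun h => hasy_up (hasy h)⟩,
    ⟨fun h => hess (hasy_up h), hasy⟩, fun h χ hχ ε hε => ?_⟩
  · obtain ⟨C, hC⟩ := hbdd h
    exact ⟨C * b, hC b hb⟩
  · have h1 := hgU η h
    obtain ⟨a1, a2, -⟩ := m3 η hη h1 (hup η h)
    exact ⟨h1, a1, a2⟩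
  · exact (m3 0 le_rfl (hgU 0 h) (hup 0 h)).2.2 rfl χ hχ ε hε

/-- the theorem for a subgroup -/
theorem main_H (H : Subgroup (ZMod q)ˣ) :
    (((∀ χ ∈ chH H, GRHc χ) ↔ ∀ b : ℝ, 1 ≤ b → ∃ C : ℝ, ∀ᶠ T : ℝ in atTop, VH H T b ≤ C) ∧
      ((∀ χ ∈ chH H, GRHc χ) → ∃ C : ℝ, ∀ b : ℝ, 1 ≤ b → ∀ᶠ T : ℝ in atTop, VH H T b ≤ C * b)) ∧
    (∀ η : ℝ, 0 ≤ η →
      (∀ ε : ℝ, 0 < ε → ∃ b0 : ℝ, ∀ b : ℝ, b0 ≤ b → ∀ᶠ T : ℝ in atTop, VH H T b ≤ (1 + η + ε) * (b / H.index)) →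
      (∀ χ ∈ chH H, GRHc χ) ∧
      (∀ ε : ℝ, 0 < ε → ∃ β : ℝ, 0 < β ∧ ∀ᶠ T : ℝ in atTop, (PX (chH H) T β : ℝ) ≤ (1 + 9 / 4 * η + ε) * NX (chH H) T) ∧
      (∀ ε : ℝ, 0 < ε → ∀ᶠ T : ℝ in atTop, (BX (chH H) T : ℝ) ≤ (9 / 4 * η + ε) * NX (chH H) T)) ∧
    ((∀ ε : ℝ, 0 < ε → ∃ b0 : ℝ, ∀ b : ℝ, b0 ≤ b → ∀ᶠ T : ℝ in atTop, VH H T b ≤ (1 + 0 + ε) * (b / H.index)) ↔
      (∀ χ ∈ chH H, GRHc χ) ∧
      ∀ ε : ℝ, 0 < ε → ∃ β : ℝ, 0 < β ∧ ∀ᶠ T : ℝ in atTop, (PX (chH H) T β : ℝ) ≤ (1 + ε) * NX (chH H) T) ∧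
    ((∀ ε : ℝ, 0 < ε → ∃ b0 : ℝ, ∀ b : ℝ, b0 ≤ b → ∀ᶠ T : ℝ in atTop,
        |VH H T b - b / H.index| ≤ ε * (b / H.index)) ↔
      (∀ χ ∈ chH H, GRHc χ) ∧
      ∀ ε : ℝ, 0 < ε → ∃ β : ℝ, 0 < β ∧ ∀ᶠ T : ℝ in atTop, (PX (chH H) T β : ℝ) ≤ (1 + ε) * NX (chH H) T) ∧
    ((∀ ε : ℝ, 0 < ε → ∃ b0 : ℝ, ∀ b : ℝ, b0 ≤ b → ∀ᶠ T : ℝ in atTop, VH H T b ≤ (1 + 0 + ε) * (b / H.index)) →
      ∀ χ ∈ chH H, ∀ ε : ℝ, 0 < ε → ∀ᶠ T : ℝ in atTop,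
        (1 - ε) * (∑ᶠ ρ ∈ SS χ T, ((analyticOrderAt (LFunction χ) ρ).toNat : ℝ)) ≤ (SL χ T).ncard ∧
          ((SL χ T).ncard : ℝ) ≤ (SS χ T).ncard) := by
  have hi : (0 : ℝ) < H.index := by
    have := Nat.pos_of_ne_zero (Subgroup.index_ne_zero_of_finite (H := H))
    exact_mod_cast this
  have h := main_norm (chH H) ⟨1, one_mem_chH H⟩ ((H.index : ℝ) ^ 2) (by positivity) (VH H)
    (fun T b hT => VT_chH H hT b) (1 / H.index) (by rw [card_chH]; field_simp)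
  simp only [mul_one_div] at h
  exact h

/-- the theorem for one character -/
noncomputable def V1 (χ : DirichletCharacter ℂ q) (T b : ℝ) : ℝ := T / Real.log T ^ 2 *
  ∫ x in T..(T ^ b), ‖psiC χ (x + x / T) - psiC χ x -
    (open Classical in if χ = 1 then ((x / T : ℝ) : ℂ) else 0)‖ ^ 2 / x ^ 2

lemma VT_one (χ : DirichletCharacter ℂ q) {T : ℝ} (hT : 0 < T) (b : ℝ) : VT (fX {χ}) T b = 1 * V1 χ T b := by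
  classical
  have key : ∫ x in T..(T ^ b), ‖fX {χ} (Real.log (x + x / T)) - fX {χ} (Real.log x)‖ ^ 2 / x ^ 2 =
      ∫ x in T..(T ^ b), ‖psiC χ (x + x / T) - psiC χ x -
        (if χ = 1 then ((x / T : ℝ) : ℂ) else 0)‖ ^ 2 / x ^ 2 := by
    refine intervalIntegral.integral_congr fun x hx => ?_
    have hx0 : 0 < x := by
      have h1 : min T (T ^ b) ≤ x := hx.1
      exact lt_of_lt_of_le (lt_min hT (Real.rpow_pos_of_pos hT b)) h1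
    have hx1 : 0 < x + x / T := by positivity
    have e : fX {χ} (Real.log (x + x / T)) - fX {χ} (Real.log x) = psiC χ (x + x / T) - psiC χ x -
        (if χ = 1 then ((x / T : ℝ) : ℂ) else 0) := by
      unfold fX
      rw [Finset.sum_singleton, Finset.sum_singleton, Real.exp_log hx0, Real.exp_log hx1]
      simp only [Finset.mem_singleton, eq_comm (a := (1 : DirichletCharacter ℂ q))]
      split_ifs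
      · push_cast; ring
      · ring
    simp only [e]
  unfold VT V1
  rw [key, one_mul]

theorem main_one (χ : DirichletCharacter ℂ q) :
    ((GRHc χ ↔ ∀ b : ℝ, 1 ≤ b → ∃ C : ℝ, ∀ᶠ T : ℝ in atTop, V1 χ T b ≤ C) ∧
      (GRHc χ → ∃ C : ℝ, ∀ b : ℝ, 1 ≤ b → ∀ᶠ T : ℝ in atTop, V1 χ T b ≤ C * b)) ∧
    (∀ η : ℝ, 0 ≤ η →
      (∀ ε : ℝ, 0 < ε → ∃ b0 : ℝ, ∀ b : ℝ, b0 ≤ b → ∀ᶠ T : ℝ in atTop, V1 χ T b ≤ (1 + η + ε) * b) →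
      GRHc χ ∧
      (∀ ε : ℝ, 0 < ε → ∃ β : ℝ, 0 < β ∧ ∀ᶠ T : ℝ in atTop, (PX {χ} T β : ℝ) ≤ (1 + 9 / 4 * η + ε) * NX {χ} T) ∧
      (∀ ε : ℝ, 0 < ε → ∀ᶠ T : ℝ in atTop, (BX {χ} T : ℝ) ≤ (9 / 4 * η + ε) * NX {χ} T)) ∧
    ((∀ ε : ℝ, 0 < ε → ∃ b0 : ℝ, ∀ b : ℝ, b0 ≤ b → ∀ᶠ T : ℝ in atTop, V1 χ T b ≤ (1 + 0 + ε) * b) ↔
      GRHc χ ∧
      ∀ ε : ℝ, 0 < ε → ∃ β : ℝ, 0 < β ∧ ∀ᶠ T : ℝ in atTop, (PX {χ} T β : ℝ) ≤ (1 + ε) * NX {χ} T) ∧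
    ((∀ ε : ℝ, 0 < ε → ∃ b0 : ℝ, ∀ b : ℝ, b0 ≤ b → ∀ᶠ T : ℝ in atTop, |V1 χ T b - b| ≤ ε * b) ↔
      GRHc χ ∧
      ∀ ε : ℝ, 0 < ε → ∃ β : ℝ, 0 < β ∧ ∀ᶠ T : ℝ in atTop, (PX {χ} T β : ℝ) ≤ (1 + ε) * NX {χ} T) ∧
    ((∀ ε : ℝ, 0 < ε → ∃ b0 : ℝ, ∀ b : ℝ, b0 ≤ b → ∀ᶠ T : ℝ in atTop, V1 χ T b ≤ (1 + 0 + ε) * b) →
      ∀ ε : ℝ, 0 < ε → ∀ᶠ T : ℝ in atTop,
        (1 - ε) * (∑ᶠ ρ ∈ SS χ T, ((analyticOrderAt (LFunction χ) ρ).toNat : ℝ)) ≤ (SL χ T).ncard ∧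
          ((SL χ T).ncard : ℝ) ≤ (SS χ T).ncard) := by
  have h := main_norm ({χ} : Finset (DirichletCharacter ℂ q)) ⟨χ, Finset.mem_singleton_self χ⟩ 1 one_pos (V1 χ)
    (fun T b hT => VT_one χ hT b) 1 (by simp)
  simp only [Finset.mem_singleton, forall_eq, mul_one] at h
  exact h

end Pool.Agent.Q253.CP
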