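import Pool.Agent.Q253.CP.A2

set_option autoImplicit false

/-! # Project CP: the lower bound -/

namespace Pool.Agent.Q253.CP

open MeasureTheory Filter Topology Set Complex
open Pool.Agent.Q253.HV Pool.Agent.Q253.LQ

variable {m : ℝ → ℕ} {f : ℝ → ℂ} {D : ℝ}

lemma sq_low (h1 : S_KPL) (h3 : S_WT) (hs : Sys f m D) : ∃ C : ℝ, 0 ≤ C ∧ ∀ κ δ e : ℝ, 0 < κ → κ ≤ 1 / 4 →
    0 < δ → δ ≤ 1 / 4 → 0 < e → e ≤ 1 → Integrable (fun y => ZZ m δ y ^ 2 * hh κ (1 / 2 + δ) y) ∧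
    (1 / Real.pi) * ((1 - e) * (∫ y, ZZ m δ y ^ 2 * hh κ (1 / 2 + δ) y) - C / e * (κ * LL κ ^ 2)) ≤ Jt f κ δ := by
  obtain ⟨C1, hC1⟩ := hs.rl
  obtain ⟨C2, hC2, hK⟩ := h1
  obtain ⟨C3, hC3, hW⟩ := h3
  obtain ⟨B, hB0, hB⟩ := hs.bdd
  have hD := hs.D1
  have hpi := Real.pi_pos
  refine ⟨D ^ 2 / 2 * C3 + 2 * C1 ^ 2 * (2 * Real.pi + C3) + Real.pi * (C2 * B ^ 2), by positivity, ?_⟩
  intro κ δ e hκ hκ1 hδ hδ1 he he1
  obtain ⟨⟨hc, hi, hi'⟩, -, ⟨hl, hl'⟩, -, -, -⟩ := hW κ (1 / 2 + δ) hκ hκ1 (by linarith) (by linarith)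
  obtain ⟨-, hk, hk'⟩ := hK f B κ (1 / 2 + δ) hs.adm hB0 (fun t ht ht1 => hB t ht (by linarith)) hκ (by linarith)
    (by linarith) (by linarith)
  have hJ : Jt f κ δ = ∫ t in Ioi (0 : ℝ), ‖f (t + κ) - f t‖ ^ 2 * Real.exp (-(2 * (1 / 2 + δ) * t)) := by
    unfold Jt
    congr 1
    funext t
    ring_nf
  rw [← hJ] at hk'
  set G : ℝ → ℝ := fun y => D ^ 2 / 2 * Real.log (2 + |y|) ^ 2 + 2 * C1 ^ 2 with hG
  set r : ℝ → ℝ := fun y => (ld f (pt (1 / 2 + δ) y)).re with hr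
  have hg : ∀ y, (ZZ m δ y - r y) ^ 2 ≤ G y := by
    intro y
    have h4 := hC1 δ y hδ hδ1
    have h5 : |ZZ m δ y - r y| ≤ D / 2 * Real.log (2 + |y|) + |C1| := by
      have e1 : ZZ m δ y - r y = D / 2 * Real.log (2 + |y|) -
          ((ld f (pt (1 / 2 + δ) y)).re - (ZZ m δ y - D / 2 * Real.log (2 + |y|))) := by rw [hr]; ring
      rw [e1]
      refine (abs_sub _ _).trans (add_le_add ?_ (h4.trans (le_abs_self _)))
      rw [abs_of_nonneg]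
      have : 0 ≤ Real.log (2 + |y|) := Real.log_nonneg (by have := abs_nonneg y; linarith)
      positivity
    have h6 : (ZZ m δ y - r y) ^ 2 ≤ (D / 2 * Real.log (2 + |y|) + |C1|) ^ 2 := by
      rw [← sq_abs (ZZ m δ y - r y)]
      exact pow_le_pow_left₀ (abs_nonneg _) h5 2
    have h7 : (D / 2 * Real.log (2 + |y|) + |C1|) ^ 2 ≤ G y := by
      rw [hG]
      nlinarith [sq_nonneg (D / 2 * Real.log (2 + |y|) - |C1|), sq_abs C1]
    exact h6.trans h7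
  have hGi : Integrable (fun y => G y * hh κ (1 / 2 + δ) y) := by
    have e1 : (fun y => G y * hh κ (1 / 2 + δ) y) = fun y =>
        D ^ 2 / 2 * (Real.log (2 + |y|) ^ 2 * hh κ (1 / 2 + δ) y) + 2 * C1 ^ 2 * hh κ (1 / 2 + δ) y := by
      funext y; rw [hG]; ring
    rw [e1]
    exact (hl.const_mul _).add (hi.const_mul _)
  have hGI : ∫ y, G y * hh κ (1 / 2 + δ) y ≤ (D ^ 2 / 2 * C3 + 2 * C1 ^ 2 * (2 * Real.pi + C3)) * (κ * LL κ ^ 2) := by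
    have e1 : (fun y => G y * hh κ (1 / 2 + δ) y) = fun y =>
        D ^ 2 / 2 * (Real.log (2 + |y|) ^ 2 * hh κ (1 / 2 + δ) y) + 2 * C1 ^ 2 * hh κ (1 / 2 + δ) y := by
      funext y; rw [hG]; ring
    rw [e1, integral_add (hl.const_mul _) (hi.const_mul _), integral_const_mul, integral_const_mul]
    have hL := LL_ge_one hκ hκ1
    have h5 : ∫ y, hh κ (1 / 2 + δ) y ≤ (2 * Real.pi + C3) * (κ * LL κ ^ 2) := by
      have h51 := (abs_le.1 hi').2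
      have h6 : C3 * κ ^ 2 ≤ C3 * κ := by
        refine mul_le_mul_of_nonneg_left ?_ hC3.le
        nlinarith
      have h7 : κ ≤ κ * LL κ ^ 2 := by
        have := one_le_pow₀ (n := 2) hL
        nlinarith
      have h8 : ∫ y, hh κ (1 / 2 + δ) y ≤ (2 * Real.pi + C3) * κ := by nlinarith
      exact h8.trans (mul_le_mul_of_nonneg_left h7 (by positivity))
    have h9 : D ^ 2 / 2 * (∫ y, Real.log (2 + |y|) ^ 2 * hh κ (1 / 2 + δ) y) ≤ D ^ 2 / 2 * (C3 * κ * LL κ ^ 2) :=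
      mul_le_mul_of_nonneg_left hl' (by positivity)
    have h10 : 2 * C1 ^ 2 * (∫ y, hh κ (1 / 2 + δ) y) ≤ 2 * C1 ^ 2 * ((2 * Real.pi + C3) * (κ * LL κ ^ 2)) :=
      mul_le_mul_of_nonneg_left h5 (by positivity)
    linarith
  have hZi : Integrable (fun y => ZZ m δ y ^ 2 * hh κ (1 / 2 + δ) y) := by
    refine ((hk.const_mul 2).add (hGi.const_mul 2)).mono'
      ((((ZZ_cont hs.sm hδ).pow 2).mul hc).aestronglyMeasurable) (Eventually.of_forall fun y => ?_)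
    rw [Real.norm_of_nonneg (mul_nonneg (sq_nonneg _) (hh_nonneg _ _ _))]
    simp only [Pi.add_apply]
    have h5 : ZZ m δ y ^ 2 ≤ 2 * r y ^ 2 + 2 * G y := by
      have := hg y
      nlinarith [sq_nonneg (ZZ m δ y - 2 * r y)]
    calc ZZ m δ y ^ 2 * hh κ (1 / 2 + δ) y ≤ (2 * r y ^ 2 + 2 * G y) * hh κ (1 / 2 + δ) y :=
          mul_le_mul_of_nonneg_right h5 (hh_nonneg _ _ _)
      _ = _ := by rw [hr]; ring
  refine ⟨hZi, ?_⟩
  have hmain : (1 - e) * (∫ y, ZZ m δ y ^ 2 * hh κ (1 / 2 + δ) y) - 1 / e * (∫ y, G y * hh κ (1 / 2 + δ) y) ≤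
      ∫ y, r y ^ 2 * hh κ (1 / 2 + δ) y := by
    rw [← integral_const_mul, ← integral_const_mul, ← integral_sub (hZi.const_mul _) (hGi.const_mul _)]
    refine integral_mono ((hZi.const_mul _).sub (hGi.const_mul _)) hk fun y => ?_
    simp only
    have h5 : (1 - e) * ZZ m δ y ^ 2 - 1 / e * G y ≤ r y ^ 2 := by
      have h6 : 1 / e * (ZZ m δ y - r y) ^ 2 ≤ 1 / e * G y := mul_le_mul_of_nonneg_left (hg y) (by positivity)
      have h7 : (1 - e) * ZZ m δ y ^ 2 - 1 / e * (ZZ m δ y - r y) ^ 2 ≤ r y ^ 2 := by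
        set x := ZZ m δ y
        set g := x - r y with hgdef
        have e1 : r y = x - g := by rw [hgdef]; ring
        rw [e1]
        have h8 : 0 ≤ e * (x - g / e) ^ 2 := by positivity
        have h9 : e * (x - g / e) ^ 2 = e * x ^ 2 - 2 * x * g + 1 / e * g ^ 2 := by
          field_simp
          ring
        nlinarith [sq_nonneg g]
      linarith
    calc (1 - e) * (ZZ m δ y ^ 2 * hh κ (1 / 2 + δ) y) - 1 / e * (G y * hh κ (1 / 2 + δ) y)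
        = ((1 - e) * ZZ m δ y ^ 2 - 1 / e * G y) * hh κ (1 / 2 + δ) y := by ring
      _ ≤ r y ^ 2 * hh κ (1 / 2 + δ) y := mul_le_mul_of_nonneg_right h5 (hh_nonneg _ _ _)
  have hL := LL_ge_one hκ hκ1
  have h5 : C2 * B ^ 2 * κ ≤ 1 / Real.pi * (Real.pi * (C2 * B ^ 2) / e * (κ * LL κ ^ 2)) := by
    have h7 : κ ≤ κ * LL κ ^ 2 := by
      have := one_le_pow₀ (n := 2) hL
      nlinarith
    have h8 : 1 / Real.pi * (Real.pi * (C2 * B ^ 2) / e * (κ * LL κ ^ 2)) = C2 * B ^ 2 * (κ * LL κ ^ 2) / e := by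
      field_simp
    rw [h8, le_div_iff₀ he]
    have h9 : C2 * B ^ 2 * κ * e ≤ C2 * B ^ 2 * κ * 1 := mul_le_mul_of_nonneg_left he1 (by positivity)
    have h10 : C2 * B ^ 2 * κ ≤ C2 * B ^ 2 * (κ * LL κ ^ 2) := mul_le_mul_of_nonneg_left h7 (by positivity)
    linarith
  have h6 := (abs_le.1 hk').1
  have h11 : 1 / e * (∫ y, G y * hh κ (1 / 2 + δ) y) ≤
      1 / e * ((D ^ 2 / 2 * C3 + 2 * C1 ^ 2 * (2 * Real.pi + C3)) * (κ * LL κ ^ 2)) :=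
    mul_le_mul_of_nonneg_left hGI (by positivity)
  have h12 : 1 / Real.pi * ((1 - e) * (∫ y, ZZ m δ y ^ 2 * hh κ (1 / 2 + δ) y) -
      1 / e * ((D ^ 2 / 2 * C3 + 2 * C1 ^ 2 * (2 * Real.pi + C3)) * (κ * LL κ ^ 2))) ≤
      1 / Real.pi * ∫ y, r y ^ 2 * hh κ (1 / 2 + δ) y :=
    mul_le_mul_of_nonneg_left (by linarith) (by positivity)
  have e2 : 1 / Real.pi * ((1 - e) * (∫ y, ZZ m δ y ^ 2 * hh κ (1 / 2 + δ) y) -
      (D ^ 2 / 2 * C3 + 2 * C1 ^ 2 * (2 * Real.pi + C3) + Real.pi * (C2 * B ^ 2)) / e * (κ * LL κ ^ 2)) =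
      1 / Real.pi * ((1 - e) * (∫ y, ZZ m δ y ^ 2 * hh κ (1 / 2 + δ) y) -
      1 / e * ((D ^ 2 / 2 * C3 + 2 * C1 ^ 2 * (2 * Real.pi + C3)) * (κ * LL κ ^ 2))) -
      1 / Real.pi * (Real.pi * (C2 * B ^ 2) / e * (κ * LL κ ^ 2)) := by ring
  rw [e2]
  linarith

lemma tendsto_LL : Tendsto LL (𝓝[>] 0) atTop := by
  have h1 : Tendsto (fun κ : ℝ => 1 / κ) (𝓝[>] 0) atTop := by
    simpa [one_div] using tendsto_inv_nhdsGT_zero (𝕜 := ℝ)
  exact Real.tendsto_log_atTop.comp h1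

lemma x1 {e δ : ℝ} (he : e ≤ 1 / 16) (hδ : 0 < δ) (hδ1 : δ ≤ 1 / 5) : (1 + e) * δ ≤ 1 / 4 := by nlinarith

lemma x2 {e : ℝ} (he0 : 0 < e) : 1 - 5 * e ≤ (1 - e) / (1 + 4 * e) := by
  rw [le_div_iff₀ (by positivity)]
  nlinarith [sq_nonneg e]

lemma x3 {e : ℝ} (he0 : 0 < e) : 1 - 2 * e ≤ 2 / ((1 + e) * (2 + e)) := by
  rw [le_div_iff₀ (by positivity)]
  nlinarith [sq_nonneg e, pow_pos he0 3]

lemma x4 (ε : ℝ) (h : 0 ≤ ε) : 1 - ε / 2 ≤ (1 - 5 * (ε / 16)) * (1 - 2 * (ε / 16)) := by nlinarith [sq_nonneg ε]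

lemma x5 {C κ L e ε : ℝ} (hκ : 0 < κ) (hL : 0 < L) (he : 0 < e) (hε : 0 < ε)
    (h : 16 * C / (Real.pi * e * ε) ≤ L) : L * (2 * C * κ / (Real.pi * e)) ≤ ε / 8 * (κ * L ^ 2) := by
  have hpi := Real.pi_pos
  rw [div_le_iff₀ (by positivity)] at h
  rw [mul_div_assoc', div_le_iff₀ (by positivity)]
  have h13 : 0 ≤ κ * L := by positivity
  have h14 := mul_le_mul_of_nonneg_right h h13
  linarith

lemma x6 {a C e ε : ℝ} (ha : 0 < a) (he : 0 < e) (hC : 0 ≤ C)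
    (h : a ≤ Real.pi * e * ε / (8 * (C + 1))) : 2 * a * C / (Real.pi * e) ≤ ε / 4 := by
  have hpi := Real.pi_pos
  rw [div_le_iff₀ (by positivity)]
  rw [le_div_iff₀ (by positivity)] at h
  linarith

theorem t_LB (h1 : S_KPL) (h2 : S_KPO) (h3 : S_WT) : S_LB := by
  intro f m D hs ε0 hε0
  obtain ⟨C, hC0, hC⟩ := int_fdZ h2 h3 hs
  obtain ⟨C', hC'0, hC'⟩ := sq_low h1 h3 hs
  obtain ⟨C3, hC3, hW⟩ := h3
  have hD := hs.D1
  have hm := hs.sm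
  have hpi := Real.pi_pos
  set ε : ℝ := min ε0 1 with hε
  have hεp : 0 < ε := lt_min hε0 one_pos
  have hε1 : ε ≤ 1 := min_le_right _ _
  set e : ℝ := ε / 16 with he
  have hep : 0 < e := by positivity
  have he1 : e ≤ 1 / 16 := by rw [he]; linarith
  refine ⟨min (Real.pi * e * ε / (8 * (C' + 1))) (1 / 5), by positivity, ?_⟩
  intro a ha ha0
  have ha1 : a ≤ Real.pi * e * ε / (8 * (C' + 1)) := ha0.trans (min_le_left _ _)
  have ha2 : a ≤ 1 / 5 := ha0.trans (min_le_right _ _)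
  refine ⟨e * a / (2 * Real.pi), by positivity, ?_⟩
  set β : ℝ := e * a / (2 * Real.pi) with hβ
  -- eventual facts
  have hev1 : ∀ᶠ κ : ℝ in 𝓝[>] 0, 0 < κ ∧ κ ≤ 1 / 4 := by
    filter_upwards [Ioc_mem_nhdsGT (show (0 : ℝ) < 1 / 4 by norm_num)] with κ hκ using hκ
  have hev2 : ∀ᶠ κ : ℝ in 𝓝[>] 0, 16 * C / (Real.pi * e * ε) ≤ LL κ := tendsto_LL.eventually_ge_atTop _
  have hlim : Tendsto (fun κ : ℝ => (1 - e) / (1 + 4 * e) * (Real.sinc (1 + κ / 2) ^ 2 * (1 - 2 * (a / LL κ) / Real.pi)))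
      (𝓝[>] 0) (𝓝 ((1 - e) / (1 + 4 * e) * (Real.sinc (1 + 0 / 2) ^ 2 * (1 - 2 * 0 / Real.pi)))) := by
    have t1 : Tendsto (fun κ : ℝ => Real.sinc (1 + κ / 2)) (𝓝[>] 0) (𝓝 (Real.sinc (1 + 0 / 2))) :=
      ((Real.continuous_sinc.comp (by fun_prop : Continuous fun κ : ℝ => 1 + κ / 2)).tendsto 0).mono_left
        nhdsWithin_le_nhds
    have t2 : Tendsto (fun κ : ℝ => a / LL κ) (𝓝[>] 0) (𝓝 0) := tendsto_const_nhds.div_atTop tendsto_LL
    exact tendsto_const_nhds.mul ((t1.pow 2).mul (tendsto_const_nhds.sub ((t2.const_mul 2).div_const _)))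
  have hs1 : Real.sinc (1 + 0 / 2) = Real.sin 1 := by
    rw [zero_div, add_zero, Real.sinc_of_ne_zero one_ne_zero, div_one]
  have hs0 : 0 < Real.sin 1 := Real.sin_pos_of_pos_of_lt_pi one_pos (by have := Real.pi_gt_three; linarith)
  have hfrac : 1 - 5 * e ≤ (1 - e) / (1 + 4 * e) := x2 hep
  have hgt : (1 - ε) * Real.sin 1 ^ 2 < (1 - e) / (1 + 4 * e) * (Real.sinc (1 + 0 / 2) ^ 2 * (1 - 2 * 0 / Real.pi)) := by
    rw [hs1, mul_zero, zero_div, sub_zero, mul_one]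
    have h5 : 1 - ε < (1 - e) / (1 + 4 * e) := by
      refine lt_of_lt_of_le ?_ hfrac
      rw [he]; linarith
    exact mul_lt_mul_of_pos_right h5 (by positivity)
  have hev3 := hlim.eventually (lt_mem_nhds hgt)
  filter_upwards [hev1, hev2, hev3] with κ hκ' hL2 hcoef
  obtain ⟨hκ, hκ1⟩ := hκ'
  have hL := LL_ge_one hκ hκ1
  set L : ℝ := LL κ with hLdef
  have hLp : 0 < L := by linarith
  set δ : ℝ := a / L with hδdef
  have hδ : 0 < δ := by positivity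
  have hδa : δ ≤ a := by rw [hδdef]; exact div_le_self ha.le hL
  have hδ1 : δ ≤ 1 / 5 := hδa.trans ha2
  set σ : ℝ := 1 / 2 + δ with hσ
  obtain ⟨⟨hc, hi, -⟩, -, -, hlow, -, -⟩ := hW κ σ hκ hκ1 (by linarith) (by linarith)
  obtain ⟨f1, f2⟩ := hC κ σ δ e hκ hκ1 (by linarith) (by linarith) hδ hep (x1 he1 hδ hδ1)
  obtain ⟨z1, z2⟩ := hC' κ δ e hκ hκ1 hδ (by linarith) hep (by linarith)
  set U : ℝ := 2 / κ with hU
  set S := (fin_zeros hm U).toFinset with hS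
  set n : ℝ → ℝ := fun γ => ∑ γ' ∈ S.filter (fun γ' => |γ - γ'| ≤ e * δ), (m γ' : ℝ) with hn
  have hex := fun y => excess hm S n hδ hep hep.le (by linarith : e ≤ 1 / 4) y (fun γ _ => rfl)
  have hPPi : ∀ γ, Integrable (fun y => PP δ (y - γ) ^ 2 * hh κ σ y) := by
    intro γ
    refine (hi.const_mul ((1 / δ) ^ 2)).mono' ?_ (Eventually.of_forall fun y => ?_)
    · exact ((((PP_cont hδ).comp (by fun_prop : Continuous fun y : ℝ => y - γ)).pow 2).mul hc).aestronglyMeasurable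
    · rw [Real.norm_of_nonneg (mul_nonneg (sq_nonneg _) (hh_nonneg _ _ _))]
      refine mul_le_mul_of_nonneg_right ?_ (hh_nonneg _ _ _)
      refine pow_le_pow_left₀ (PP_nonneg hδ _) ?_ 2
      unfold PP
      rw [div_le_div_iff₀ (by positivity) hδ]
      have := sq_nonneg (y - γ)
      rw [one_mul, ← sq]
      linarith
  have hn1 : ∀ γ ∈ S, 1 ≤ n γ := by
    intro γ hγ
    have h5 : (1 : ℝ) ≤ m γ := by
      exact_mod_cast Nat.one_le_iff_ne_zero.2 ((fin_zeros hm U).mem_toFinset.1 hγ).2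
    rw [hn]
    refine h5.trans (Finset.single_le_sum (f := fun γ' => (m γ' : ℝ)) (fun _ _ => Nat.cast_nonneg _) ?_)
    rw [Finset.mem_filter]
    refine ⟨hγ, ?_⟩
    rw [sub_self, abs_zero]
    positivity
  -- integrate the excess inequality
  have hint : (∫ y, fdZ m δ e y * hh κ σ y) + ∑ γ ∈ S, (m γ : ℝ) * (n γ - 1) * ∫ y, PP δ (y - γ) ^ 2 * hh κ σ y ≤
      (1 + 4 * e) * ∫ y, ZZ m δ y ^ 2 * hh κ σ y := by
    have e1 : ∑ γ ∈ S, (m γ : ℝ) * (n γ - 1) * ∫ y, PP δ (y - γ) ^ 2 * hh κ σ y =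
        ∫ y, ∑ γ ∈ S, (m γ : ℝ) * (n γ - 1) * (PP δ (y - γ) ^ 2 * hh κ σ y) := by
      rw [integral_finsetSum _ fun γ _ => (hPPi γ).const_mul _]
      refine Finset.sum_congr rfl fun γ _ => ?_
      rw [integral_const_mul]
    have hSi : Integrable (fun y => ∑ γ ∈ S, (m γ : ℝ) * (n γ - 1) * (PP δ (y - γ) ^ 2 * hh κ σ y)) :=
      integrable_finsetSum _ fun γ _ => (hPPi γ).const_mul _
    rw [e1, ← integral_add f1 hSi, ← integral_const_mul]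
    refine integral_mono (f1.add hSi) (z1.const_mul _) fun y => ?_
    simp only
    have h5 := mul_le_mul_of_nonneg_right (hex y) (hh_nonneg κ σ y)
    rw [add_mul, Finset.sum_mul] at h5
    calc fdZ m δ e y * hh κ σ y + ∑ γ ∈ S, (m γ : ℝ) * (n γ - 1) * (PP δ (y - γ) ^ 2 * hh κ σ y)
        = fdZ m δ e y * hh κ σ y + ∑ γ ∈ S, (m γ : ℝ) * (n γ - 1) * PP δ (y - γ) ^ 2 * hh κ σ y := by
          congr 1
          exact Finset.sum_congr rfl fun γ _ => by ring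
      _ ≤ _ := by rw [← mul_assoc]; exact h5
  have hsum : κ ^ 2 * Real.sinc (1 + κ / 2) ^ 2 * ((Real.pi / 2 - δ) / δ) * (∑ γ ∈ S, (m γ : ℝ) * (n γ - 1)) ≤
      ∑ γ ∈ S, (m γ : ℝ) * (n γ - 1) * ∫ y, PP δ (y - γ) ^ 2 * hh κ σ y := by
    rw [Finset.mul_sum]
    refine Finset.sum_le_sum fun γ hγ => ?_
    have hγ' : |γ| ≤ 2 / κ := ((fin_zeros hm U).mem_toFinset.1 hγ).1
    rw [mul_comm]
    refine mul_le_mul_of_nonneg_left (int_PP2_hh hκ hκ1 hδ (hPPi γ) hlow hγ') ?_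
    exact mul_nonneg (Nat.cast_nonneg _) (by linarith [hn1 γ hγ])
  -- counting
  have hX : (Pm m U β : ℝ) - Nm m U ≤ ∑ γ ∈ S, (m γ : ℝ) * (n γ - 1) := by
    have e1 : ∑ γ ∈ S, (m γ : ℝ) * (n γ - 1) = (∑ γ ∈ S, (m γ : ℝ) * n γ) - ∑ γ ∈ S, (m γ : ℝ) := by
      rw [← Finset.sum_sub_distrib]
      exact Finset.sum_congr rfl fun γ _ => by ring
    rw [e1, Nm_eq hm U, Pm_eq hm U β]
    refine sub_le_sub_right (Finset.sum_le_sum fun γ hγ => mul_le_mul_of_nonneg_left ?_ (Nat.cast_nonneg _)) _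
    refine Finset.sum_le_sum_of_subset_of_nonneg ?_ fun _ _ _ => Nat.cast_nonneg _
    intro γ' hγ'
    rw [Finset.mem_filter] at hγ' ⊢
    refine ⟨hγ'.1, ?_⟩
    have h5 := hγ'.2
    have hlog : L ≤ Real.log U := by
      rw [hLdef, hU]
      unfold LL
      exact Real.log_le_log (by positivity) (by gcongr; norm_num)
    rw [div_le_iff₀ (by positivity), hβ, div_mul_cancel₀ _ (by positivity)] at h5
    have h6 : |γ - γ'| * L ≤ e * a := (mul_le_mul_of_nonneg_left hlog (abs_nonneg _)).trans h5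
    rw [hδdef, mul_div_assoc', le_div_iff₀ hLp]
    exact h6
  have hPN : 0 ≤ (Pm m U β : ℝ) - Nm m U := by
    have := Nm_le_Pm hm U β (by positivity)
    linarith
  set P : ℝ := (Pm m U β : ℝ) - Nm m U with hP
  set Z2 : ℝ := ∫ y, ZZ m δ y ^ 2 * hh κ σ y with hZ2
  have hδpi : 0 ≤ Real.pi / 2 - δ := by have := Real.pi_gt_three; linarith
  have hmain1 : Real.pi * D * (κ * L) / (δ * ((1 + e) * (2 + e))) - C * κ / (δ * e) +
      κ ^ 2 * Real.sinc (1 + κ / 2) ^ 2 * ((Real.pi / 2 - δ) / δ) * P ≤ (1 + 4 * e) * Z2 := by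
    have h5 : κ ^ 2 * Real.sinc (1 + κ / 2) ^ 2 * ((Real.pi / 2 - δ) / δ) * P ≤
        κ ^ 2 * Real.sinc (1 + κ / 2) ^ 2 * ((Real.pi / 2 - δ) / δ) * (∑ γ ∈ S, (m γ : ℝ) * (n γ - 1)) :=
      mul_le_mul_of_nonneg_left hX (by positivity)
    linarith
  -- multiply by `2 δ / π`
  have e3 : 2 * δ / Real.pi * (Real.pi * D * (κ * L) / (δ * ((1 + e) * (2 + e))) - C * κ / (δ * e) +
      κ ^ 2 * Real.sinc (1 + κ / 2) ^ 2 * ((Real.pi / 2 - δ) / δ) * P) =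
      D * (κ * L) * (2 / ((1 + e) * (2 + e))) - 2 * C * κ / (Real.pi * e) +
      κ ^ 2 * (Real.sinc (1 + κ / 2) ^ 2 * (1 - 2 * δ / Real.pi)) * P := by
    field_simp
  have h6 : D * (κ * L) * (2 / ((1 + e) * (2 + e))) - 2 * C * κ / (Real.pi * e) +
      κ ^ 2 * (Real.sinc (1 + κ / 2) ^ 2 * (1 - 2 * δ / Real.pi)) * P ≤ 2 * δ / Real.pi * ((1 + 4 * e) * Z2) := by
    rw [← e3]
    exact mul_le_mul_of_nonneg_left hmain1 (by positivity)
  -- final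
  set K : ℝ := Real.sinc (1 + κ / 2) ^ 2 * (1 - 2 * δ / Real.pi) with hK
  have hK0 : 0 ≤ K := by
    refine mul_nonneg (sq_nonneg _) ?_
    rw [sub_nonneg, div_le_one hpi]
    have := Real.pi_gt_three
    linarith
  have hfr : 1 - 2 * e ≤ 2 / ((1 + e) * (2 + e)) := x3 hep
  have hfr0 : 0 ≤ (1 - e) / (1 + 4 * e) := by
    apply div_nonneg _ (by positivity); linarith
  have hfr1 : (1 - e) / (1 + 4 * e) ≤ 1 := by
    rw [div_le_one (by positivity)]; linarith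
  have h7 : (1 - e) / (1 + 4 * e) * (D * (κ * L) * (2 / ((1 + e) * (2 + e))) - 2 * C * κ / (Real.pi * e) +
      κ ^ 2 * K * P) ≤ 2 * δ / Real.pi * ((1 - e) * Z2) := by
    refine (mul_le_mul_of_nonneg_left h6 hfr0).trans (le_of_eq ?_)
    field_simp
  have h8 : 2 * δ / Real.pi * ((1 - e) * Z2) = 2 * δ * (1 / Real.pi * ((1 - e) * Z2 - C' / e * (κ * L ^ 2))) +
      2 * δ * C' / (Real.pi * e) * (κ * L ^ 2) := by
    field_simp
    ring
  have h9 : 2 * δ * (1 / Real.pi * ((1 - e) * Z2 - C' / e * (κ * L ^ 2))) ≤ 2 * δ * Jt f κ δ :=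
    mul_le_mul_of_nonneg_left z2 (by positivity)
  have h10 : (1 - e) / (1 + 4 * e) * (D * (κ * L) * (2 / ((1 + e) * (2 + e))) - 2 * C * κ / (Real.pi * e) +
      κ ^ 2 * K * P) - 2 * δ * C' / (Real.pi * e) * (κ * L ^ 2) ≤ 2 * δ * Jt f κ δ := by linarith
  have h11 : L * ((1 - e) / (1 + 4 * e) * (D * (κ * L) * (2 / ((1 + e) * (2 + e))) - 2 * C * κ / (Real.pi * e) +
      κ ^ 2 * K * P) - 2 * δ * C' / (Real.pi * e) * (κ * L ^ 2)) ≤ 2 * a * Jt f κ δ := by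
    have e4 : 2 * a * Jt f κ δ = L * (2 * δ * Jt f κ δ) := by
      rw [hδdef]; field_simp
    rw [e4]
    exact mul_le_mul_of_nonneg_left h10 hLp.le
  -- the pieces
  have p1 : (1 - ε / 2) * (D * (κ * L ^ 2)) ≤ L * ((1 - e) / (1 + 4 * e) * (D * (κ * L) * (2 / ((1 + e) * (2 + e))))) := by
    have h12 : (1 - ε / 2) ≤ (1 - e) / (1 + 4 * e) * (2 / ((1 + e) * (2 + e))) := by
      have h13 : (1 - 5 * e) * (1 - 2 * e) ≤ (1 - e) / (1 + 4 * e) * (2 / ((1 + e) * (2 + e))) :=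
        mul_le_mul hfrac hfr (by linarith) hfr0
      have h14 : 1 - ε / 2 ≤ (1 - 5 * e) * (1 - 2 * e) := x4 ε hεp.le
      linarith
    calc (1 - ε / 2) * (D * (κ * L ^ 2)) ≤ ((1 - e) / (1 + 4 * e) * (2 / ((1 + e) * (2 + e)))) * (D * (κ * L ^ 2)) :=
          mul_le_mul_of_nonneg_right h12 (by positivity)
      _ = _ := by ring
  have p2 : L * ((1 - e) / (1 + 4 * e) * (2 * C * κ / (Real.pi * e))) ≤ ε / 8 * (κ * L ^ 2) := by
    have h12 : L * ((1 - e) / (1 + 4 * e) * (2 * C * κ / (Real.pi * e))) ≤ L * (1 * (2 * C * κ / (Real.pi * e))) := by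
      have : 0 ≤ 2 * C * κ / (Real.pi * e) := by positivity
      gcongr
    refine h12.trans ?_
    rw [one_mul]
    exact x5 hκ hLp hep hεp hL2
  have p3 : L * (2 * δ * C' / (Real.pi * e) * (κ * L ^ 2)) ≤ ε / 4 * (κ * L ^ 2) := by
    have e5 : L * (2 * δ * C' / (Real.pi * e) * (κ * L ^ 2)) = 2 * a * C' / (Real.pi * e) * (κ * L ^ 2) := by
      rw [hδdef]; field_simp
    rw [e5]
    exact mul_le_mul_of_nonneg_right (x6 ha hep hC'0 ha1) (by positivity)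
  have p4 : (1 - ε) * (κ ^ 2 * L * Real.sin 1 ^ 2 * P) ≤ L * ((1 - e) / (1 + 4 * e) * (κ ^ 2 * K * P)) := by
    have h12 : (1 - ε) * Real.sin 1 ^ 2 ≤ (1 - e) / (1 + 4 * e) * K := hcoef.le
    calc (1 - ε) * (κ ^ 2 * L * Real.sin 1 ^ 2 * P) = ((1 - ε) * Real.sin 1 ^ 2) * (κ ^ 2 * L * P) := by ring
      _ ≤ ((1 - e) / (1 + 4 * e) * K) * (κ ^ 2 * L * P) := mul_le_mul_of_nonneg_right h12 (by positivity)
      _ = _ := by ring
  have p5 : 0 ≤ D * (κ * L ^ 2) + κ ^ 2 * L * Real.sin 1 ^ 2 * P := by positivity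
  have p6 : (1 - ε0) * (D * (κ * L ^ 2) + κ ^ 2 * L * Real.sin 1 ^ 2 * P) ≤
      (1 - ε) * (D * (κ * L ^ 2) + κ ^ 2 * L * Real.sin 1 ^ 2 * P) := by
    refine mul_le_mul_of_nonneg_right ?_ p5
    have := min_le_left ε0 1
    linarith
  refine p6.trans (le_trans ?_ h11)
  have hkl : 0 ≤ κ * L ^ 2 := by positivity
  have p7 : ε / 8 * (κ * L ^ 2) + ε / 4 * (κ * L ^ 2) ≤ ε / 2 * (D * (κ * L ^ 2)) := by
    have h12 : κ * L ^ 2 ≤ D * (κ * L ^ 2) := le_mul_of_one_le_left hkl hD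
    have h13 := mul_le_mul_of_nonneg_left h12 hεp.le
    have h14 := mul_nonneg hεp.le hkl
    linarith
  have e6 : L * ((1 - e) / (1 + 4 * e) * (D * (κ * L) * (2 / ((1 + e) * (2 + e))) - 2 * C * κ / (Real.pi * e) +
      κ ^ 2 * K * P) - 2 * δ * C' / (Real.pi * e) * (κ * L ^ 2)) =
      L * ((1 - e) / (1 + 4 * e) * (D * (κ * L) * (2 / ((1 + e) * (2 + e))))) -
      L * ((1 - e) / (1 + 4 * e) * (2 * C * κ / (Real.pi * e))) + L * ((1 - e) / (1 + 4 * e) * (κ ^ 2 * K * P)) -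
      L * (2 * δ * C' / (Real.pi * e) * (κ * L ^ 2)) := by ring
  rw [e6]
  have e7 : (1 - ε) * (D * (κ * L ^ 2) + κ ^ 2 * L * Real.sin 1 ^ 2 * P) =
      (1 - ε / 2) * (D * (κ * L ^ 2)) - ε / 2 * (D * (κ * L ^ 2)) + (1 - ε) * (κ ^ 2 * L * Real.sin 1 ^ 2 * P) := by
    ring
  rw [e7]
  linarith

end Pool.Agent.Q253.CP
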